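import Pool.Agent.H54.RV.B9

/-!
# [H54 RV B10] `m L + M` is ample for some `m`

`L` ample, `M` a Cartier divisor.
* `amp_pt`: for `x ∈ X` there are `n ≥ 1`, an affine `W` with `x ∈ W` and `N` such that for all `j ≥ N` there is a section `r` of `(L^n)^j * M` (`Sec ((L ^ n) ^ j * M) 1 r`) with `nz ((L^n)^j * M) 1 r = W`.
  Proof.  Take `n`, `s` with `x ∈ U = nz L n s` affine (`Ample`).  `triv` (`B3`) for `M`, `U`, `V = univ`: `c ∈ sec U` a unit at `x` with `M.eq y / M.eq x` a unit of `O y` at the points `y ∈ U` where `c` is a unit.  `denc` for `M`, `U`, `a = c`, `b = (M.eq x)⁻¹`: `q` with `c^j * (M.eq x)⁻¹ * M.eq y ∈ O y` for `y ∈ U`, `j ≥ q`.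
  Let `t = c^(q+1) * (M.eq x)⁻¹` and `W = {y | y ∈ U ∧ Un (O y) c}` (affine by `IsVar.basic`, `x ∈ W`).  For `y ∈ U`: `t * M.eq y = c * (c^q * (M.eq x)⁻¹ * M.eq y)`, both factors in `O y`, a unit iff `c` is a unit (if `c` is a unit then `M.eq y / M.eq x` is one).  `ext_sec` gives `N'`; let `N = N' + 1`, `j ≥ N`, `r = s^j * t`.
  `r * ((L.eq y^n)^j * M.eq y) = (s * L.eq y ^ n) * (s^(j-1) * t * ((L.eq y^n)^(j-1) * M.eq y))`, both factors in `O y`: if it is a unit then `s * L.eq y ^ n` is a unit (`un_mul_iff`), `y ∈ U`, and `(s * L.eq y^n)^j * (t * M.eq y)` a unit gives `t * M.eq y` a unit, `y ∈ W`; conversely for `y ∈ W` all factors are units.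
* `ample_add`: finitely many `W` cover (`IsVar.comp`, `IsVar.op`): points `x_1, ..., x_r` with `n_i`, `N_i`.  Let `m = (∏ n_i) * (∑ N_i + 1)`: `m = n_i * j_i` with `j_i ≥ N_i` for all `i`, so `L^m * M = (L^(n_i))^(j_i) * M` has the section with non-vanishing set `W_i`: ample with `n = 1`.
-/

set_option autoImplicit false

namespace Pool.Agent.H54.RV

variable {k K : Type} [Field k] [Field K] [Algebra k K] {X : Mod k K}

theorem amp_pt (hX : IsVar X) (L M : Cart X) (hL : Ample L) (x : X.P) :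
    ∃ (n : ℕ) (W : Set X.P) (N : ℕ), 1 ≤ n ∧ X.aff W ∧ x ∈ W ∧
      ∀ j ≥ N, ∃ r : K, Sec ((L ^ n) ^ j * M) 1 r ∧ nz ((L ^ n) ^ j * M) 1 r = W := by
  obtain ⟨n, hn, s, hs, hx, haff⟩ := hL x
  set U : Set X.P := nz L n s with hU
  obtain ⟨c, hc1, hc2, hc3⟩ := triv hX M U Set.univ x haff isOpen_univ hx (Set.mem_univ x)
  obtain ⟨q, hq⟩ := denc hX M U haff c (M.eq x)⁻¹ hc1 (by
    intro y hy hu
    have h1 := (hc3 y hy hu).2.2.1
    rw [mul_comm, ← div_eq_mul_inv]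
    exact h1)
  set t : K := c ^ (q + 1) * (M.eq x)⁻¹ with ht
  have htM : ∀ y, t * M.eq y = c * (c ^ q * (M.eq x)⁻¹ * M.eq y) := by
    intro y
    rw [ht]
    ring
  have htmem : ∀ y ∈ U, t * M.eq y ∈ X.O y := by
    intro y hy
    rw [htM]
    exact Subalgebra.mul_mem _ (hc1 y hy) (hq q le_rfl y hy)
  have htun : ∀ y ∈ U, (Un (X.O y) (t * M.eq y) ↔ Un (X.O y) c) := by
    intro y hy
    rw [htM, un_mul_iff (hc1 y hy) (hq q le_rfl y hy)]
    constructor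
    · exact fun h => h.1
    · intro h
      refine ⟨h, ?_⟩
      rw [mul_assoc, mul_comm (M.eq x)⁻¹, ← div_eq_mul_inv]
      exact un_mul (un_pow h q) (hc3 y hy h).2
  obtain ⟨N', hN'⟩ := ext_sec hX L M n s t hs htmem
  refine ⟨n, {y | y ∈ U ∧ Un (X.O y) c}, N' + 1, hn, hX.basic U c haff hc1, ⟨hx, hc2⟩, ?_⟩
  intro j hj
  have heq : ∀ y, ((L ^ n) ^ j * M).eq y = (L.eq y ^ n) ^ j * M.eq y := by
    intro y
    rw [mul_eq, pow_eq, pow_eq]
  refine ⟨s ^ j * t, ?_, ?_⟩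
  · intro y
    rw [pow_one, heq]
    exact hN' j (by omega) y
  · ext y
    show Un (X.O y) (s ^ j * t * ((L ^ n) ^ j * M).eq y ^ 1) ↔ y ∈ U ∧ Un (X.O y) c
    rw [pow_one, heq]
    have hA : s * L.eq y ^ n ∈ X.O y := hs y
    have e1 : s ^ j * t * ((L.eq y ^ n) ^ j * M.eq y) =
        (s * L.eq y ^ n) * (s ^ (j - 1) * t * ((L.eq y ^ n) ^ (j - 1) * M.eq y)) := by
      obtain ⟨i, rfl⟩ : ∃ i, j = i + 1 := ⟨j - 1, by omega⟩
      rw [Nat.add_sub_cancel]
      ring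
    have e2 : s ^ j * t * ((L.eq y ^ n) ^ j * M.eq y) =
        (s * L.eq y ^ n) ^ j * (t * M.eq y) := by ring
    constructor
    · intro h
      have h1 : Un (X.O y) (s * L.eq y ^ n) := by
        rw [e1, un_mul_iff hA (hN' (j - 1) (by omega) y)] at h
        exact h.1
      have hy : y ∈ U := h1
      refine ⟨hy, ?_⟩
      rw [e2, un_mul_iff (Subalgebra.pow_mem _ hA j) (htmem y hy)] at h
      exact (htun y hy).1 h.2
    · rintro ⟨hy, h⟩
      rw [e2]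
      exact un_mul (un_pow hy j) ((htun y hy).2 h)

theorem ample_add (hX : IsVar X) (L M : Cart X) (hL : Ample L) :
    ∃ m : ℕ, 1 ≤ m ∧ Ample (L ^ m * M) := by
  classical
  have h := fun x => amp_pt hX L M hL x
  choose n W N hn haff hxW hj using h
  have hcomp := hX.comp
  obtain ⟨T, -, hT⟩ := isCompact_univ.elim_nhds_subcover W
    (fun x _ => (hX.op _ (haff x)).mem_nhds (hxW x))
  have hprod : 1 ≤ ∏ x ∈ T, n x := Finset.one_le_prod' fun x _ => hn x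
  refine ⟨(∏ x ∈ T, n x) * (∑ x ∈ T, N x + 1), ?_, ?_⟩
  · exact Nat.mul_pos hprod (Nat.succ_pos _)
  · intro z
    obtain ⟨x, hxT, hz⟩ := Set.mem_iUnion₂.1 (hT (Set.mem_univ z))
    have e1 : (∏ x ∈ T, n x) * (∑ x ∈ T, N x + 1) =
        n x * ((∏ x ∈ T.erase x, n x) * (∑ x ∈ T, N x + 1)) := by
      rw [← Finset.mul_prod_erase T n hxT, mul_assoc]
    have hge : N x ≤ (∏ x ∈ T.erase x, n x) * (∑ x ∈ T, N x + 1) := by
      have h1 : N x ≤ ∑ x ∈ T, N x := Finset.single_le_sum (fun _ _ => Nat.zero_le _) hxT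
      have h2 : 1 ≤ ∏ x ∈ T.erase x, n x := Finset.one_le_prod' fun x _ => hn x
      calc N x ≤ ∑ x ∈ T, N x + 1 := by omega
        _ = 1 * (∑ x ∈ T, N x + 1) := (one_mul _).symm
        _ ≤ _ := Nat.mul_le_mul_right _ h2
    obtain ⟨r, hr1, hr2⟩ := hj x _ hge
    rw [← pow_mul, ← e1] at hr1 hr2
    refine ⟨1, le_rfl, r, hr1, ?_, ?_⟩
    · rw [hr2]
      exact hz
    · rw [hr2]
      exact haff x

end Pool.Agent.H54.RV
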