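import Pool.Agent.H54.RV.S2

/-!
# [H54 RV S4] the functions on an affine open set form a finitely generated algebra

`f` is locally of finite type (it is proper), so for the nonempty affine open set `V` the ring homomorphism `Γ(Spec ℂ, ⊤) → Γ(Y, V)` is of finite type (`HasRingHomProperty.appLE` for `LocallyOfFiniteType f`, `U = ⊤` affine, `V ≤ f ⁻¹ᵁ ⊤`; or `LocallyOfFiniteType.finiteType_appLE`), and with `Scheme.ΓSpecIso (.of ℂ)` so is
`ℂ → Γ(Y, V)`, `c ↦` the restriction of `f.appTop ((ΓSpecIso).inv c)`.  `sec V` is the image of `Γ(Y, V)` under the injective homomorphism `gK f V` (`sec_aff`, `mem_sec`), and `gK f V` of the image of `c` is `algebraMap ℂ (FF f) c` (the definition of `cS`, `germ_res`).  So `sec V` is the range of a homomorphism of `ℂ`-algebras from an algebra of finite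
type: `Subalgebra.FG` (`Algebra.FiniteType` and `Subalgebra.FG.map`, `AlgHom.range`).
-/

set_option autoImplicit false

namespace Pool.Agent.H54.RV

open AlgebraicGeometry CategoryTheory

variable {Y : Scheme.{0}} [IsIntegral Y] (f : Y ⟶ Spec (.of ℂ))

/-- the map from `ℂ` to the functions on `V` -/
private noncomputable def cV (V : Y.Opens) : ℂ →+* Γ(Y, V) :=
  ((Scheme.ΓSpecIso (.of ℂ)).inv ≫ f.appLE ⊤ V le_top).hom

private theorem cV_ft [IsProper f] (V : Y.Opens) (hV : IsAffineOpen V) : (cV f V).FiniteType := by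
  have h1 : (f.appLE ⊤ V le_top).hom.FiniteType :=
    HasRingHomProperty.appLE (P := @LocallyOfFiniteType) f inferInstance
      ⟨⊤, isAffineOpen_top _⟩ ⟨V, hV⟩ le_top
  have h2 : Function.Surjective ((Scheme.ΓSpecIso (.of ℂ)).inv).hom :=
    (ConcreteCategory.bijective_of_isIso (Scheme.ΓSpecIso (.of ℂ)).inv).2
  unfold cV
  rw [CommRingCat.hom_comp]
  exact h1.comp (RingHom.FiniteType.of_surjective _ h2)

private theorem gK_cV (V : Y.Opens) [Nonempty V] (c : ℂ) :
    gK f V (cV f V c) = algebraMap ℂ (FF f) c := by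
  have h1 : Y.presheaf.map (homOfLE (le_top : V ≤ ⊤)).op ≫ Y.germToFunctionField V =
      Y.presheaf.germ ⊤ (genericPoint Y) (TopologicalSpace.Opens.mem_top _) :=
    Y.presheaf.germ_res (homOfLE (le_top : V ≤ ⊤)) _ _
  have h2 : (Scheme.ΓSpecIso (.of ℂ)).inv ≫ f.appLE ⊤ V le_top ≫ Y.germToFunctionField V =
      (Scheme.ΓSpecIso (.of ℂ)).inv ≫ f.appTop ≫
        Y.presheaf.germ ⊤ (genericPoint Y) (TopologicalSpace.Opens.mem_top _) := by
    rw [← h1]
    simp only [Scheme.Hom.appLE, Category.assoc]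
    rfl
  exact congrArg (fun g => g.hom c) h2

theorem mdl_fg [IsProper f] (U : Set (mdl f).P) (hU : (mdl f).aff U) (hne : U.Nonempty) :
    ((mdl f).sec U).FG := by
  obtain ⟨V, hV, rfl⟩ := hU
  haveI : Nonempty V := by
    obtain ⟨x, hx⟩ := hne
    exact ⟨⟨x, hx⟩⟩
  letI : Algebra ℂ Γ(Y, V) := (cV f V).toAlgebra
  have hft : Algebra.FiniteType ℂ Γ(Y, V) := cV_ft f V hV
  let φ : Γ(Y, V) →ₐ[ℂ] FF f := { gK f V with commutes' := fun c => gK_cV f V c }
  have hr : (mdl f).sec (V : Set Y) = φ.range := by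
    ext a
    rw [AlgHom.mem_range]
    have h1 : a ∈ (mdl f).sec (V : Set Y) ↔ ∀ x ∈ V, a ∈ locA f x := by
      simp only [Mod.sec, Algebra.mem_iInf]
      rfl
    rw [h1, sec_aff f V hV]
    rfl
  rw [hr, ← Algebra.map_top]
  exact hft.1.map φ

end Pool.Agent.H54.RV
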