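import Pool.Agent.H54.RV.S5

/-!
# [H54 RV S6] centres of places: the valuative criterion

`ζ : Y`, `p` a place of `κ = kap ζ` over `ℂ`, `R = p.R`.
* `mkSq`: the valuative commutative square (`ValuativeCommSq f`, `AlgebraicGeometry/ValuativeCriterion.lean`): `R`, `K = κ`, `i₁ = iK ζ`, `i₂ = Spec.map (ℂ → R)`, commutative by `iK_f` (`ℂ → R → κ` is `algebraMap ℂ κ`).
* `lift_cen`: let `g : Spec R ⟶ Y` be a lift, `x = g (closedPoint R)`.  Then `Cen (mdl f) ζ x p`.  (1) `ζ ⤳ x`: `ζ = iK pt = g (generic)` and the generic point of `Spec R` specializes to the closed point (`specializes_closedPoint`, `Specializes.map g.continuous`).  (2) `O_mono`.  (3) Let `φ = Scheme.stalkClosedPointTo g : stalk x → R`, a local homomorphism.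
  Compatibility: for `s ∈ stalk x`: `(φ s : κ) = rs ζ (toK x s)`: `Spec.map φ ≫ Y.fromSpecStalk x = g` (`Scheme.Spec_stalkClosedPointTo_fromSpecStalk`), so `Spec.map (R → κ) ≫ Spec.map φ ≫ fromSpecStalk x = iK ζ = Spec.map (rK ζ) ≫ Spec.map (stalkSpecializes) ≫ fromSpecStalk x` (`Scheme.SpecMap_stalkSpecializes_fromSpecStalk`), and
  `fromSpecStalk x` is a monomorphism (preimmersion), so the two ring homomorphisms `stalk x → κ` agree (`Spec.map_injective`); `toK_spec`, `rK_apply`.  So `rs ζ a ∈ R` for `a = toK x s ∈ O x`; if `rs ζ a ≠ 0` and its inverse is in `R`, then `φ s` is a unit of `R`, so `s` is a unit (local) and `a⁻¹ ∈ O x`.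
* `cen_ex`: existence: `IsProper.eq_valuativeCriterion` (`f` satisfies the existence part).
* `cen_lift`: let `Cen (mdl f) ζ x p`.  `ψ : stalk x → R`, `s ↦ rs ζ (toK x s)` is a ring homomorphism (`Subring`/`ValuationSubring` codRestrict of `rK ζ ∘ stalkSpecializes`), local by the last condition of `Cen`; `g = Spec.map ψ ≫ Y.fromSpecStalk x` is a lift of `mkSq` (upper triangle: as above; lower triangle: `fromSpecStalk_f`) with `g (closedPoint R) = x`
  (`comap_closedPoint`, `fromSpecStalk_closedPoint`).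
* `cen_un`: uniqueness of the lift (`f` is separated) gives the uniqueness of the centre.
-/

set_option autoImplicit false

namespace Pool.Agent.H54.RV

open AlgebraicGeometry CategoryTheory

variable {Y : Scheme.{0}} [IsIntegral Y] (f : Y ⟶ Spec (.of ℂ))

/-- the map from `ℂ` to the valuation ring -/
noncomputable def cR {κ : Type} [Field κ] [Algebra ℂ κ] (p : Place ℂ κ) : ℂ →+* p.R :=
  (algebraMap ℂ κ).codRestrict p.R p.mem

/-- the valuative square -/
noncomputable def mkSq (ζ : Y) (p : Place ℂ ((mdl f).kap ζ)) : ValuativeCommSq f where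
  R := p.R
  K := (mdl f).kap ζ
  i₁ := iK f ζ
  i₂ := Spec.map (CommRingCat.ofHom (cR p))
  commSq := ⟨by
    rw [iK_f, ← Spec.map_comp, ← CommRingCat.ofHom_comp]
    rfl⟩

set_option backward.isDefEq.respectTransparency false in
theorem lift_comp (ζ : Y) (p : Place ℂ ((mdl f).kap ζ)) (g : Spec (.of p.R) ⟶ Y)
    (hg : Spec.map (CommRingCat.ofHom (algebraMap p.R ((mdl f).kap ζ))) ≫ g = iK f ζ)
    (h : ζ ⤳ g (IsLocalRing.closedPoint p.R))
    (s : Y.presheaf.stalk (g (IsLocalRing.closedPoint p.R))) :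
    (((Scheme.stalkClosedPointTo g).hom s : p.R) : (mdl f).kap ζ) =
      (mdl f).rs ζ (toK f (g (IsLocalRing.closedPoint p.R)) s) := by
  have h1 : (Scheme.stalkClosedPointTo g ≫
      CommRingCat.ofHom (algebraMap p.R ((mdl f).kap ζ))) =
      Y.presheaf.stalkSpecializes h ≫ CommRingCat.ofHom (rK f ζ) := by
    apply Spec.map_injective
    rw [Spec.map_comp, Spec.map_comp,
      ← cancel_mono (Y.fromSpecStalk (g (IsLocalRing.closedPoint p.R))), Category.assoc,
      Category.assoc, Scheme.SpecMap_stalkSpecializes_fromSpecStalk,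
      Scheme.Spec_stalkClosedPointTo_fromSpecStalk, hg]
    rfl
  have h2 := congrArg (fun t => t.hom s) h1
  rw [← toK_spec f h s, ← rK_apply]
  exact h2

set_option backward.isDefEq.respectTransparency false in
theorem lift_cen (ζ : Y) (p : Place ℂ ((mdl f).kap ζ)) (g : Spec (.of p.R) ⟶ Y)
    (hg : Spec.map (CommRingCat.ofHom (algebraMap p.R ((mdl f).kap ζ))) ≫ g = iK f ζ) :
    Cen (mdl f) ζ (g (IsLocalRing.closedPoint p.R)) p := by
  have hs : ζ ⤳ g (IsLocalRing.closedPoint p.R) := by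
    have h1 := iK_pt f ζ (IsLocalRing.closedPoint ((mdl f).kap ζ))
    rw [← hg, Scheme.Hom.comp_apply] at h1
    have h2 := (IsLocalRing.specializes_closedPoint (Spec.map (CommRingCat.ofHom
      (algebraMap p.R ((mdl f).kap ζ))) (IsLocalRing.closedPoint ((mdl f).kap ζ)))).map
      g.continuous
    rwa [h1] at h2
  refine ⟨hs, O_mono f hs, ?_⟩
  rintro a ⟨s, rfl⟩
  have h1 := lift_comp f ζ p g hg hs s
  constructor
  · change (mdl f).rs ζ (toK f _ s) ∈ p.R
    rw [← h1]
    exact Subtype.property _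
  · intro h2 h3
    change (mdl f).rs ζ (toK f _ s) ≠ 0 at h2
    change ((mdl f).rs ζ (toK f _ s))⁻¹ ∈ p.R at h3
    have h4 : IsUnit ((Scheme.stalkClosedPointTo g).hom s) := by
      refine IsUnit.of_mul_eq_one ⟨_, h3⟩ (Subtype.ext ?_)
      change (((Scheme.stalkClosedPointTo g).hom s : p.R) : (mdl f).kap ζ) * _ = 1
      rw [h1]
      exact mul_inv_cancel₀ h2
    have h5 : IsUnit s := isUnit_of_map_unit (Scheme.stalkClosedPointTo g).hom s h4
    obtain ⟨t, ht⟩ := h5.exists_right_inv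
    refine ⟨t, ?_⟩
    change toK f _ t = (toK f _ s)⁻¹
    rw [eq_comm, inv_eq_iff_eq_inv, eq_comm, inv_eq_of_mul_eq_one_left]
    rw [← map_mul, ht, map_one]

theorem cen_ex [IsProper f] (ζ : (mdl f).P) (p : Place ℂ ((mdl f).kap ζ)) :
    ∃ x, Cen (mdl f) ζ x p := by
  have hE : ValuativeCriterion.Existence f := by
    have h1 : UniversallyClosed f := inferInstance
    rw [UniversallyClosed.eq_valuativeCriterion] at h1
    exact h1.1
  obtain ⟨⟨l⟩⟩ := hE (mkSq f ζ p)
  exact ⟨_, lift_cen f ζ p l.l l.fac_left⟩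

/-- the map from the stalk at the centre -/
noncomputable def psiR (ζ x : Y) (p : Place ℂ ((mdl f).kap ζ)) (h : Cen (mdl f) ζ x p) :
    Y.presheaf.stalk x →+* p.R :=
  ((rK f ζ).comp (Y.presheaf.stalkSpecializes h.1).hom).codRestrict p.R (fun s => by
    rw [RingHom.comp_apply, rK_apply, toK_spec]
    exact (h.2.2 _ ⟨s, rfl⟩).1)

theorem psiR_coe (ζ x : Y) (p : Place ℂ ((mdl f).kap ζ)) (h : Cen (mdl f) ζ x p)
    (s : Y.presheaf.stalk x) :
    (psiR f ζ x p h s : (mdl f).kap ζ) = (mdl f).rs ζ (toK f x s) := by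
  rw [← toK_spec f h.1 s, ← rK_apply]
  rfl

theorem psiR_local (ζ x : Y) (p : Place ℂ ((mdl f).kap ζ)) (h : Cen (mdl f) ζ x p) :
    IsLocalHom (psiR f ζ x p h) := by
  constructor
  intro s hs
  obtain ⟨u, hu⟩ := hs.exists_right_inv
  have h1 : (mdl f).rs ζ (toK f x s) * (u : (mdl f).kap ζ) = 1 := by
    rw [← psiR_coe]
    exact congrArg Subtype.val hu
  have h2 : (mdl f).rs ζ (toK f x s) ≠ 0 := left_ne_zero_of_mul_eq_one h1
  have h3 : ((mdl f).rs ζ (toK f x s))⁻¹ ∈ p.R := by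
    rw [inv_eq_of_mul_eq_one_right h1]
    exact u.2
  obtain ⟨t, ht⟩ := (h.2.2 _ ⟨s, rfl⟩).2 h2 h3
  change toK f x t = (toK f x s)⁻¹ at ht
  refine IsUnit.of_mul_eq_one t (toK_inj f x ?_)
  rw [map_mul, map_one, ht]
  refine mul_inv_cancel₀ ?_
  intro h4
  apply h2
  rw [h4]
  unfold Mod.rs
  rw [dif_pos (Subalgebra.zero_mem _)]
  exact map_zero _

set_option backward.isDefEq.respectTransparency false in
theorem cen_lift (ζ x : Y) (p : Place ℂ ((mdl f).kap ζ)) (h : Cen (mdl f) ζ x p) :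
    ∃ g : Spec (.of p.R) ⟶ Y, g (IsLocalRing.closedPoint p.R) = x ∧
      Spec.map (CommRingCat.ofHom (algebraMap p.R ((mdl f).kap ζ))) ≫ g = iK f ζ ∧
      g ≫ f = Spec.map (CommRingCat.ofHom (cR p)) := by
  have := psiR_local f ζ x p h
  refine ⟨Spec.map (CommRingCat.ofHom (psiR f ζ x p h)) ≫ Y.fromSpecStalk x, ?_, ?_, ?_⟩
  · have h2 : Spec.map (CommRingCat.ofHom (psiR f ζ x p h)) (IsLocalRing.closedPoint p.R) =
        IsLocalRing.closedPoint (Y.presheaf.stalk x) :=
      IsLocalRing.comap_closedPoint (psiR f ζ x p h)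
    rw [Scheme.Hom.comp_apply, h2]
    exact Scheme.fromSpecStalk_closedPoint
  · rw [← Category.assoc, ← Spec.map_comp, ← CommRingCat.ofHom_comp]
    have h3 : CommRingCat.ofHom ((algebraMap p.R ((mdl f).kap ζ)).comp (psiR f ζ x p h)) =
        Y.presheaf.stalkSpecializes h.1 ≫ CommRingCat.ofHom (rK f ζ) := rfl
    rw [h3, Spec.map_comp, Category.assoc, Scheme.SpecMap_stalkSpecializes_fromSpecStalk]
    rfl
  · rw [Category.assoc, fromSpecStalk_f, ← Spec.map_comp, ← CommRingCat.ofHom_comp]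
    congr 2
    ext c
    rw [RingHom.comp_apply, psiR_coe, toK_cS]
    exact rs_alg (X := mdl f) ζ c

theorem cen_un [IsProper f] (ζ : (mdl f).P) (p : Place ℂ ((mdl f).kap ζ)) (x x' : (mdl f).P)
    (h : Cen (mdl f) ζ x p) (h' : Cen (mdl f) ζ x' p) : x = x' := by
  obtain ⟨g, h1, h2, h3⟩ := cen_lift f ζ x p h
  obtain ⟨g', h1', h2', h3'⟩ := cen_lift f ζ x' p h'
  have hU := IsSeparated.valuativeCriterion f (mkSq f ζ p)
  have h4 : (⟨g, h2, h3⟩ : (mkSq f ζ p).commSq.LiftStruct) = ⟨g', h2', h3'⟩ :=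
    Subsingleton.elim _ _
  have h5 : g = g' := congrArg CommSq.LiftStruct.l h4
  rw [← h1, ← h1', h5]

end Pool.Agent.H54.RV
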