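import Pool.Agent.H54.RV.S3
import Pool.Agent.H54.RV.S4
import Pool.Agent.H54.RV.S6

/-!
# Real varieties: the local rings of a proper integral scheme (assembly, complete)
-/

set_option autoImplicit false

namespace Pool.Agent.H54.RV

open AlgebraicGeometry CategoryTheory

variable {Y : Scheme.{0}} [IsIntegral Y] (f : Y ⟶ Spec (.of ℂ))

theorem isVar_mdl [IsProper f] : IsVar (mdl f) where
  comp := mdl_comp f
  ne := ⟨genericPoint Y⟩
  spec _ _ h := O_mono f h
  op := mdl_op f
  chart := mdl_chart f
  basic := mdl_basic f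
  bas := mdl_bas f
  fg := mdl_fg f
  frac := mdl_frac f
  prime := mdl_prime f
  cen ζ p := by
    obtain ⟨x, hx⟩ := cen_ex f ζ p
    exact ⟨x, hx, fun y hy => cen_un f ζ p y x hy hx⟩

end Pool.Agent.H54.RV
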