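import Pool.Agent.H54.RV.Act
import Pool.Agent.H57.KM.Basic

/-!
# Real varieties: the conditions of the criterion (definitions)

* `DomC X Γ`: the group `Γ` has a rational polyhedral fundamental domain on the convex hull of the rational nef
  classes.
* `FinIndC X Γ`: the ample integral classes which are not the sum of an ample and a nonzero nef integral class form
  finitely many `Γ`-orbits.
* `grpR Γ b`: the matrices of the pull-backs by the elements of `Γ` in the basis `b` of the lattice.
-/

set_option autoImplicit false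

namespace Pool.Agent.H54.RV

open Pool.Agent.H57.KM

variable {k K : Type} [Field k] [Field K] [Algebra k K] {X : Mod k K}

variable (X) in
/-- the group `Γ` has a rational polyhedral fundamental domain on the convex hull of the rational nef classes -/
def DomC (Γ : Subgroup (MAut X)) : Prop :=
  ∃ Q : Set (N1 X), RatPolyC Q ∧ convexHull ℝ (NefC X ∩ RatC X) = ⋃ g ∈ Γ, g.act '' Q ∧
    ∀ g ∈ Γ, g.act ≠ LinearMap.id → Disjoint (interior Q) (g.act '' interior Q)

variable (X) in
/-- the ample integral classes which are not the sum of an ample and a nonzero nef integral class form finitely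
many orbits -/
def FinIndC (Γ : Subgroup (MAut X)) : Prop :=
  ∃ F : Set (N1 X), F.Finite ∧ ∀ D : Cart X, cl D ∈ AmpC X →
    (∀ A N : Cart X, cl A ∈ AmpC X → cl N ∈ NefC X → cl D = cl A + cl N → cl N = 0) →
    ∃ g ∈ Γ, ∃ w ∈ F, cl D = g.act w

/-- the group of the automorphisms in the coordinates -/
def grpR (Γ : Subgroup (MAut X)) {n : ℕ} (b : Module.Basis (Fin n) ℤ (Lat X)) :
    Subgroup (GL (Fin n) ℤ) where
  carrier := {A | ∃ g ∈ Γ, ∀ x : V n, g.act (pt b x) = pt b (act A x)}
  mul_mem' := by
    rintro A B ⟨g, hg, h1⟩ ⟨h, hh, h2⟩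
    refine ⟨h * g, Γ.mul_mem hh hg, fun x => ?_⟩
    rw [MAut.act_mul, h2, h1, act_mul]
  one_mem' := ⟨1, Γ.one_mem, fun x => by rw [MAut.act_one, act_one]⟩
  inv_mem' := by
    rintro A ⟨g, hg, h1⟩
    refine ⟨g⁻¹, Γ.inv_mem hg, fun x => ?_⟩
    have h2 := h1 (act A⁻¹ x)
    rw [← act_mul, mul_inv_cancel, act_one] at h2
    rw [← h2, MAut.act_inv]

end Pool.Agent.H54.RV
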