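import Pool.Agent.H54.RV.Defs

/-!
# Real varieties: the effective nef cone, the hull of the rational nef classes, coordinates on `N1` (definitions)

* `NefE X`: the effective nef cone.  `NefP X`: the convex hull of the rational nef classes.
* `NE X`: every integral nef class is effective.
* `LatB X n`: the bases of the lattice of the integral classes (the Picard number is `n`).
* `pt b x`: the point of `N1 X` with the coordinates `x` in the basis `b`; `ampR b`, `effR b`: the ample and the
  effective cone in these coordinates.
-/

set_option autoImplicit false

namespace Pool.Agent.H54.RV

variable {k K : Type} [Field k] [Field K] [Algebra k K]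

section cones

variable (X : Mod k K)

/-- the effective nef cone -/
def NefE : Set (N1 X) := NefC X ∩ EffC X

/-- the convex hull of the rational nef classes -/
def NefP : Set (N1 X) := convexHull ℝ (NefC X ∩ RatC X)

/-- every integral nef class is effective -/
def NE : Prop := ∀ D : Cart X, cl D ∈ NefC X → cl D ∈ EffC X

/-- the bases of the lattice of the integral classes -/
abbrev LatB (n : ℕ) : Type := Module.Basis (Fin n) ℤ (Lat X)

end cones

variable {X : Mod k K} {n : ℕ} (b : LatB X n)

/-- the point of `N1` with coordinates `x` -/
noncomputable def pt (x : Fin n → ℝ) : N1 X := ∑ i, x i • (b i : N1 X)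

/-- the ample cone in the coordinates -/
def ampR : Set (Fin n → ℝ) := {x | pt b x ∈ AmpC X}

/-- the effective cone in the coordinates -/
def effR : Set (Fin n → ℝ) := {x | pt b x ∈ EffC X}

end Pool.Agent.H54.RV
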