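import Pool.Agent.H54.RV.Defs

/-!
# Real varieties: the space `N1` (basic properties)
-/

set_option autoImplicit false

namespace Pool.Agent.H54.RV

variable {k K : Type} [Field k] [Field K] [Algebra k K] {X : Mod k K}

instance : IsTopologicalAddGroup (N1 X) := inferInstanceAs (IsTopologicalAddGroup (N1s X))

instance : ContinuousSMul ℝ (N1 X) := inferInstanceAs (ContinuousSMul ℝ (N1s X))

instance : T2Space (N1 X) := inferInstanceAs (T2Space (N1s X))

/-- the value at a curve -/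
def N1.fn (v : N1 X) (C : Curve X) : ℝ := v.f C.ζ

theorem f_zero (ζ : X.P) : (0 : N1 X).f ζ = 0 := rfl

theorem f_add (v w : N1 X) (ζ : X.P) : (v + w).f ζ = v.f ζ + w.f ζ := rfl

theorem f_smul (c : ℝ) (v : N1 X) (ζ : X.P) : (c • v).f ζ = c * v.f ζ := rfl

theorem span_cl : Submodule.span ℝ (Set.range (cl (X := X))) = ⊤ := by
  rw [eq_top_iff]
  rintro ⟨u, hu⟩ -
  refine Submodule.span_induction (p := fun v hv => (⟨v, hv⟩ : N1s X) ∈
    Submodule.span ℝ (Set.range (cl (X := X)))) ?_ ?_ ?_ ?_ hu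
  · rintro _ ⟨D, rfl⟩
    exact Submodule.subset_span ⟨D, rfl⟩
  · exact Submodule.zero_mem _
  · intro v w hv hw h1 h2
    exact Submodule.add_mem _ h1 h2
  · intro c v hv h1
    exact Submodule.smul_mem _ c h1

/-- induction on the elements of `N1` -/
theorem N1.ind {p : N1 X → Prop} (h0 : p 0) (h1 : ∀ D, p (cl D)) (h2 : ∀ v w, p v → p w → p (v + w))
    (h3 : ∀ (c : ℝ) (v : N1 X), p v → p (c • v)) (v : N1 X) : p v := by
  have hv : v ∈ Submodule.span ℝ (Set.range (cl (X := X))) := by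
    rw [span_cl]
    trivial
  induction hv using Submodule.span_induction with
  | mem u hu =>
    obtain ⟨D, rfl⟩ := hu
    exact h1 D
  | zero => exact h0
  | add u w _ _ h4 h5 => exact h2 u w h4 h5
  | smul c u _ h4 => exact h3 c u h4

theorem cls_crv (D : Cart X) (C : Curve X) : cls D C.ζ = (inter D C : ℝ) := by
  unfold cls
  rw [dif_pos C.trdeg]

theorem cls_zero (D : Cart X) (ζ : X.P) (h : Algebra.trdeg k (X.kap ζ) ≠ 1) : cls D ζ = 0 := by
  unfold cls
  rw [dif_neg h]

theorem f_not (v : N1 X) (ζ : X.P) (h : Algebra.trdeg k (X.kap ζ) ≠ 1) : v.f ζ = 0 := by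
  refine N1.ind (p := fun v => v.f ζ = 0) rfl (fun D => cls_zero D ζ h) (fun v w h1 h2 => ?_)
    (fun c v h1 => ?_) v
  · rw [f_add, h1, h2, add_zero]
  · rw [f_smul, h1, mul_zero]

theorem N1.extF {v w : N1 X} (h : ∀ ζ, v.f ζ = w.f ζ) : v = w :=
  Subtype.ext (funext h)

theorem N1.ext' {v w : N1 X} (h : ∀ C, v.fn C = w.fn C) : v = w := by
  refine N1.extF fun ζ => ?_
  by_cases hζ : Algebra.trdeg k (X.kap ζ) = 1
  · exact h ⟨ζ, hζ⟩
  · rw [f_not v ζ hζ, f_not w ζ hζ]

theorem cl_fn (D : Cart X) (C : Curve X) : (cl D).fn C = (inter D C : ℝ) := cls_crv D C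

theorem fn_zero (C : Curve X) : (0 : N1 X).fn C = 0 := rfl

theorem fn_add (v w : N1 X) (C : Curve X) : (v + w).fn C = v.fn C + w.fn C := rfl

theorem fn_neg (v : N1 X) (C : Curve X) : (-v).fn C = - v.fn C := rfl

theorem fn_smul (c : ℝ) (v : N1 X) (C : Curve X) : (c • v).fn C = c * v.fn C := rfl

/-- the value at a curve as a linear map -/
noncomputable def evL (C : Curve X) : N1 X →ₗ[ℝ] ℝ where
  toFun v := v.fn C
  map_add' v w := fn_add v w C
  map_smul' c v := fn_smul c v C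

theorem fn_sum {ι : Type*} (s : Finset ι) (v : ι → N1 X) (C : Curve X) :
    (∑ i ∈ s, v i).fn C = ∑ i ∈ s, (v i).fn C := map_sum (evL C) v s

theorem f_cont (ζ : X.P) : Continuous fun v : N1 X => v.f ζ :=
  (continuous_apply ζ).comp continuous_subtype_val

theorem fn_cont (C : Curve X) : Continuous fun v : N1 X => v.fn C := f_cont C.ζ

end Pool.Agent.H54.RV
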