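import Pool.Agent.H54.RV.Crv
import Pool.Agent.H54.RV.Nb
import Pool.Agent.H54.RV.Crd

/-!
# Real varieties: the action of the automorphisms on `N1`
-/

set_option autoImplicit false

namespace Pool.Agent.H54.RV

variable {k K : Type} [Field k] [Field K] [Algebra k K] {X : Mod k K}

theorem cls_pullF (g : MAut X) (D : Cart X) (ζ : X.P) : cls (g.pull D) ζ = cls D (g.σ ζ) := by
  by_cases h : Algebra.trdeg k (X.kap ζ) = 1
  · have h1 := cls_crv (g.pull D) ⟨ζ, h⟩
    have h2 := cls_crv D (g.crv ⟨ζ, h⟩)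
    rw [cls_pull] at h1
    exact h1.trans h2.symm
  · have h' : Algebra.trdeg k (X.kap (g.σ ζ)) ≠ 1 := by
      rw [(g.kapE ζ).trdeg_eq]
      exact h
    rw [cls_zero _ _ h, cls_zero _ _ h']

theorem act_mem (g : MAut X) (v : X.P → ℝ) (hv : v ∈ N1s X) :
    LinearMap.funLeft ℝ ℝ g.σ v ∈ N1s X := by
  refine Submodule.span_induction (p := fun v _ => LinearMap.funLeft ℝ ℝ g.σ v ∈ N1s X)
    ?_ ?_ ?_ ?_ hv
  · rintro _ ⟨D, rfl⟩
    have h : LinearMap.funLeft ℝ ℝ g.σ (cls D) = cls (g.pull D) := by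
      funext ζ
      rw [LinearMap.funLeft_apply, cls_pullF]
    rw [h]
    exact Submodule.subset_span ⟨_, rfl⟩
  · rw [map_zero]
    exact Submodule.zero_mem _
  · intro v w _ _ h1 h2
    rw [map_add]
    exact Submodule.add_mem _ h1 h2
  · intro c v _ h1
    rw [map_smul]
    exact Submodule.smul_mem _ c h1

/-- the action (pull-back) on `N1`: `(g^* v) . C = v . g(C)` -/
noncomputable def MAut.act (g : MAut X) : N1 X →ₗ[ℝ] N1 X where
  toFun v := (⟨v.f ∘ g.σ, act_mem g _ v.2⟩ : N1s X)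
  map_add' _ _ := rfl
  map_smul' _ _ := rfl

theorem MAut.act_apply (g : MAut X) (v : N1 X) (C : Curve X) :
    (g.act v).fn C = v.fn (g.crv C) := rfl

theorem MAut.act_f (g : MAut X) (v : N1 X) (ζ : X.P) : (g.act v).f ζ = v.f (g.σ ζ) := rfl

theorem MAut.act_cl (g : MAut X) (D : Cart X) : g.act (cl D) = cl (g.pull D) := by
  refine N1.ext' fun C => ?_
  rw [MAut.act_apply, cl_fn, cl_fn, cls_pull]

theorem MAut.act_mul (g h : MAut X) (v : N1 X) : (g * h).act v = h.act (g.act v) := rfl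

theorem MAut.act_one (v : N1 X) : (1 : MAut X).act v = v := rfl

theorem MAut.act_inv (g : MAut X) (v : N1 X) : g⁻¹.act (g.act v) = v := by
  rw [← MAut.act_mul, mul_inv_cancel, MAut.act_one]

variable (X) in
/-- Q1 for the group `Γ` of automorphisms -/
def Q1M (Γ : Subgroup (MAut X)) : Prop :=
  ∃ Q : Set (N1 X), RatPolyC Q ∧ NefC X ∩ EffC X = ⋃ g ∈ Γ, g.act '' Q ∧
    ∀ g ∈ Γ, g.act ≠ LinearMap.id → Disjoint (interior Q) (g.act '' interior Q)

end Pool.Agent.H54.RV
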