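import Pool.Agent.H54.RV.FDefs
import Pool.Agent.H54.RV.Cond
import Pool.Agent.H54.RV.S7

/-!
# Real varieties: the definitions of the statement and the groups `Subgroup (MAut X)`
-/

set_option autoImplicit false

namespace Pool.Agent.H54.RV

open AlgebraicGeometry CategoryTheory Pool.Agent.H57.KM

section gen

variable {k K : Type} [Field k] [Field K] [Algebra k K] {X : Mod k K}

/-- the maps given by the elements of `Γ` -/
def ActS (Γ : Subgroup (MAut X)) : Set (N1 X → N1 X) := {h | ∃ g ∈ Γ, h = g.act}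

theorem fund_iff (Γ : Subgroup (MAut X)) (S : Set (N1 X)) :
    Fund (ActS Γ) S ↔ ∃ Q : Set (N1 X), RatPolyC Q ∧ S = ⋃ g ∈ Γ, g.act '' Q ∧
      ∀ g ∈ Γ, g.act ≠ LinearMap.id → Disjoint (interior Q) (g.act '' interior Q) := by
  have hid : ∀ g : MAut X, (g.act : N1 X → N1 X) = id ↔ g.act = LinearMap.id := by
    intro g
    constructor
    · intro h
      exact LinearMap.ext fun v => congrFun h v
    · intro h
      rw [h]
      rfl
  have hU : ∀ Q : Set (N1 X), (⋃ h ∈ ActS Γ, h '' Q) = ⋃ g ∈ Γ, g.act '' Q := by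
    intro Q
    ext v
    simp only [Set.mem_iUnion, exists_prop]
    constructor
    · rintro ⟨_, ⟨g, hg, rfl⟩, hv⟩
      exact ⟨g, hg, hv⟩
    · rintro ⟨g, hg, hv⟩
      exact ⟨_, ⟨g, hg, rfl⟩, hv⟩
  constructor
  · rintro ⟨Q, h1, h2, h3⟩
    refine ⟨Q, h1, h2.trans (hU Q), fun g hg hne => ?_⟩
    exact h3 _ ⟨g, hg, rfl⟩ fun h => hne ((hid g).1 h)
  · rintro ⟨Q, h1, h2, h3⟩
    refine ⟨Q, h1, h2.trans (hU Q).symm, ?_⟩
    rintro _ ⟨g, hg, rfl⟩ hne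
    exact h3 g hg fun h => hne ((hid g).2 h)

theorem finInd_iff (Γ : Subgroup (MAut X)) : FinIndS (ActS Γ) ↔ FinIndC X Γ := by
  constructor
  · rintro ⟨F, hF, h⟩
    refine ⟨F, hF, fun D h1 h2 => ?_⟩
    obtain ⟨_, ⟨g, hg, rfl⟩, w, hw, hD⟩ := h D h1 h2
    exact ⟨g, hg, w, hw, hD⟩
  · rintro ⟨F, hF, h⟩
    refine ⟨F, hF, fun D h1 h2 => ?_⟩
    obtain ⟨g, hg, w, hw, hD⟩ := h D h1 h2
    exact ⟨_, ⟨g, hg, rfl⟩, w, hw, hD⟩

theorem grp_eq (Γ : Subgroup (MAut X)) {n : ℕ} (b : Module.Basis (Fin n) ℤ (Lat X)) :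
    grpS (ActS Γ) b = grpR Γ b := by
  have h : {A : GL (Fin n) ℤ | ∃ g ∈ ActS Γ, ∀ x : V n, g (pt b x) = pt b (act A x)} =
      (grpR Γ b : Set (GL (Fin n) ℤ)) := by
    ext A
    constructor
    · rintro ⟨_, ⟨g, hg, rfl⟩, h⟩
      exact ⟨g, hg, h⟩
    · rintro ⟨g, hg, h⟩
      exact ⟨_, ⟨g, hg, rfl⟩, h⟩
  unfold grpS
  rw [h, Subgroup.closure_eq]

end gen

variable {Y : Scheme.{0}} [IsIntegral Y] (f : Y ⟶ Spec (.of ℂ))

theorem autS_eq : AutS f = ActS (autG f) := by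
  ext h
  constructor
  · rintro ⟨φ, hφ, h1⟩
    refine ⟨toMAut f (Over.isoMk φ hφ), ⟨_, rfl⟩, funext fun v => N1.extF fun x => ?_⟩
    rw [h1]
    rfl
  · rintro ⟨_, ⟨φ, rfl⟩, rfl⟩
    exact ⟨(Over.forget (Spec (.of ℂ))).mapIso φ, Over.w φ.hom, fun v x => rfl⟩

end Pool.Agent.H54.RV
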