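import Pool.Agent.H54.RV.B1

/-!
# [H54 RV GRP] the group of the Cartier divisors (written multiplicatively, complete)

`(D * E).eq x = D.eq x * E.eq x`; `prin f`: the principal divisor of `f ∈ K`, `f ≠ 0`.
-/

set_option autoImplicit false

namespace Pool.Agent.H54.RV

variable {k K : Type} [Field k] [Field K] [Algebra k K] {X : Mod k K}

theorem Cart.ext' (D E : Cart X) (h : ∀ x, D.eq x = E.eq x) : D = E := by
  cases D; cases E
  congr
  exact funext h

noncomputable instance : CommGroup (Cart X) where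
  mul D E :=
    { eq := fun x => D.eq x * E.eq x
      ne := fun x => mul_ne_zero (D.ne x) (E.ne x)
      loc := fun x => by
        obtain ⟨U, hU, hx, h⟩ := D.loc x
        obtain ⟨V, hV, hx', h'⟩ := E.loc x
        refine ⟨U ∩ V, hU.inter hV, ⟨hx, hx'⟩, fun y hy => ?_⟩
        rw [mul_div_mul_comm]
        exact un_mul (h y hy.1) (h' y hy.2) }
  one :=
    { eq := fun _ => 1
      ne := fun _ => one_ne_zero
      loc := fun x => ⟨Set.univ, isOpen_univ, Set.mem_univ x, fun y _ => by
        rw [div_one]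
        exact un_one _⟩ }
  inv D :=
    { eq := fun x => (D.eq x)⁻¹
      ne := fun x => inv_ne_zero (D.ne x)
      loc := fun x => by
        obtain ⟨U, hU, hx, h⟩ := D.loc x
        refine ⟨U, hU, hx, fun y hy => ?_⟩
        rw [← inv_div_inv, inv_inv, inv_inv, ← inv_div]
        exact un_inv (h y hy) }
  mul_assoc D E F := Cart.ext' _ _ fun x => mul_assoc _ _ _
  one_mul D := Cart.ext' _ _ fun x => one_mul _
  mul_one D := Cart.ext' _ _ fun x => mul_one _
  inv_mul_cancel D := Cart.ext' _ _ fun x => inv_mul_cancel₀ (D.ne x)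
  mul_comm D E := Cart.ext' _ _ fun x => mul_comm _ _

theorem mul_eq (D E : Cart X) (x : X.P) : (D * E).eq x = D.eq x * E.eq x := rfl

theorem one_eq (x : X.P) : (1 : Cart X).eq x = 1 := rfl

theorem inv_eq (D : Cart X) (x : X.P) : (D⁻¹).eq x = (D.eq x)⁻¹ := rfl

theorem pow_eq (D : Cart X) (n : ℕ) (x : X.P) : (D ^ n).eq x = D.eq x ^ n := by
  induction n with
  | zero => rw [pow_zero, pow_zero, one_eq]
  | succ n ih => rw [pow_succ, mul_eq, ih, pow_succ]

/-- principal divisors -/
noncomputable def prin (X : Mod k K) (f : K) (hf : f ≠ 0) : Cart X where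
  eq _ := f
  ne _ := hf
  loc x := ⟨Set.univ, isOpen_univ, Set.mem_univ x, fun y _ => by
    rw [div_self hf]
    exact un_one _⟩

end Pool.Agent.H54.RV
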