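import Pool.Agent.H54.RV.B6
import Pool.Agent.H54.RV.Grp
import Pool.Agent.H54.RV.Nb

/-!
# [H54 RV B7] the intersection number is additive

All sums over the places are finite (`quo_fin`), `inter_eq`.
* `inter_mul`: `(D * E).eq x / (D * E).eq ζ` is the product of the two quotients; both are units of `O ζ` (`quo_un`, `ctr_cen`), so `rs_mul`, `rs_ne`, `ord_mul`; `finsum_add_distrib`.
* `inter_one`, `inter_prin`: `rs ζ 1 = 1`, `ord_one`.  `inter_inv`: from `inter_mul`.  `inter_pow`: induction.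
* `cl_mul`, `cl_inv`, `cl_pow`, `cl_prin`: by the definition of `cl`.
* `inter_eqv`: if `D.eq y / E.eq y` is a unit of `O y` for all `y` then the intersection numbers agree.  With `u y = D.eq y / E.eq y`: `(D.eq x / D.eq ζ) / (E.eq x / E.eq ζ) = u x / u ζ`, `ord p (rs ζ (u x)) = 0` (`u x` is a unit of `O x`, `ctr_cen`, `ord_eq_zero`), so the difference of the two numbers is
  `- ∑ p, ord p (rs ζ (u ζ)) = 0` by `sum_ord` (`rs ζ (u ζ) ≠ 0`; finite by `fin_ord`).
-/

set_option autoImplicit false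

namespace Pool.Agent.H54.RV

variable {k K : Type} [Field k] [Field K] [Algebra k K] [IsAlgClosed k] [CharZero k] {X : Mod k K}

omit [IsAlgClosed k] [CharZero k] in
private theorem b7_un (hX : IsVar X) (D : Cart X) (C : Curve X) (p : Place k (X.kap C.ζ)) :
    Un (X.O C.ζ) (D.eq (ctr hX C.ζ p) / D.eq C.ζ) :=
  quo_un D C.ζ _ (ctr_cen hX C.ζ p).1

theorem inter_mul (hX : IsVar X) (D E : Cart X) (C : Curve X) :
    inter (D * E) C = inter D C + inter E C := by
  rw [inter_eq hX, inter_eq hX, inter_eq hX,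
    ← finsum_add_distrib (quo_fin hX D C) (quo_fin hX E C)]
  apply finsum_congr
  intro p
  have h1 := b7_un hX D C p
  have h2 := b7_un hX E C p
  rw [mul_eq, mul_eq, mul_div_mul_comm, rs_mul C.ζ h1.2.1 h2.2.1,
    ord_mul p _ _ ((rs_ne C.ζ h1.2.1).2 h1) ((rs_ne C.ζ h2.2.1).2 h2)]

theorem inter_one (hX : IsVar X) (C : Curve X) : inter (1 : Cart X) C = 0 := by
  rw [inter_eq hX, ← finsum_zero (α := Place k (X.kap C.ζ)) (M := ℤ)]
  apply finsum_congr
  intro p
  rw [one_eq, one_eq, div_one, rs_one, ord_one]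

theorem inter_prin (hX : IsVar X) (f : K) (hf : f ≠ 0) (C : Curve X) :
    inter (prin X f hf) C = 0 := by
  rw [inter_eq hX, ← finsum_zero (α := Place k (X.kap C.ζ)) (M := ℤ)]
  apply finsum_congr
  intro p
  have h1 : (prin X f hf).eq (ctr hX C.ζ p) / (prin X f hf).eq C.ζ = 1 := div_self hf
  rw [h1, rs_one, ord_one]

theorem inter_inv (hX : IsVar X) (D : Cart X) (C : Curve X) : inter D⁻¹ C = - inter D C := by
  have h1 := inter_mul hX D⁻¹ D C
  rw [inv_mul_cancel, inter_one hX] at h1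
  linarith

theorem inter_pow (hX : IsVar X) (D : Cart X) (n : ℕ) (C : Curve X) :
    inter (D ^ n) C = n * inter D C := by
  induction n with
  | zero => rw [pow_zero, inter_one hX, Nat.cast_zero, zero_mul]
  | succ n ih =>
    rw [pow_succ, inter_mul hX, ih]
    push_cast
    ring

theorem cl_mul (hX : IsVar X) (D E : Cart X) : cl (D * E) = cl D + cl E := by
  refine N1.ext' fun C => ?_
  rw [fn_add, cl_fn, cl_fn, cl_fn, inter_mul hX D E C]
  push_cast
  ring

theorem cl_one (hX : IsVar X) : cl (1 : Cart X) = 0 := by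
  refine N1.ext' fun C => ?_
  rw [fn_zero, cl_fn, inter_one hX]
  simp

theorem cl_inv (hX : IsVar X) (D : Cart X) : cl D⁻¹ = - cl D := by
  refine N1.ext' fun C => ?_
  rw [fn_neg, cl_fn, cl_fn, inter_inv hX]
  push_cast
  ring

theorem cl_pow (hX : IsVar X) (D : Cart X) (n : ℕ) : cl (D ^ n) = (n : ℝ) • cl D := by
  refine N1.ext' fun C => ?_
  rw [fn_smul, cl_fn, cl_fn, inter_pow hX]
  push_cast
  ring

theorem cl_prin (hX : IsVar X) (f : K) (hf : f ≠ 0) : cl (prin X f hf) = 0 := by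
  refine N1.ext' fun C => ?_
  rw [fn_zero, cl_fn, inter_prin hX]
  simp

theorem inter_eqv (hX : IsVar X) (D E : Cart X) (h : ∀ y, Un (X.O y) (D.eq y / E.eq y))
    (C : Curve X) : inter D C = inter E C := by
  have huζ := h C.ζ
  have hc : X.rs C.ζ (D.eq C.ζ / E.eq C.ζ) ≠ 0 := (rs_ne C.ζ huζ.2.1).2 huζ
  have hfin := fin_ord C.trdeg (kap_fg hX C.ζ) _ hc
  have hsum := sum_ord C.trdeg (kap_fg hX C.ζ) _ hc
  have hp : ∀ p : Place k (X.kap C.ζ),
      p.ord (X.rs C.ζ (D.eq (ctr hX C.ζ p) / D.eq C.ζ)) =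
      p.ord (X.rs C.ζ (E.eq (ctr hX C.ζ p) / E.eq C.ζ)) +
        -p.ord (X.rs C.ζ (D.eq C.ζ / E.eq C.ζ)) := by
    intro p
    obtain ⟨_, hle, hcen⟩ := ctr_cen hX C.ζ p
    set x := ctr hX C.ζ p with hx
    have hux := h x
    have hux' : Un (X.O C.ζ) (D.eq x / E.eq x) := un_mono hle hux
    have hE := b7_un hX E C p
    rw [← hx] at hE
    have e1 : D.eq x / D.eq C.ζ = (E.eq x / E.eq C.ζ) *
        ((D.eq x / E.eq x) / (D.eq C.ζ / E.eq C.ζ)) := by
      have h1 := D.ne C.ζ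
      have h2 := E.ne C.ζ
      have h3 := E.ne x
      field_simp
    have h0 : p.ord (X.rs C.ζ (D.eq x / E.eq x)) = 0 := by
      rw [ord_eq_zero p _ ((rs_ne C.ζ hux'.2.1).2 hux'), ← rs_inv C.ζ hux']
      exact ⟨(hcen _ hux.2.1).1, (hcen _ hux.2.2).1⟩
    have hrx : X.rs C.ζ (D.eq x / E.eq x) ≠ 0 := (rs_ne C.ζ hux'.2.1).2 hux'
    rw [e1, rs_mul C.ζ hE.2.1 (un_div hux' huζ).2.1, rs_div C.ζ hux'.2.1 huζ,
      ord_mul p _ _ ((rs_ne C.ζ hE.2.1).2 hE) (div_ne_zero hrx hc),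
      div_eq_mul_inv (X.rs C.ζ (D.eq x / E.eq x)),
      ord_mul p _ _ hrx (inv_ne_zero hc), ord_inv, h0, zero_add]
  rw [inter_eq hX, inter_eq hX, finsum_congr hp, finsum_add_distrib (quo_fin hX E C),
    finsum_neg_distrib, hsum, neg_zero, add_zero]
  refine hfin.subset ?_
  intro p hp
  rw [Function.mem_support] at hp
  exact fun h0 => hp (by rw [h0, neg_zero])

end Pool.Agent.H54.RV
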