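import Pool.Agent.H54.RV.C9

/-!
# [H54 RV C10] the convex hull of the rational nef classes

`NP X`: the convex hull `Nef^+` of the rational nef classes; it is a convex cone.  `q1_incl`: Q1 implies
`Nef^e ⊆ Nef^+`.  `ne_incl`, `ne_of_eq`: `Nef^+ ⊆ Nef^e` if and only if the integral nef classes are effective.
`fd_of_basis`: the real vector space `N1 X` has finite dimension if the lattice has a finite basis.
-/

set_option autoImplicit false

namespace Pool.Agent.H54.RV

variable {k K : Type} [Field k] [Field K] [Algebra k K] [IsAlgClosed k] [CharZero k] {X : Mod k K}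

/-- a finite basis of the lattice implies that `N1 X` is finite dimensional -/
theorem fd_of_basis (hX : IsVar X) {n : ℕ} (b : Module.Basis (Fin n) ℤ (Lat X)) :
    FiniteDimensional ℝ (N1 X) := by
  let L : (Fin n → ℝ) →ₗ[ℝ] N1 X :=
    { toFun := pt b
      map_add' := pt_add b
      map_smul' := pt_smul b }
  have hs : Function.Surjective L := by
    intro v
    refine N1.ind (p := fun v => ∃ x, L x = v) ?_ ?_ ?_ ?_ v
    · exact ⟨0, map_zero L⟩
    · intro D
      obtain ⟨s, hs⟩ := int_pt hX b D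
      exact ⟨fun i => (s i : ℝ), hs.symm⟩
    · rintro v w ⟨x, rfl⟩ ⟨y, rfl⟩
      exact ⟨x + y, map_add L x y⟩
    · rintro c v ⟨x, rfl⟩
      exact ⟨c • x, map_smul L c x⟩
  exact Module.Finite.of_surjective L hs

theorem nefC_zero (hA : ∃ D : Cart X, Ample D) : (0 : N1 X) ∈ NefC X := by
  obtain ⟨D, hD⟩ := hA
  have h1 : Filter.Tendsto (fun m : ℕ => ((1 : ℝ) / ((m : ℝ) + 1)) • cl D) Filter.atTop
      (nhds 0) := by
    have h2 := (tendsto_one_div_add_atTop_nhds_zero_nat (𝕜 := ℝ)).smul_const (cl D)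
    simpa using h2
  refine mem_closure_of_tendsto h1 (Filter.Eventually.of_forall (fun m => ?_))
  exact ampC_smul _ (by positivity) _ (ampC_cl D hD)

theorem nefC_add (v w : N1 X) (hv : v ∈ NefC X) (hw : w ∈ NefC X) : v + w ∈ NefC X :=
  map_mem_closure₂ continuous_add hv hw (fun a ha b hb => ampC_add a b ha hb)

theorem nefC_smul (hA : ∃ D : Cart X, Ample D) (c : ℝ) (hc : 0 ≤ c) (v : N1 X)
    (hv : v ∈ NefC X) : c • v ∈ NefC X := by
  rcases hc.eq_or_lt with hc0 | hc0
  · rw [← hc0, zero_smul]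
    exact nefC_zero hA
  · exact map_mem_closure (continuous_const_smul c) hv (fun a ha => ampC_smul c hc0 a ha)

theorem ratC_zero (hX : IsVar X) : (0 : N1 X) ∈ RatC X :=
  ⟨1, 1, le_rfl, by rw [smul_zero, cl_one hX]⟩

theorem ratC_nat (hX : IsVar X) (m : ℕ) (v : N1 X) (hv : v ∈ RatC X) : (m : ℝ) • v ∈ RatC X := by
  obtain ⟨r, D, hr, hD⟩ := hv
  exact ⟨r, D ^ m, hr, by rw [smul_comm, hD, cl_pow hX]⟩

omit [IsAlgClosed k] [CharZero k] in
theorem ratC_cl (D : Cart X) : cl D ∈ RatC X := ⟨1, D, le_rfl, by simp⟩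

variable (X) in
/-- the convex hull of the rational nef classes -/
abbrev NP : Set (N1 X) := convexHull ℝ (NefC X ∩ RatC X)

theorem np_nat (hX : IsVar X) (hA : ∃ D : Cart X, Ample D) (m : ℕ) (v : N1 X) (hv : v ∈ NP X) :
    (m : ℝ) • v ∈ NP X := by
  let L : N1 X →ₗ[ℝ] N1 X := (m : ℝ) • LinearMap.id
  have h1 : L v ∈ L '' NP X := ⟨v, hv, rfl⟩
  rw [L.image_convexHull] at h1
  refine convexHull_mono ?_ h1
  rintro _ ⟨w, ⟨hw1, hw2⟩, rfl⟩
  exact ⟨nefC_smul hA _ (Nat.cast_nonneg m) w hw1, ratC_nat hX m w hw2⟩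

theorem np_zero (hX : IsVar X) (hA : ∃ D : Cart X, Ample D) : (0 : N1 X) ∈ NP X :=
  subset_convexHull ℝ _ ⟨nefC_zero hA, ratC_zero hX⟩

theorem np_smul (hX : IsVar X) (hA : ∃ D : Cart X, Ample D) (c : ℝ) (hc : 0 ≤ c) (v : N1 X)
    (hv : v ∈ NP X) : c • v ∈ NP X := by
  obtain ⟨m, hm⟩ := exists_nat_gt c
  have hm0 : (0 : ℝ) < m := lt_of_le_of_lt hc hm
  have h1 := (convex_convexHull ℝ (NefC X ∩ RatC X)) (np_nat hX hA m v hv) (np_zero hX hA)
    (a := c / m) (b := 1 - c / m) (by positivity)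
    (by rw [sub_nonneg, div_le_one hm0]; exact hm.le) (by ring)
  rw [smul_zero, add_zero, smul_smul, div_mul_cancel₀ _ hm0.ne'] at h1
  exact h1

theorem np_add (hX : IsVar X) (hA : ∃ D : Cart X, Ample D) (v w : N1 X) (hv : v ∈ NP X)
    (hw : w ∈ NP X) : v + w ∈ NP X := by
  have h1 := (convex_convexHull ℝ (NefC X ∩ RatC X)) (np_smul hX hA 2 (by norm_num) v hv)
    (np_smul hX hA 2 (by norm_num) w hw) (a := 1 / 2) (b := 1 / 2) (by norm_num) (by norm_num)
    (by norm_num)
  rw [smul_smul, smul_smul] at h1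
  norm_num at h1
  exact h1

theorem np_sum (hX : IsVar X) (hA : ∃ D : Cart X, Ample D) {m : ℕ} (c : Fin m → ℝ)
    (v : Fin m → N1 X) (hc : ∀ i, 0 ≤ c i) (hv : ∀ i, 0 < c i → v i ∈ NP X) :
    ∑ i, c i • v i ∈ NP X := by
  have h : ∀ T : Finset (Fin m), ∑ i ∈ T, c i • v i ∈ NP X := by
    classical
    intro T
    induction T using Finset.induction_on with
    | empty => rw [Finset.sum_empty]; exact np_zero hX hA
    | insert a s ha ih =>
      rw [Finset.sum_insert ha]
      refine np_add hX hA _ _ ?_ ih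
      rcases (hc a).eq_or_lt with h0 | h0
      · rw [← h0, zero_smul]
        exact np_zero hX hA
      · exact np_smul hX hA _ (hc a) _ (hv a h0)
  exact h _

/-- Q1 implies that the effective nef classes are in the hull of the rational nef classes -/
theorem q1_incl (hX : IsVar X) (hA : ∃ D : Cart X, Ample D) (Γ : Subgroup (MAut X))
    (h : Q1M X Γ) : NefC X ∩ EffC X ⊆ NP X := by
  obtain ⟨Q, ⟨m, D, hQ⟩, hcov, -⟩ := h
  have hcov' : ∀ v : N1 X, v ∈ NefC X ∩ EffC X ↔ ∃ g ∈ Γ, ∃ w ∈ Q, g.act w = v := by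
    intro v
    rw [hcov]
    simp only [Set.mem_iUnion, Set.mem_image, exists_prop]
  -- the generators of `Q` are nef
  have hgen : ∀ i, cl (D i) ∈ NefC X := by
    intro i
    have h1 : cl (D i) ∈ Q := by
      rw [hQ]
      refine ⟨fun j => if j = i then 1 else 0, fun j => ?_, by simp⟩
      dsimp only
      split_ifs <;> norm_num
    exact ((hcov' _).2 ⟨1, Γ.one_mem, _, h1, MAut.act_one _⟩).1
  intro v hv
  obtain ⟨g, hg, w, hw, rfl⟩ := (hcov' v).1 hv
  rw [hQ] at hw
  obtain ⟨c, hc, rfl⟩ := hw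
  rw [map_sum]
  have h2 : ∑ i, g.act (c i • cl (D i)) = ∑ i, c i • cl (g.pull (D i)) :=
    Finset.sum_congr rfl fun i _ => by rw [map_smul, MAut.act_cl]
  rw [h2]
  refine np_sum hX hA c _ hc fun i _ => subset_convexHull ℝ _ ⟨?_, ratC_cl _⟩
  rw [← MAut.act_cl]
  exact act_nef g _ (hgen i)

theorem nefC_conv (hA : ∃ D : Cart X, Ample D) : Convex ℝ (NefC X) := by
  intro v hv w hw a b ha hb _
  exact nefC_add _ _ (nefC_smul hA a ha v hv) (nefC_smul hA b hb w hw)

theorem effC_conv : Convex ℝ (EffC X) := by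
  intro v hv w hw a b ha hb _
  exact effC_add _ _ (effC_smul a ha v hv) (effC_smul b hb w hw)

/-- if the integral nef classes are effective, then the hull of the rational nef classes consists of effective nef
classes -/
theorem ne_incl (hA : ∃ D : Cart X, Ample D) (h : NE X) : NP X ⊆ NefC X ∩ EffC X := by
  refine convexHull_min ?_ ((nefC_conv hA).inter effC_conv)
  rintro v ⟨hv, m, D, hm, hD⟩
  refine ⟨hv, ?_⟩
  have hm0 : (0 : ℝ) < m := by exact_mod_cast hm
  have h1 : cl D ∈ EffC X := h D (by rw [← hD]; exact nefC_smul hA _ hm0.le v hv)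
  have h2 := effC_smul ((m : ℝ)⁻¹) (by positivity) _ h1
  rw [← hD, smul_smul, inv_mul_cancel₀ hm0.ne', one_smul] at h2
  exact h2

omit [IsAlgClosed k] [CharZero k] in
theorem ne_of_eq (h : NP X ⊆ NefC X ∩ EffC X) : NE X := fun D hD =>
  (h (subset_convexHull ℝ _ ⟨hD, ⟨1, D, le_rfl, by simp⟩⟩)).2

end Pool.Agent.H54.RV
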