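import Pool.Agent.H54.RV.S8
import Pool.Agent.H54.RV.Front
import Pool.Agent.H54.RV.C10
import Pool.Agent.H20.FV.Final

/-!
# Real varieties: the criterion (assembly)

`NefC X ∩ RatC X` are the rational nef classes, its convex hull is `Nef^+`.
-/

set_option autoImplicit false

namespace Pool.Agent.H54.RV

open AlgebraicGeometry Pool.Agent.H57.KM Pool.Agent.H20.FV

/-- the criterion for the space `X` of local rings and the group `Γ` of automorphisms -/
theorem mainM {k K : Type} [Field k] [Field K] [Algebra k K] [IsAlgClosed k] [CharZero k]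
    {X : Mod k K} (hX : IsVar X) (hA : ∃ D : Cart X, Ample D) (Γ : Subgroup (MAut X)) {n : ℕ}
    (b : Module.Basis (Fin n) ℤ (Lat X)) :
    (Q1M X Γ ↔ NefC X ∩ EffC X ⊆ convexHull ℝ (NefC X ∩ RatC X) ∧ NE X ∧
      FiniteVolume (ampR b) (grpR Γ b)) ∧
    (DomC X Γ ↔ FiniteVolume (ampR b) (grpR Γ b)) ∧
    (DomC X Γ ↔ Cocompact (ampR b) (grpR Γ b)) ∧
    (DomC X Γ ↔ FinIndC X Γ) ∧
    (DomC X Γ ↔ FinOrb ((grpR Γ b).map ct) (Ind (dual (ampR b)))) ∧
    (FiniteHilbert (ampR b) (grpR Γ b) → DomC X Γ) := by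
  have := fd_of_basis hX b
  have h := isAmp_ampR hX hA b
  have hG : Pres (grpR Γ b) (ampR b) := by
    rintro A ⟨g, hg, hA'⟩ x hx
    change pt b (act A x) ∈ AmpC X
    rw [← hA']
    exact act_amp g _ hx
  have hD : DomC X Γ ↔ Cov (ampR b) (grpR Γ b) := by
    rw [← dom_iff hX Γ b, dom h hG]
  refine ⟨?_, ?_, ?_, ?_, ?_, fun hH => hD.2 (cov_of_hilb h hG hH)⟩
  · have key : ∀ hN : NefC X ∩ EffC X ⊆ convexHull ℝ (NefC X ∩ RatC X),
        (Q1M X Γ ↔ NE X ∧ FiniteVolume (ampR b) (grpR Γ b)) := by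
      intro hN
      obtain ⟨h1, -⟩ := main (nefD hX hA hN Γ b)
      have e1 : (nefD hX hA hN Γ b).amp = ampR b := rfl
      have e2 : (nefD hX hA hN Γ b).G = grpR Γ b := rfl
      have e3 : (nefD hX hA hN Γ b).eff = effR b := rfl
      rw [e1, e2, e3, q1_iff, int_iff hX b] at h1
      exact h1
    constructor
    · intro hQ
      have hN := q1_incl hX hA Γ hQ
      exact ⟨hN, (key hN).1 hQ⟩
    · rintro ⟨hN, h2⟩
      exact (key hN).2 h2
  · rw [hD, cov_iff_vol h hG]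
  · rw [hD, cov_iff_coco h hG]
  · rw [hD, cov_iff_ind h hG, fin_iff hX Γ b]
  · rw [hD, cov_iff_dual h hG]

/-- the criterion for a variety `Y` -/
theorem mainY {Y : Scheme.{0}} [IsIntegral Y] (f : Y ⟶ Spec (.of ℂ)) [IsProper f]
    (hA : ∃ D : Cart (mdl f), Ample D) {n : ℕ} (b : LatB (mdl f) n) :
    (Q1Y f ↔ NefE (mdl f) ⊆ NefP (mdl f) ∧ NE (mdl f) ∧ FiniteVolume (ampR b) (autR f b)) ∧
    (DomY f ↔ FiniteVolume (ampR b) (autR f b)) ∧
    (DomY f ↔ Cocompact (ampR b) (autR f b)) ∧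
    (DomY f ↔ FinIndS (AutS f)) ∧
    (DomY f ↔ FinOrb ((autR f b).map ct) (Ind (dual (ampR b)))) ∧
    (FiniteHilbert (ampR b) (autR f b) → DomY f) := by
  unfold Q1Y DomY autR NefE NefP
  rw [autS_eq, fund_iff, fund_iff, finInd_iff, grp_eq]
  exact mainM (isVar_mdl f) hA (autG f) b

end Pool.Agent.H54.RV
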