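import Pool.Agent.H54.RV.A1

/-!
# [H54 RV A2] places and the maximal ideals of a Dedekind domain

`B` a Dedekind domain with fraction field `κ`, an algebra over `k`; `P` a nonzero prime (`HeightOneSpectrum B`).
* `plP P`: the place with valuation ring `(P.valuation κ).valuationSubring`.  It contains `k` (`valuation_le_one` for `algebraMap B κ (algebraMap k B c)`).
  It is a discrete valuation ring: `valuationSubringAtPrime_eq_valuationSubring` (`RingTheory/DedekindDomain/AdicValuation.lean`) and
  `IsLocalization.AtPrime.isDiscreteValuationRing_of_dedekind_domain`, or `Valuation.IsRankOneDiscrete` facts.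
* `plP_ord`: `ord_unique` (`A1`) with `w a = log (P.valuation κ a)⁻¹` (`valuation_exists_uniformizer`).
* `plP_pos`: `valuation_lt_one_iff_mem` or similar. `plP_inj`: `P.asIdeal = {b | 0 < ord b or b = 0}`.
* `plP_surj`: let `q` be a place with `B ⊆ q.R`.  `I = {b ∈ B : b = 0 or 0 < ord_q b}` = the contraction of the maximal ideal of `q.R`, a prime ideal of `B`; it is not `0`: otherwise all
  nonzero elements of `B`, hence of `κ = Frac B`, are units of `q.R`, so `ord_q = 0`, against `ord_unif`.  For `P = I`: every `a` with `P.valuation κ a ≤ 1` is `b / s` with `s ∉ P` (`valuationSubringAtPrime`,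
  or `IsLocalization` facts), so in `q.R`.  `place_le`.
-/

set_option autoImplicit false

namespace Pool.Agent.H54.RV

open IsDedekindDomain

variable {k κ B : Type} [Field k] [Field κ] [Algebra k κ] [CommRing B] [IsDedekindDomain B]
  [Algebra k B] [Algebra B κ] [IsFractionRing B κ] [IsScalarTower k B κ]

/-- the place of a nonzero prime of a Dedekind domain -/
noncomputable def plP (k : Type) {κ B : Type} [Field k] [Field κ] [Algebra k κ] [CommRing B]
    [IsDedekindDomain B] [Algebra k B] [Algebra B κ] [IsFractionRing B κ] [IsScalarTower k B κ]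
    (P : HeightOneSpectrum B) : Place k κ where
  R := (P.valuation κ).valuationSubring
  mem c := by
    rw [Valuation.mem_valuationSubring_iff, IsScalarTower.algebraMap_apply k B κ c]
    exact P.valuation_le_one _
  dvr := by
    rw [← HeightOneSpectrum.valuationSubringAtPrime_eq_valuationSubring]
    exact IsLocalization.AtPrime.isDiscreteValuationRing_of_dedekind_domain B P.ne_bot
      (HeightOneSpectrum.valuationSubringAtPrime κ P)

theorem plP_R (P : HeightOneSpectrum B) :
    (plP k (κ := κ) P).R = (P.valuation κ).valuationSubring := rfl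

theorem plP_ord (P : HeightOneSpectrum B) (a : κ) (ha : a ≠ 0) :
    (plP k P).ord a = WithZero.log (P.valuation κ a)⁻¹ := by
  refine (ord_unique (plP k P) (fun a => WithZero.log (P.valuation κ a)⁻¹) ?_ ?_ ?_ a ha).symm
  · intro a b ha hb
    have ha' : P.valuation κ a ≠ 0 := (Valuation.ne_zero_iff _).mpr ha
    have hb' : P.valuation κ b ≠ 0 := (Valuation.ne_zero_iff _).mpr hb
    simp only [map_mul, WithZero.log_inv, WithZero.log_mul ha' hb', neg_add]
  · obtain ⟨π, hπ⟩ := P.valuation_exists_uniformizer κ
    refine ⟨π, ?_, ?_⟩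
    · intro h
      rw [h, map_zero] at hπ
      exact WithZero.exp_ne_zero hπ.symm
    · simp only [hπ, WithZero.log_inv, WithZero.log_exp, neg_neg]
  · intro a ha
    have ha' : P.valuation κ a ≠ 0 := (Valuation.ne_zero_iff _).mpr ha
    rw [plP_R, Valuation.mem_valuationSubring_iff]
    simp only [WithZero.log_inv]
    rw [neg_nonneg, ← WithZero.log_one (M := ℤ), WithZero.log_le_log ha' one_ne_zero]

theorem plP_pos (P : HeightOneSpectrum B) (b : B) (hb : b ≠ 0) :
    0 < (plP k P).ord (algebraMap B κ b) ↔ b ∈ P.asIdeal := by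
  have hb0 : algebraMap B κ b ≠ 0 := by
    rw [ne_eq, FaithfulSMul.algebraMap_eq_zero_iff]
    exact hb
  have ha' : P.valuation κ (algebraMap B κ b) ≠ 0 := (Valuation.ne_zero_iff _).mpr hb0
  rw [plP_ord P _ hb0, WithZero.log_inv, neg_pos, ← WithZero.log_one (M := ℤ),
    WithZero.log_lt_log ha' one_ne_zero, HeightOneSpectrum.valuation_lt_one_iff_mem]

theorem plP_inj : Function.Injective (plP k (κ := κ) (B := B)) := by
  intro P Q h
  apply HeightOneSpectrum.ext
  ext b
  by_cases hb : b = 0
  · subst hb
    simp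
  · rw [← plP_pos (k := k) (κ := κ) P b hb, h, plP_pos Q b hb]

theorem plP_surj (q : Place k κ) (hq : ∀ b : B, algebraMap B κ b ∈ q.R) :
    ∃ P : HeightOneSpectrum B, plP k P = q := by
  classical
  let φ : B →+* q.R := (algebraMap B κ).codRestrict q.R.toSubring hq
  have hφ : ∀ b, ((φ b : q.R) : κ) = algebraMap B κ b := fun b => rfl
  let I : Ideal B := (IsLocalRing.maximalIdeal q.R).comap φ
  have hIp : I.IsPrime := Ideal.comap_isPrime φ _
  -- elements outside `I` are invertible in `q.R`
  have hinv : ∀ b : B, b ∉ I → (algebraMap B κ b)⁻¹ ∈ q.R := by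
    intro b hb
    have hu : IsUnit (φ b) := by
      by_contra hnu
      exact hb (by
        show φ b ∈ IsLocalRing.maximalIdeal q.R
        rw [IsLocalRing.mem_maximalIdeal]
        exact hnu)
    obtain ⟨c, hc⟩ := hu.exists_right_inv
    have hc' : algebraMap B κ b * (c : κ) = 1 := by
      have := congrArg (fun z : q.R => (z : κ)) hc
      simpa [hφ] using this
    rw [inv_eq_of_mul_eq_one_right hc']
    exact c.2
  have hI0 : I ≠ ⊥ := by
    intro h0
    obtain ⟨t, ht, h1⟩ := ord_unif q
    have ht' : t⁻¹ ∈ q.R := by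
      obtain ⟨x, y, hy, hxy⟩ := IsFractionRing.div_surjective (A := B) t⁻¹
      have hy0 : y ∉ I := by
        rw [h0, Ideal.mem_bot]
        exact nonZeroDivisors.ne_zero hy
      rw [← hxy, div_eq_mul_inv]
      exact q.R.mul_mem _ _ (hq x) (hinv y hy0)
    have h2 := (ord_nonneg q t⁻¹ (inv_ne_zero ht)).mpr ht'
    rw [ord_inv, h1] at h2
    omega
  refine ⟨⟨I, hIp, hI0⟩, place_le _ _ ?_⟩
  intro a ha
  rw [plP_R, Valuation.mem_valuationSubring_iff] at ha
  obtain ⟨n, d, hnd⟩ := HeightOneSpectrum.exists_primeCompl_mul_eq_of_integer _ a ha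
  have hd : (d : B) ∉ I := d.2
  have hd0 : algebraMap B κ d ≠ 0 := by
    rw [ne_eq, FaithfulSMul.algebraMap_eq_zero_iff]
    intro h
    apply hd
    rw [h]
    exact I.zero_mem
  have ha' : a = algebraMap B κ n * (algebraMap B κ d)⁻¹ := by
    rw [← hnd, mul_assoc, mul_inv_cancel₀ hd0, mul_one]
  rw [ha']
  exact q.R.mul_mem _ _ (hq n) (hinv d hd)

end Pool.Agent.H54.RV
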