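import Pool.Agent.H54.RV.B1

/-!
# [H54 RV B4] the residue field of a point is finitely generated

`U` affine with `ζ ∈ U` (`IsVar.chart`), `sec U` generated as an algebra by the finite set `s` (`IsVar.fg`).  The residue field `κ(ζ)` is generated as a field by the classes `rs ζ g`, `g ∈ s`: let `c ∈ κ(ζ)`, `c = rs ζ b` with `b ∈ O ζ` (`rs_surj`); `b t ∈ sec U`, `t ∈ sec U`
a unit at `ζ` (`IsVar.frac`), so `c = rs ζ (b t) / rs ζ t` (`rs_mul`, `rs_ne`), and for `a ∈ sec U` the class `rs ζ a` is in the algebra generated by the `rs ζ g`: `Algebra.adjoin_induction` (`rs_add`, `rs_mul`, `rs_alg`; `sec U ≤ O ζ`).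
-/

set_option autoImplicit false

namespace Pool.Agent.H54.RV

variable {k K : Type} [Field k] [Field K] [Algebra k K] {X : Mod k K}

theorem kap_fg (hX : IsVar X) (ζ : X.P) : (⊤ : IntermediateField k (X.kap ζ)).FG := by
  classical
  obtain ⟨U, hU, hζ⟩ := hX.chart ζ
  obtain ⟨s, hs⟩ := hX.fg U hU ⟨ζ, hζ⟩
  have hle : ∀ a ∈ X.sec U, a ∈ X.O ζ := fun a ha => (mem_sec U a).mp ha ζ hζ
  refine ⟨s.image (X.rs ζ), ?_⟩
  obtain ⟨F, hF⟩ : ∃ F : IntermediateField k (X.kap ζ),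
      F = IntermediateField.adjoin k ((s.image (X.rs ζ) : Finset (X.kap ζ)) : Set (X.kap ζ)) :=
    ⟨_, rfl⟩
  rw [← hF]
  have hmem : ∀ a ∈ X.sec U, X.rs ζ a ∈ F := by
    intro a ha
    have ha' : a ∈ Algebra.adjoin k (s : Set K) := by rw [hs]; exact ha
    have hP : a ∈ X.O ζ ∧ X.rs ζ a ∈ F := by
      refine Algebra.adjoin_induction (p := fun x _ => x ∈ X.O ζ ∧ X.rs ζ x ∈ F)
        ?_ ?_ ?_ ?_ ha'
      · intro x hx
        refine ⟨hle x ?_, ?_⟩
        · rw [← hs]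
          exact Algebra.subset_adjoin hx
        · rw [hF]
          apply IntermediateField.subset_adjoin
          rw [Finset.mem_coe, Finset.mem_image]
          exact ⟨x, hx, rfl⟩
      · intro c
        refine ⟨(X.O ζ).algebraMap_mem c, ?_⟩
        rw [rs_alg]
        exact F.algebraMap_mem c
      · rintro x y _ _ ⟨hx, hx'⟩ ⟨hy, hy'⟩
        refine ⟨(X.O ζ).add_mem hx hy, ?_⟩
        rw [rs_add ζ hx hy]
        exact F.add_mem hx' hy'
      · rintro x y _ _ ⟨hx, hx'⟩ ⟨hy, hy'⟩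
        refine ⟨(X.O ζ).mul_mem hx hy, ?_⟩
        rw [rs_mul ζ hx hy]
        exact F.mul_mem hx' hy'
    exact hP.2
  rw [eq_top_iff]
  intro c _
  obtain ⟨b, hb, rfl⟩ := rs_surj ζ c
  obtain ⟨t, ht, htu, hbt⟩ := hX.frac U ζ hU hζ b hb
  have h1 := hmem _ hbt
  have h2 := hmem _ ht
  have h3 : X.rs ζ t ≠ 0 := (rs_ne ζ (hle t ht)).mpr htu
  rw [rs_mul ζ hb (hle t ht)] at h1
  have h4 : X.rs ζ b = X.rs ζ b * X.rs ζ t / X.rs ζ t := by
    rw [mul_div_cancel_right₀ _ h3]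
  rw [h4]
  exact F.div_mem h1 h2

end Pool.Agent.H54.RV
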