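import Pool.Agent.H54.RV.Defs

/-!
# [H54 RV B1] units and residue classes

`Un A a` says that `a` is a unit of the subalgebra `A` of the field `K`; `X.rs ζ a` is the residue class at `ζ` of `a ∈ X.O ζ`.
* `un_iff`: for `a ∈ A`: `IsUnit (⟨a, h⟩ : A) ↔ Un A a` (the inverse in `A` is the inverse in `K`).
* `un_mul`, `un_inv`, `un_div`, `un_pow`, `un_one`, `un_mono`; `un_mul_iff`: for `a, b ∈ A`: `a⁻¹ = b (a b)⁻¹`.
* `rs_mul`, `rs_add`, `rs_neg`, `rs_one`, `rs_pow`, `rs_alg`: the residue map is a homomorphism of `k`-algebras (`dif_pos`).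
* `rs_ne`: `IsLocalRing.residue_ne_zero_iff_isUnit`.  `rs_inv`, `rs_div` for units.
* `rs_surj`: `IsLocalRing.residue_surjective`.
-/

set_option autoImplicit false

namespace Pool.Agent.H54.RV

variable {k K : Type} [Field k] [Field K] [Algebra k K]

theorem un_iff {A : Subalgebra k K} {a : K} (h : a ∈ A) : IsUnit (⟨a, h⟩ : A) ↔ Un A a := by
  constructor
  · intro hu
    obtain ⟨b, hb⟩ := hu.exists_right_inv
    have h1 : a * (b : K) = 1 := congrArg Subtype.val hb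
    have ha : a ≠ 0 := by
      rintro rfl
      rw [zero_mul] at h1
      exact zero_ne_one h1
    have h2 : a⁻¹ = (b : K) := inv_eq_of_mul_eq_one_right h1
    exact ⟨ha, h, h2 ▸ b.2⟩
  · rintro ⟨h1, _, h3⟩
    refine IsUnit.of_mul_eq_one ⟨a⁻¹, h3⟩ ?_
    exact Subtype.ext (mul_inv_cancel₀ h1)

theorem un_one (A : Subalgebra k K) : Un A 1 :=
  ⟨one_ne_zero, A.one_mem, by rw [inv_one]; exact A.one_mem⟩

theorem un_mul {A : Subalgebra k K} {a b : K} (ha : Un A a) (hb : Un A b) : Un A (a * b) :=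
  ⟨mul_ne_zero ha.1 hb.1, A.mul_mem ha.2.1 hb.2.1, by
    rw [mul_inv]
    exact A.mul_mem ha.2.2 hb.2.2⟩

theorem un_inv {A : Subalgebra k K} {a : K} (ha : Un A a) : Un A a⁻¹ :=
  ⟨inv_ne_zero ha.1, ha.2.2, by rw [inv_inv]; exact ha.2.1⟩

theorem un_div {A : Subalgebra k K} {a b : K} (ha : Un A a) (hb : Un A b) : Un A (a / b) := by
  rw [div_eq_mul_inv]
  exact un_mul ha (un_inv hb)

theorem un_pow {A : Subalgebra k K} {a : K} (ha : Un A a) (n : ℕ) : Un A (a ^ n) := by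
  induction n with
  | zero =>
    rw [pow_zero]
    exact un_one A
  | succ n ih =>
    rw [pow_succ]
    exact un_mul ih ha

theorem un_mono {A B : Subalgebra k K} (h : A ≤ B) {a : K} (ha : Un A a) : Un B a :=
  ⟨ha.1, h ha.2.1, h ha.2.2⟩

theorem un_mul_iff {A : Subalgebra k K} {a b : K} (ha : a ∈ A) (hb : b ∈ A) :
    Un A (a * b) ↔ Un A a ∧ Un A b := by
  constructor
  · rintro ⟨h1, _, h3⟩
    have ha0 : a ≠ 0 := left_ne_zero_of_mul h1
    have hb0 : b ≠ 0 := right_ne_zero_of_mul h1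
    refine ⟨⟨ha0, ha, ?_⟩, ⟨hb0, hb, ?_⟩⟩
    · have h4 : a⁻¹ = b * (a * b)⁻¹ := by
        field_simp
      rw [h4]
      exact A.mul_mem hb h3
    · have h4 : b⁻¹ = a * (a * b)⁻¹ := by
        field_simp
      rw [h4]
      exact A.mul_mem ha h3
  · rintro ⟨h1, h2⟩
    exact un_mul h1 h2

theorem un_pow_iff {A : Subalgebra k K} {a : K} (ha : a ∈ A) {n : ℕ} (hn : 1 ≤ n) :
    Un A (a ^ n) ↔ Un A a := by
  constructor
  · intro h
    obtain ⟨m, rfl⟩ : ∃ m, n = m + 1 := ⟨n - 1, by omega⟩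
    rw [pow_succ] at h
    exact ((un_mul_iff (A.pow_mem ha m) ha).1 h).2
  · intro h
    exact un_pow h n

/-- multiplication by a unit -/
theorem mem_mul_un {A : Subalgebra k K} {a u : K} (hu : Un A u) : a * u ∈ A ↔ a ∈ A := by
  constructor
  · intro h
    have h1 : a = a * u * u⁻¹ := by
      rw [mul_assoc, mul_inv_cancel₀ hu.1, mul_one]
    rw [h1]
    exact A.mul_mem h hu.2.2
  · intro h
    exact A.mul_mem h hu.2.1

theorem un_mul_un {A : Subalgebra k K} {a u : K} (hu : Un A u) : Un A (a * u) ↔ Un A a := by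
  constructor
  · intro h
    have h1 : a = a * u * u⁻¹ := by
      rw [mul_assoc, mul_inv_cancel₀ hu.1, mul_one]
    rw [h1]
    exact un_mul h (un_inv hu)
  · intro h
    exact un_mul h hu

/-- in a local ring the non-units are closed under addition -/
theorem un_add {A : Subalgebra k K} [IsLocalRing A] {a b : K} (ha : a ∈ A) (hb : b ∈ A)
    (h : Un A (a + b)) : Un A a ∨ Un A b := by
  have h1 : IsUnit ((⟨a, ha⟩ : A) + ⟨b, hb⟩) := (un_iff (A.add_mem ha hb)).2 h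
  rcases IsLocalRing.isUnit_or_isUnit_of_isUnit_add h1 with h2 | h2
  · exact Or.inl ((un_iff ha).1 h2)
  · exact Or.inr ((un_iff hb).1 h2)

variable {X : Mod k K}

private theorem rs_pos (ζ : X.P) {a : K} (ha : a ∈ X.O ζ) :
    X.rs ζ a = IsLocalRing.residue (X.O ζ) ⟨a, ha⟩ := by
  unfold Mod.rs
  rw [dif_pos ha]

theorem rs_one (ζ : X.P) : X.rs ζ 1 = 1 := by
  rw [rs_pos ζ (X.O ζ).one_mem]
  exact map_one (IsLocalRing.residue (X.O ζ))

theorem rs_mul (ζ : X.P) {a b : K} (ha : a ∈ X.O ζ) (hb : b ∈ X.O ζ) :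
    X.rs ζ (a * b) = X.rs ζ a * X.rs ζ b := by
  rw [rs_pos ζ ha, rs_pos ζ hb, rs_pos ζ ((X.O ζ).mul_mem ha hb)]
  exact map_mul (IsLocalRing.residue (X.O ζ)) ⟨a, ha⟩ ⟨b, hb⟩

theorem rs_add (ζ : X.P) {a b : K} (ha : a ∈ X.O ζ) (hb : b ∈ X.O ζ) :
    X.rs ζ (a + b) = X.rs ζ a + X.rs ζ b := by
  rw [rs_pos ζ ha, rs_pos ζ hb, rs_pos ζ ((X.O ζ).add_mem ha hb)]
  exact map_add (IsLocalRing.residue (X.O ζ)) ⟨a, ha⟩ ⟨b, hb⟩

theorem rs_pow (ζ : X.P) {a : K} (ha : a ∈ X.O ζ) (n : ℕ) :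
    X.rs ζ (a ^ n) = X.rs ζ a ^ n := by
  induction n with
  | zero => rw [pow_zero, pow_zero, rs_one]
  | succ n ih => rw [pow_succ, rs_mul ζ ((X.O ζ).pow_mem ha n) ha, ih, pow_succ]

theorem rs_alg (ζ : X.P) (c : k) : X.rs ζ (algebraMap k K c) = algebraMap k (X.kap ζ) c := by
  rw [rs_pos ζ ((X.O ζ).algebraMap_mem c)]
  rfl

theorem rs_ne (ζ : X.P) {a : K} (ha : a ∈ X.O ζ) : X.rs ζ a ≠ 0 ↔ Un (X.O ζ) a := by
  rw [rs_pos ζ ha, ← un_iff ha]
  exact IsLocalRing.residue_ne_zero_iff_isUnit _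

theorem rs_inv (ζ : X.P) {a : K} (ha : Un (X.O ζ) a) : X.rs ζ a⁻¹ = (X.rs ζ a)⁻¹ := by
  have h1 : X.rs ζ a * X.rs ζ a⁻¹ = 1 := by
    rw [← rs_mul ζ ha.2.1 ha.2.2, mul_inv_cancel₀ ha.1, rs_one]
  exact (inv_eq_of_mul_eq_one_right h1).symm

theorem rs_div (ζ : X.P) {a b : K} (ha : a ∈ X.O ζ) (hb : Un (X.O ζ) b) :
    X.rs ζ (a / b) = X.rs ζ a / X.rs ζ b := by
  rw [div_eq_mul_inv, rs_mul ζ ha hb.2.2, rs_inv ζ hb, div_eq_mul_inv]

theorem rs_surj (ζ : X.P) (c : X.kap ζ) : ∃ a ∈ X.O ζ, X.rs ζ a = c := by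
  obtain ⟨⟨a, ha⟩, h⟩ := IsLocalRing.residue_surjective c
  exact ⟨a, ha, by rw [rs_pos ζ ha, h]⟩

theorem mem_sec (U : Set X.P) (a : K) : a ∈ X.sec U ↔ ∀ x ∈ U, a ∈ X.O x := by
  unfold Mod.sec
  simp only [Algebra.mem_iInf]

end Pool.Agent.H54.RV
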