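import Pool.Agent.H54.RV.A4

/-!
# [H54 RV A5] zeros, poles and the product formula

* `zeros`: let `f` be transcendental, `B = BB k f`.  `f ∈ B` (it is in `k[f]`).  A place `p` with `0 < ord p f` contains `f` (`ord_nonneg`), so `k[f]`, so `B` (a valuation ring is integrally closed: an element `a` of `κ` integral
  over a subring of `p.R` is in `p.R`: `ValuationSubring` + `IsIntegrallyClosed`, or `Valuation.Integers`), hence `p = plP P` (`plP_surj`) with `f ∈ P` (`plP_pos`).  Conversely `plP P` for `f ∈ P`.  So `P ↦ plP P` is a bijection from the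
  finite set `S` of `a4_sum` to the set of the places with `0 < ord p f` (`plP_inj`), and `ord (plP P) f` is the summand (`plP_ord`).
* `fin_ord`, `sum_ord`: if `a` is algebraic over `k` then `a` is in (the image of) `k` (`IsAlgClosed`) and all orders are `0` (`ord_eq_zero`, `p.mem`).  Otherwise `a` and `a⁻¹` are transcendental; `{ord a ≠ 0} = {0 < ord a} ∪ {0 < ord a⁻¹}` (`ord_inv`),
  `∑ ord a = ∑_{0 < ord a} ord a - ∑_{0 < ord a⁻¹} ord a⁻¹ = finrank k⟮a⟯ κ - finrank k⟮a⁻¹⟯ κ = 0` (`a3_eq`; rewriting the field inside `finrank` may need `IntermediateField` congruence: `h ▸`, or `rw [a3_eq]`).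
-/

set_option autoImplicit false

namespace Pool.Agent.H54.RV

open IntermediateField IsDedekindDomain

variable {k κ : Type} [Field k] [Field κ] [Algebra k κ] [IsAlgClosed k] [CharZero k]

omit [IsAlgClosed k] [CharZero k] in
private theorem a5_adj (p : Place k κ) (f : κ) (hf : f ∈ p.R) (a : κ)
    (ha : a ∈ Algebra.adjoin k {f}) : a ∈ p.R := by
  induction ha using Algebra.adjoin_induction with
  | mem x hx =>
    rw [Set.mem_singleton_iff] at hx
    rw [hx]
    exact hf
  | algebraMap r => exact p.mem r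
  | add x y _ _ hx hy => exact p.R.add_mem _ _ hx hy
  | mul x y _ _ hx hy => exact p.R.mul_mem _ _ hx hy

omit [IsAlgClosed k] [CharZero k] in
private theorem a5_int (p : Place k κ) (f : κ) (hf : f ∈ p.R) (b : BB k f) :
    (b : κ) ∈ p.R := by
  have hb : IsIntegral (Algebra.adjoin k {f}) (b : κ) := b.2
  obtain ⟨P, hP, hP0⟩ := hb
  let φ : Algebra.adjoin k {f} →+* p.R :=
    { toFun := fun x => ⟨x.1, a5_adj p f hf x.1 x.2⟩
      map_one' := rfl
      map_mul' := fun _ _ => rfl
      map_zero' := rfl
      map_add' := fun _ _ => rfl }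
  have h1 : IsIntegral p.R (b : κ) := by
    refine ⟨P.map φ, hP.map φ, ?_⟩
    rw [Polynomial.eval₂_map]
    exact hP0
  obtain ⟨y, hy⟩ := IsIntegrallyClosed.isIntegral_iff.1 h1
  rw [← hy]
  exact y.2

theorem zeros (htr : Algebra.trdeg k κ = 1) (hfg : (⊤ : IntermediateField k κ).FG) (f : κ)
    (hf : Transcendental k f) : {p : Place k κ | 0 < p.ord f}.Finite ∧
      ∑ᶠ p ∈ {p : Place k κ | 0 < p.ord f}, p.ord f = (Module.finrank k⟮f⟯ κ : ℤ) := by
  obtain ⟨hD, hFr⟩ := a4_ded htr hfg f hf
  have hf0 : f ≠ 0 := by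
    rintro rfl
    exact hf isAlgebraic_zero
  have hfi : f ∈ BB k f := by
    have h1 : IsIntegral (Algebra.adjoin k {f})
        (algebraMap (Algebra.adjoin k {f}) κ ⟨f, Algebra.self_mem_adjoin_singleton k f⟩) :=
      isIntegral_algebraMap
    exact h1
  set f' : BB k f := ⟨f, hfi⟩ with hf'
  have hf'0 : f' ≠ 0 := by
    intro h
    exact hf0 (congrArg Subtype.val h)
  obtain ⟨S, hS, hsum⟩ := a4_sum htr hfg f hf f' rfl
  have hset : {p : Place k κ | 0 < p.ord f} =
      (fun P => plP k (κ := κ) (B := BB k f) P) '' (S : Set (HeightOneSpectrum (BB k f))) := by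
    ext p
    simp only [Set.mem_ofPred_eq, Set.mem_image, Finset.mem_coe]
    constructor
    · intro hp
      have h1 : f ∈ p.R := (ord_nonneg p f hf0).1 hp.le
      obtain ⟨P, hP⟩ := plP_surj (B := BB k f) p (fun b => a5_int p f h1 b)
      refine ⟨P, ?_, hP⟩
      rw [hS, ← plP_pos (k := k) (κ := κ) P f' hf'0, hP]
      exact hp
    · rintro ⟨P, hP, rfl⟩
      rw [hS, ← plP_pos (k := k) (κ := κ) P f' hf'0] at hP
      exact hP
  have hinj : Function.Injective (fun P => plP k (κ := κ) (B := BB k f) P) := plP_inj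
  refine ⟨?_, ?_⟩
  · rw [hset]
    exact S.finite_toSet.image _
  · rw [hset, finsum_mem_image hinj.injOn, finsum_mem_coe_finset, ← hsum]
    apply Finset.sum_congr rfl
    intro P _
    exact plP_ord P f hf0

omit [CharZero k] in
private theorem a5_alg (a : κ) (ha : a ≠ 0) (h : ¬ Transcendental k a) (p : Place k κ) :
    p.ord a = 0 := by
  have h1 : IsAlgebraic k a := by
    by_contra hcon
    exact h hcon
  have h2 : IsIntegral k a := h1.isIntegral
  obtain ⟨c, hc⟩ : ∃ c : k, algebraMap k κ c = a := by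
    obtain ⟨c, hc⟩ := IsAlgClosed.exists_root (minpoly k a) (by
      have := minpoly.degree_pos h2
      exact ne_of_gt this)
    refine ⟨c, ?_⟩
    have h3 : (minpoly k a).degree = 1 :=
      IsAlgClosed.degree_eq_one_of_irreducible k (minpoly.irreducible h2)
    obtain ⟨y, hy⟩ := minpoly.mem_range_of_degree_eq_one k a h3
    have h4 : (minpoly k a) = Polynomial.X - Polynomial.C y := by
      rw [← hy]
      exact minpoly.eq_X_sub_C κ y
    rw [h4] at hc
    have h5 : c = y := by
      have : c - y = 0 := by simpa [Polynomial.IsRoot] using hc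
      exact sub_eq_zero.1 this
    rw [h5, hy]
  rw [ord_eq_zero p a ha, ← hc, ← map_inv₀]
  exact ⟨p.mem c, p.mem c⁻¹⟩

omit [IsAlgClosed k] [CharZero k] in
private theorem a5_inv (a : κ) (h : Transcendental k a) : Transcendental k a⁻¹ := by
  intro h1
  have := h1.inv
  rw [inv_inv] at this
  exact h this

theorem fin_ord (htr : Algebra.trdeg k κ = 1) (hfg : (⊤ : IntermediateField k κ).FG) (a : κ)
    (ha : a ≠ 0) : {p : Place k κ | p.ord a ≠ 0}.Finite := by
  by_cases h : Transcendental k a
  · refine ((zeros htr hfg a h).1.union (zeros htr hfg a⁻¹ (a5_inv a h)).1).subset ?_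
    intro p hp
    simp only [Set.mem_ofPred_eq, Set.mem_union] at hp ⊢
    rw [ord_inv]
    omega
  · have : {p : Place k κ | p.ord a ≠ 0} = ∅ := by
      ext p
      simp [a5_alg a ha h p]
    rw [this]
    exact Set.finite_empty

theorem sum_ord (htr : Algebra.trdeg k κ = 1) (hfg : (⊤ : IntermediateField k κ).FG) (a : κ)
    (ha : a ≠ 0) : ∑ᶠ p : Place k κ, p.ord a = 0 := by
  classical
  by_cases h : Transcendental k a
  · obtain ⟨f1, s1⟩ := zeros htr hfg a h
    obtain ⟨f2, s2⟩ := zeros htr hfg a⁻¹ (a5_inv a h)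
    have h1 : ∀ p : Place k κ, p.ord a =
        Set.indicator {p : Place k κ | 0 < p.ord a} (fun p => p.ord a) p -
        Set.indicator {p : Place k κ | 0 < p.ord a⁻¹} (fun p => p.ord a⁻¹) p := by
      intro p
      simp only [Set.indicator_apply, Set.mem_ofPred_eq, ord_inv]
      split_ifs <;> omega
    rw [finsum_congr h1, finsum_sub_distrib, ← finsum_mem_def, ← finsum_mem_def, s1, s2]
    · have h2 : Module.finrank k⟮a⁻¹⟯ κ = Module.finrank k⟮a⟯ κ :=
        congrArg (fun L : IntermediateField k κ => Module.finrank L κ) (a3_eq a)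
      rw [h2, sub_self]
    · exact f1.subset (Set.support_indicator_subset)
    · exact f2.subset (Set.support_indicator_subset)
  · rw [finsum_congr (fun p => a5_alg a ha h p)]
    exact finsum_zero

end Pool.Agent.H54.RV
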