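import Pool.Agent.H54.RV.B3
import Pool.Agent.H54.RV.Grp

/-!
# [H54 RV B9] extension of sections

`s` a section of `n L`, `t ∈ K` with `t * M.eq y ∈ O y` for all `y ∈ nz L n s`.  Then `s^j * t` is a section of `(L^n)^j * M` for all large `j`.
Proof.  For every point `x` there is an affine `U x` with `x ∈ U x` such that `L.eq y / L.eq x` is a unit of `O y` for all `y ∈ U x` (`IsVar.chart`, `triv` with `V = univ`, `IsVar.basic`).  `a = s * L.eq x ^ n` satisfies `a ∈ O y` for `y ∈ U x`, and `Un (O y) a ↔ y ∈ nz L n s` (`a = (s * L.eq y ^ n) * (L.eq x / L.eq y) ^ n`;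
`mem_mul_un`, `un_mul_un`).  `denc` (`B3`) for `M`, `U x`, `a`, `b = t`: `N x` with `a^j * t * M.eq y ∈ O y` for `j ≥ N x`, `y ∈ U x`; so `s^j * (L.eq y ^ n)^j * t * M.eq y ∈ O y` (multiply by the unit `((L.eq y / L.eq x)^n)^j`).  Finitely many `U x` cover (`IsVar.comp`, `isCompact_univ.elim_nhds_subcover` or
`elim_finite_subcover`, `IsVar.op`); `N` the maximum (or the sum) of the `N x`.
-/

set_option autoImplicit false

namespace Pool.Agent.H54.RV

variable {k K : Type} [Field k] [Field K] [Algebra k K] {X : Mod k K}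

private theorem b9_loc (hX : IsVar X) (L M : Cart X) (n : ℕ) (s t : K) (hs : Sec L n s)
    (ht : ∀ y ∈ nz L n s, t * M.eq y ∈ X.O y) (x : X.P) :
    ∃ U : Set X.P, IsOpen U ∧ x ∈ U ∧ ∃ N : ℕ, ∀ j ≥ N, ∀ y ∈ U,
      s ^ j * t * ((L.eq y ^ n) ^ j * M.eq y) ∈ X.O y := by
  obtain ⟨U0, hU0, hxU0⟩ := hX.chart x
  obtain ⟨c, hc1, hc2, hc3⟩ := triv hX L U0 Set.univ x hU0 isOpen_univ hxU0 (Set.mem_univ x)
  have hU : X.aff {y | y ∈ U0 ∧ Un (X.O y) c} := hX.basic U0 c hU0 hc1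
  have hu : ∀ y ∈ {y | y ∈ U0 ∧ Un (X.O y) c}, Un (X.O y) (L.eq y / L.eq x) :=
    fun y hy => (hc3 y hy.1 hy.2).2
  have hx0 := L.ne x
  have hau : ∀ y, s * L.eq x ^ n * (L.eq y / L.eq x) ^ n = s * L.eq y ^ n := by
    intro y
    rw [div_pow, mul_assoc, mul_div_cancel₀ _ (pow_ne_zero n hx0)]
  obtain ⟨N, hN⟩ := denc hX M _ hU (s * L.eq x ^ n) t
    (fun y hy => by
      rw [← mem_mul_un (un_pow (hu y hy) n), hau]
      exact hs y)
    (fun y hy ha => by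
      apply ht y
      change Un (X.O y) (s * L.eq y ^ n)
      rw [← hau, un_mul_un (un_pow (hu y hy) n)]
      exact ha)
  refine ⟨_, hX.op _ hU, ⟨hxU0, hc2⟩, N, fun j hj y hy => ?_⟩
  have h1 := hN j hj y hy
  rw [← mem_mul_un (un_pow (un_pow (hu y hy) n) j)] at h1
  have h2 : (s * L.eq x ^ n) ^ j * t * M.eq y * ((L.eq y / L.eq x) ^ n) ^ j =
      s ^ j * t * ((L.eq y ^ n) ^ j * M.eq y) := by
    calc (s * L.eq x ^ n) ^ j * t * M.eq y * ((L.eq y / L.eq x) ^ n) ^ j =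
        ((s * L.eq x ^ n * (L.eq y / L.eq x) ^ n) ^ j) * t * M.eq y := by
          rw [mul_pow (s * L.eq x ^ n) ((L.eq y / L.eq x) ^ n) j]
          ring
      _ = s ^ j * t * ((L.eq y ^ n) ^ j * M.eq y) := by
          rw [hau, mul_pow]
          ring
  rw [h2] at h1
  exact h1

theorem ext_sec (hX : IsVar X) (L M : Cart X) (n : ℕ) (s t : K) (hs : Sec L n s)
    (ht : ∀ y ∈ nz L n s, t * M.eq y ∈ X.O y) :
    ∃ N : ℕ, ∀ j ≥ N, ∀ y, s ^ j * t * ((L.eq y ^ n) ^ j * M.eq y) ∈ X.O y := by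
  have := hX.comp
  choose U hU hxU N hN using b9_loc hX L M n s t hs ht
  obtain ⟨T, -, hT⟩ := (isCompact_univ : IsCompact (Set.univ : Set X.P)).elim_nhds_subcover U
    fun x _ => (hU x).mem_nhds (hxU x)
  refine ⟨T.sup N, fun j hj y => ?_⟩
  have h1 := hT (Set.mem_univ y)
  rw [Set.mem_iUnion₂] at h1
  obtain ⟨x, hx, hy⟩ := h1
  exact hN x j ((Finset.le_sup hx).trans hj) y hy

end Pool.Agent.H54.RV
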