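import Mathlib

/-!
# [H54 RV A3] function fields of one variable: the integral closure of `k[f]`

`κ / k` finitely generated of transcendence degree `1`, `f ∈ κ` transcendental over `k`.
* `a3_fin`: `κ` is finite over `k(f) = k⟮f⟯`: `f` is a transcendence basis (`Algebra.trdeg k κ = 1`: a transcendence basis has one element; `{f}` is algebraically independent, and it is
  maximal: e.g. `IsTranscendenceBasis` of an algebraically independent family of cardinality `trdeg`, finite case; or: if `κ` is not algebraic over `k⟮f⟯` there is `g` transcendental over `k⟮f⟯` and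
  `f, g` are algebraically independent, contradiction to `trdeg = 1`), so `κ` is algebraic over `k⟮f⟯`; a finitely generated algebraic extension is finite (`(⊤ : IntermediateField k κ).FG` gives
  `(⊤ : IntermediateField k⟮f⟯ κ).FG`; `IntermediateField.finiteDimensional_adjoin` or `essFiniteType` lemmas).
* `a3_eq`: `k⟮f⁻¹⟯ = k⟮f⟯`.
* `a3_pid`: `A = Algebra.adjoin k {f}` is isomorphic to `k[X]` (`Algebra.adjoin_singleton_eq_range_aeval`, `aeval f` is injective), so a PID (`IsPrincipalIdealRing.of_surjective`, domain as a subring of `κ`).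
-/

set_option autoImplicit false

namespace Pool.Agent.H54.RV

open IntermediateField

variable {k κ : Type} [Field k] [Field κ] [Algebra k κ]

theorem a3_fin (htr : Algebra.trdeg k κ = 1) (hfg : (⊤ : IntermediateField k κ).FG) (f : κ)
    (hf : Transcendental k f) : FiniteDimensional k⟮f⟯ κ := by
  have hx : AlgebraicIndependent k (fun _ : Unit => f) :=
    algebraicIndependent_unique_type_iff.2 hf
  have hb : IsTranscendenceBasis k (fun _ : Unit => f) :=
    hx.isTranscendenceBasis_of_trdeg_le_of_finite (by rw [htr]; simp)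
  have halg : Algebra.IsAlgebraic (IntermediateField.adjoin k (Set.range (fun _ : Unit => f))) κ :=
    hb.isAlgebraic_field
  rw [Set.range_const] at halg
  have h1 : Algebra.EssFiniteType k κ := fg_top_iff.1 hfg
  have h2 : Algebra.EssFiniteType k⟮f⟯ κ := Algebra.EssFiniteType.of_comp k k⟮f⟯ κ
  have h3 : Algebra.IsAlgebraic k⟮f⟯ κ := halg
  exact Algebra.finite_of_essFiniteType_of_isAlgebraic

theorem a3_eq (f : κ) : k⟮f⁻¹⟯ = k⟮f⟯ := by
  apply le_antisymm
  · rw [adjoin_simple_le_iff]
    exact inv_mem (mem_adjoin_simple_self k f)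
  · rw [adjoin_simple_le_iff]
    have h := inv_mem (mem_adjoin_simple_self k f⁻¹)
    rwa [inv_inv] at h

private theorem surj_aeval (f : κ) : Function.Surjective
    (Polynomial.aeval (⟨f, Algebra.self_mem_adjoin_singleton k f⟩ : Algebra.adjoin k {f}) :
      Polynomial k →ₐ[k] Algebra.adjoin k {f}) := by
  rintro ⟨a, ha⟩
  rw [Algebra.adjoin_singleton_eq_range_aeval] at ha
  obtain ⟨p, hp⟩ := ha
  refine ⟨p, Subtype.ext ?_⟩
  rw [Polynomial.aeval_subalgebra_coe]
  exact hp

theorem a3_pid (f : κ) (hf : Transcendental k f) :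
    IsPrincipalIdealRing (Algebra.adjoin k {f}) := by
  exact IsPrincipalIdealRing.of_surjective _ (surj_aeval f)

/-- the ideal generated by `f` in `k[f]` is maximal with quotient `k` -/
theorem a3_max (f : κ) (hf : Transcendental k f) :
    (Ideal.span {(⟨f, Algebra.self_mem_adjoin_singleton k f⟩ : Algebra.adjoin k {f})}).IsMaximal ∧
    ∀ a : Algebra.adjoin k {f}, ∃ c : k, a - algebraMap k _ c ∈
      Ideal.span {(⟨f, Algebra.self_mem_adjoin_singleton k f⟩ : Algebra.adjoin k {f})} := by
  set F : Algebra.adjoin k {f} := ⟨f, Algebra.self_mem_adjoin_singleton k f⟩ with hF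
  have h2 : ∀ a : Algebra.adjoin k {f}, ∃ c : k, a - algebraMap k _ c ∈ Ideal.span {F} := by
    intro a
    obtain ⟨p, rfl⟩ := surj_aeval f a
    refine ⟨p.coeff 0, ?_⟩
    rw [← hF, Ideal.mem_span_singleton]
    refine ⟨Polynomial.aeval F p.divX, ?_⟩
    have h3 : Polynomial.aeval F p = F * Polynomial.aeval F p.divX +
        algebraMap k (Algebra.adjoin k {f}) (p.coeff 0) := by
      conv_lhs => rw [← Polynomial.X_mul_divX_add p]
      rw [map_add, map_mul, Polynomial.aeval_X, Polynomial.aeval_C]
    rw [h3, add_sub_cancel_right]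
  refine ⟨?_, h2⟩
  rw [Ideal.isMaximal_iff]
  constructor
  · intro h1
    rw [Ideal.mem_span_singleton] at h1
    obtain ⟨a, ha⟩ := h1
    obtain ⟨p, rfl⟩ := surj_aeval f a
    rw [← hF] at ha
    have h3 : Polynomial.aeval F (Polynomial.X * p - 1) = 0 := by
      rw [map_sub, map_mul, Polynomial.aeval_X, map_one, ← ha, sub_self]
    have h4 : Polynomial.aeval f (Polynomial.X * p - 1) = 0 := by
      have h5 : ((Polynomial.aeval F (Polynomial.X * p - 1) : Algebra.adjoin k {f}) : κ) =
        ((0 : Algebra.adjoin k {f}) : κ) := congrArg _ h3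
      rw [Polynomial.aeval_subalgebra_coe] at h5
      exact h5
    have h5 : Polynomial.X * p - 1 = 0 := by
      by_contra hne
      exact hf ⟨_, hne, h4⟩
    have h6 := congrArg (Polynomial.eval 0) h5
    simp at h6
  · intro J x hIJ hx hxJ
    obtain ⟨c, hc⟩ := h2 x
    have hc0 : c ≠ 0 := by
      rintro rfl
      rw [map_zero, sub_zero] at hc
      exact hx hc
    have h3 : algebraMap k (Algebra.adjoin k {f}) c ∈ J := by
      have h4 := J.sub_mem hxJ (hIJ hc)
      rwa [sub_sub_cancel] at h4
    have h4 := J.mul_mem_left (algebraMap k (Algebra.adjoin k {f}) c⁻¹) h3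
    rwa [← map_mul, inv_mul_cancel₀ hc0, map_one] at h4

end Pool.Agent.H54.RV
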