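import Pool.Agent.H54.RV.Defs

/-!
# [H54 RV A1] orders at places

The valuation `v = (maximalIdeal p.R).valuation κ`: `v a ≤ 1 ↔ a ∈ p.R` (`exists_lift_of_le_one`, `valuation_le_one`), values `0` or `exp (-m)`;
`ord p a = - log (v a)` (`WithZero.log_inv`, `WithZero.log_mul`).
-/

set_option autoImplicit false

namespace Pool.Agent.H54.RV

variable {k κ κ' : Type} [Field k] [Field κ] [Algebra k κ] [Field κ'] [Algebra k κ']

private theorem a1_ord (p : Place k κ) : ∃ v : Valuation κ (WithZero (Multiplicative ℤ)),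
    (∀ a, p.ord a = - WithZero.log (v a)) ∧ (∀ a, v a ≤ 1 ↔ a ∈ p.R) ∧
      ∃ t, v t = WithZero.exp (-1 : ℤ) := by
  have := p.dvr
  refine ⟨(IsDiscreteValuationRing.maximalIdeal p.R).valuation κ, fun a => ?_, fun a => ⟨?_, ?_⟩,
    ?_⟩
  · rw [← WithZero.log_inv]
    rfl
  · intro h
    obtain ⟨b, hb⟩ := IsDiscreteValuationRing.exists_lift_of_le_one h
    rw [← hb]
    exact b.2
  · intro h
    exact (IsDiscreteValuationRing.maximalIdeal p.R).valuation_le_one (K := κ) ⟨a, h⟩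
  · exact (IsDiscreteValuationRing.maximalIdeal p.R).valuation_exists_uniformizer κ

theorem ord_one (p : Place k κ) : p.ord 1 = 0 := by
  obtain ⟨v, h1, -, -⟩ := a1_ord p
  rw [h1, map_one, WithZero.log_one, neg_zero]

theorem ord_mul (p : Place k κ) (a b : κ) (ha : a ≠ 0) (hb : b ≠ 0) :
    p.ord (a * b) = p.ord a + p.ord b := by
  obtain ⟨v, h1, -, -⟩ := a1_ord p
  rw [h1, h1, h1, map_mul, WithZero.log_mul (v.ne_zero_iff.2 ha) (v.ne_zero_iff.2 hb)]
  ring

theorem ord_inv (p : Place k κ) (a : κ) : p.ord a⁻¹ = - p.ord a := by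
  obtain ⟨v, h1, -, -⟩ := a1_ord p
  rw [h1, h1, map_inv₀, WithZero.log_inv]

theorem ord_nonneg (p : Place k κ) (a : κ) (ha : a ≠ 0) : 0 ≤ p.ord a ↔ a ∈ p.R := by
  obtain ⟨v, h1, h2, -⟩ := a1_ord p
  rw [h1, ← h2, neg_nonneg, WithZero.log_le_iff_le_exp (v.ne_zero_iff.2 ha), WithZero.exp_zero]

/-- units have order `0` -/
theorem ord_eq_zero (p : Place k κ) (a : κ) (ha : a ≠ 0) : p.ord a = 0 ↔ a ∈ p.R ∧ a⁻¹ ∈ p.R := by
  rw [← ord_nonneg p a ha, ← ord_nonneg p a⁻¹ (inv_ne_zero ha), ord_inv]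
  omega

theorem ord_unif (p : Place k κ) : ∃ t : κ, t ≠ 0 ∧ p.ord t = 1 := by
  obtain ⟨v, h1, -, t, ht⟩ := a1_ord p
  refine ⟨t, ?_, ?_⟩
  · rw [← v.ne_zero_iff, ht]
    exact WithZero.exp_ne_zero
  · rw [h1, ht, WithZero.log_exp, neg_neg]

theorem place_ext (p q : Place k κ) (h : p.R = q.R) : p = q := by
  obtain ⟨R, h1, h2⟩ := p
  obtain ⟨R', h1', h2'⟩ := q
  simp only at h
  subst h
  rfl

private theorem a1_pow (p : Place k κ) (a : κ) (ha : a ≠ 0) (n : ℕ) :
    p.ord (a ^ n) = n * p.ord a := by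
  induction n with
  | zero => simp [ord_one]
  | succ n ih =>
    rw [pow_succ, ord_mul p _ _ (pow_ne_zero n ha) ha, ih]
    push_cast
    ring

/-- a discrete valuation ring is a maximal proper subring -/
theorem place_le (p q : Place k κ) (h : ∀ a ∈ p.R, a ∈ q.R) : p = q := by
  apply place_ext
  by_contra hne
  obtain ⟨a, ha1, ha2⟩ : ∃ a, a ∈ q.R ∧ a ∉ p.R := by
    by_contra hcon
    push Not at hcon
    apply hne
    ext a
    exact ⟨h a, hcon a⟩
  have ha0 : a ≠ 0 := by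
    rintro rfl
    exact ha2 (zero_mem _)
  have hord : p.ord a < 0 := by
    by_contra hcon
    push Not at hcon
    exact ha2 ((ord_nonneg p a ha0).1 hcon)
  have hall : ∀ b : κ, b ≠ 0 → b ∈ q.R := by
    intro b hb
    rcases le_or_gt 0 (p.ord b) with h1 | h1
    · exact h b ((ord_nonneg p b hb).1 h1)
    · obtain ⟨N, hN⟩ := Int.eq_ofNat_of_zero_le (by omega : 0 ≤ - p.ord b)
      have h2 : a ^ N ≠ 0 := pow_ne_zero N ha0
      have h3 : b * (a ^ N)⁻¹ ∈ p.R := by
        rw [← ord_nonneg p _ (mul_ne_zero hb (inv_ne_zero h2)),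
          ord_mul p _ _ hb (inv_ne_zero h2), ord_inv, a1_pow p a ha0]
        have h4 : (N : ℤ) * p.ord a ≤ (N : ℤ) * (-1) :=
          mul_le_mul_of_nonneg_left (by omega) (Int.natCast_nonneg N)
        omega
      have h5 : b = b * (a ^ N)⁻¹ * a ^ N := by
        rw [mul_assoc, inv_mul_cancel₀ h2, mul_one]
      rw [h5]
      exact mul_mem (h _ h3) (pow_mem ha1 N)
  obtain ⟨t, ht0, ht⟩ := ord_unif q
  have h6 := (ord_nonneg q t⁻¹ (inv_ne_zero ht0)).2 (hall _ (inv_ne_zero ht0))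
  rw [ord_inv, ht] at h6
  omega

/-- characterization of the order -/
theorem ord_unique (p : Place k κ) (w : κ → ℤ)
    (hm : ∀ a b, a ≠ 0 → b ≠ 0 → w (a * b) = w a + w b) (hu : ∃ t, t ≠ 0 ∧ w t = 1)
    (hp : ∀ a, a ≠ 0 → (0 ≤ w a ↔ a ∈ p.R)) (a : κ) (ha : a ≠ 0) : w a = p.ord a := by
  have w1 : w 1 = 0 := by
    have := hm 1 1 one_ne_zero one_ne_zero
    rw [mul_one] at this
    omega
  have winv : ∀ a, a ≠ 0 → w a⁻¹ = - w a := by
    intro a ha
    have := hm a a⁻¹ ha (inv_ne_zero ha)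
    rw [mul_inv_cancel₀ ha, w1] at this
    omega
  have hzero : ∀ a, a ≠ 0 → p.ord a = 0 → w a = 0 := by
    intro a ha h
    obtain ⟨h1, h2⟩ := (ord_eq_zero p a ha).1 h
    have h3 := (hp a ha).2 h1
    have h4 := (hp _ (inv_ne_zero ha)).2 h2
    rw [winv a ha] at h4
    omega
  obtain ⟨π, hπ0, hπ⟩ := ord_unif p
  have wpow : ∀ n : ℕ, w (π ^ n) = n * w π := by
    intro n
    induction n with
    | zero => simp [w1]
    | succ n ih =>
      rw [pow_succ, hm _ _ (pow_ne_zero n hπ0) hπ0, ih]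
      push_cast
      ring
  have key : ∀ a, a ≠ 0 → w a = p.ord a * w π := by
    intro a ha
    rcases le_total 0 (p.ord a) with h | h
    · obtain ⟨N, hN⟩ := Int.eq_ofNat_of_zero_le h
      have h1 : p.ord (a * (π ^ N)⁻¹) = 0 := by
        rw [ord_mul p _ _ ha (inv_ne_zero (pow_ne_zero N hπ0)), ord_inv, a1_pow p π hπ0, hπ, hN]
        simp
      have h2 := hzero _ (mul_ne_zero ha (inv_ne_zero (pow_ne_zero N hπ0))) h1
      rw [hm _ _ ha (inv_ne_zero (pow_ne_zero N hπ0)), winv _ (pow_ne_zero N hπ0), wpow] at h2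
      rw [hN]
      linarith
    · obtain ⟨N, hN⟩ := Int.eq_ofNat_of_zero_le (by omega : 0 ≤ - p.ord a)
      have h1 : p.ord (a * π ^ N) = 0 := by
        rw [ord_mul p _ _ ha (pow_ne_zero N hπ0), a1_pow p π hπ0, hπ]
        omega
      have h2 := hzero _ (mul_ne_zero ha (pow_ne_zero N hπ0)) h1
      rw [hm _ _ ha (pow_ne_zero N hπ0), wpow] at h2
      have h3 : p.ord a = - (N : ℤ) := by
        omega
      rw [h3]
      linarith
  have hπw : 0 ≤ w π := (hp π hπ0).2 ((ord_nonneg p π hπ0).1 (by omega))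
  obtain ⟨t, ht0, ht⟩ := hu
  have h1 := key t ht0
  rw [ht] at h1
  have h2 : w π = 1 := by
    have h3 : w π ∣ 1 := ⟨p.ord t, by rw [h1]; ring⟩
    exact Int.eq_one_of_dvd_one hπw h3
  rw [key a ha, h2, mul_one]

/-- the image of a place, a direction of the equivalence -/
private noncomputable def a1_map {κ₁ κ₂ : Type} [Field κ₁] [Algebra k κ₁] [Field κ₂]
    [Algebra k κ₂] (e : κ₁ ≃ₐ[k] κ₂) (p : Place k κ₁) : Place k κ₂ where
  R := p.R.comap (e.symm : κ₂ →+* κ₁)
  mem c := by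
    rw [ValuationSubring.mem_comap]
    have h : (e.symm : κ₂ →+* κ₁) (algebraMap k κ₂ c) = algebraMap k κ₁ c := e.symm.commutes c
    rw [h]
    exact p.mem c
  dvr := by
    have := p.dvr
    have hR : ∀ x : κ₂, x ∈ p.R.comap (e.symm : κ₂ →+* κ₁) ↔ e.symm x ∈ p.R := fun x => Iff.rfl
    let E : p.R ≃+* (p.R.comap (e.symm : κ₂ →+* κ₁)) :=
      { toFun := fun x => ⟨e x, by
          rw [hR, AlgEquiv.symm_apply_apply]
          exact x.2⟩
        invFun := fun y => ⟨e.symm y, (hR y).1 y.2⟩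
        left_inv := fun x => Subtype.ext (e.symm_apply_apply x)
        right_inv := fun y => Subtype.ext (e.apply_symm_apply y)
        map_mul' := fun x y => Subtype.ext (map_mul e _ _)
        map_add' := fun x y => Subtype.ext (map_add e _ _) }
    exact IsDiscreteValuationRing.RingEquivClass.isDiscreteValuationRing E

private theorem a1_map_mem {κ₁ κ₂ : Type} [Field κ₁] [Algebra k κ₁] [Field κ₂]
    [Algebra k κ₂] (e : κ₁ ≃ₐ[k] κ₂) (p : Place k κ₁) (a : κ₂) :
    a ∈ (a1_map e p).R ↔ e.symm a ∈ p.R := Iff.rfl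

/-- the image of a place under an isomorphism -/
noncomputable def place_map (e : κ ≃ₐ[k] κ') : Place k κ ≃ Place k κ' where
  toFun p := a1_map e p
  invFun q := a1_map e.symm q
  left_inv p := by
    apply place_ext
    ext a
    rw [a1_map_mem, a1_map_mem]
    simp
  right_inv q := by
    apply place_ext
    ext a
    rw [a1_map_mem, a1_map_mem]
    simp

theorem place_map_mem (e : κ ≃ₐ[k] κ') (p : Place k κ) (a : κ) :
    e a ∈ (place_map e p).R ↔ a ∈ p.R := by
  have h : e a ∈ (place_map e p).R ↔ e.symm (e a) ∈ p.R := Iff.rfl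
  rw [h, AlgEquiv.symm_apply_apply]

theorem place_map_ord (e : κ ≃ₐ[k] κ') (p : Place k κ) (a : κ) :
    (place_map e p).ord (e a) = p.ord a := by
  by_cases ha : a = 0
  · subst ha
    obtain ⟨v, h1, -, -⟩ := a1_ord p
    obtain ⟨v', h1', -, -⟩ := a1_ord (place_map e p)
    rw [map_zero, h1, h1', map_zero, map_zero]
  · refine ord_unique p (fun a => (place_map e p).ord (e a)) ?_ ?_ ?_ a ha
    · intro a b ha hb
      have ha' : e a ≠ 0 := by simpa using ha
      have hb' : e b ≠ 0 := by simpa using hb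
      show (place_map e p).ord (e (a * b)) = _
      rw [map_mul, ord_mul _ _ _ ha' hb']
    · obtain ⟨t, ht0, ht⟩ := ord_unif (place_map e p)
      refine ⟨e.symm t, by simpa using ht0, ?_⟩
      show (place_map e p).ord (e (e.symm t)) = 1
      rw [AlgEquiv.apply_symm_apply, ht]
    · intro a ha
      have ha' : e a ≠ 0 := by simpa using ha
      show 0 ≤ (place_map e p).ord (e a) ↔ a ∈ p.R
      rw [ord_nonneg _ _ ha', place_map_mem]

end Pool.Agent.H54.RV
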