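import Pool.Agent.H54.RV.A2
import Pool.Agent.H54.RV.A3

/-!
# [H54 RV A4] the sum of the orders of zero of `f`

`A = Algebra.adjoin k {f}` (a PID, `a3_pid`), `F = k⟮f⟯ = Frac A` (`IsFractionRing (Algebra.adjoin F S) (adjoin F S)` in `FieldTheory/IntermediateField/Adjoin/Algebra.lean`), `κ / F` finite (`a3_fin`) and separable
(characteristic `0`).  `B = integralClosure A κ` is a Dedekind domain with fraction field `κ`, finite over `A` (`integralClosure.isDedekindDomain`, `IsIntegralClosure.finite`, `integralClosure.isFractionRing_of_finite_extension`).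
* `a4_sum`: for `p = (f)`, a maximal ideal of `A` (`a3_max`), `∑_{P | p} e(P) f(P) = finrank F κ` (`Ideal.sum_ramification_inertia_eq_finrank`, `RingTheory/RamificationInertia/Basic.lean`, and `finrank A B = finrank F κ`; or the older
  `Ideal.sum_ramification_inertia`).  `f(P) = [B/P : A/p] = 1`: `A/p = k` (`a3_max`), `B/P` is finite over `A/p`, hence algebraic over `k`, so equal to `k` (`IsAlgClosed.algebraMap_bijective_of_isIntegral`).
  `e(P)` is the multiplicity of `P` in `f B`, which is `log (P.valuation κ f)⁻¹` (`HeightOneSpectrum.intValuation_def`, `ramificationIdx_eq_multiplicity`, `IsDedekindDomain` factor counts), and `P | p` iff `f ∈ P`.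
The `k`-algebra structure on `B` (`Subalgebra A κ`): `B` is an `A`-algebra and `A` a `k`-algebra: `Algebra k B` is found by instance search (`Subalgebra.algebra'`) with `IsScalarTower k B κ`; if not, state it by
`letI` inside the proofs (keep the statement).
-/

set_option autoImplicit false

namespace Pool.Agent.H54.RV

open IntermediateField IsDedekindDomain

private theorem a4_gen {A B κ : Type} [CommRing A] [IsDomain A] [CommRing B] [IsDedekindDomain B]
    [Algebra A B] [Module.Finite A B] [Module.Flat A B] [FaithfulSMul A B] [Field κ] [Algebra B κ]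
    [IsFractionRing B κ]
    (f : A) (hmax : (Ideal.span {f}).IsMaximal) (hf : f ≠ 0)
    (hk : ∀ P : Ideal B, P.IsMaximal → algebraMap A B f ∈ P →
      ∀ b : B, ∃ a : A, b - algebraMap A B a ∈ P) :
    ∃ S : Finset (HeightOneSpectrum B), (∀ P, P ∈ S ↔ algebraMap A B f ∈ P.asIdeal) ∧
      ∑ P ∈ S, WithZero.log (P.valuation κ (algebraMap B κ (algebraMap A B f)))⁻¹ =
        (Module.finrank A B : ℤ) := by
  classical
  set p : Ideal A := Ideal.span {f} with hp
  have hfB : algebraMap A B f ≠ 0 := by
    intro h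
    apply hf
    apply FaithfulSMul.algebraMap_injective A B
    rw [h, map_zero]
  have hmap : p.map (algebraMap A B) = Ideal.span {algebraMap A B f} := by
    rw [hp, Ideal.map_span, Set.image_singleton]
  have hmap0 : p.map (algebraMap A B) ≠ ⊥ := by
    rw [hmap]
    intro h
    rw [Ideal.span_singleton_eq_bot] at h
    exact hfB h
  have hp0 : p ≠ ⊥ := by
    intro h
    rw [hp, Ideal.span_singleton_eq_bot] at h
    exact hf h
  -- primes over p
  have hover : ∀ P : HeightOneSpectrum B, algebraMap A B f ∈ P.asIdeal → P.asIdeal.LiesOver p := by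
    intro P hP
    constructor
    have hle : p ≤ P.asIdeal.under A := by
      rw [hp, Ideal.span_le]
      intro x hx
      rw [Set.mem_singleton_iff] at hx
      rw [hx]
      exact hP
    have hne : P.asIdeal.under A ≠ ⊤ := by
      have := P.isPrime
      exact (Ideal.IsPrime.under A P.asIdeal).ne_top
    exact hmax.eq_of_le hne hle
  have hover' : ∀ Q : Ideal B, Q ∈ p.primesOver B → algebraMap A B f ∈ Q := by
    intro Q hQ
    have h1 : p = Q.under A := hQ.2.over
    have h2 : f ∈ p := by
      rw [hp]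
      exact Ideal.mem_span_singleton_self f
    rw [h1] at h2
    exact h2
  have hne : ∀ Q : Ideal B, Q ∈ p.primesOver B → Q ≠ ⊥ := by
    intro Q hQ h
    have := hover' Q hQ
    rw [h, Ideal.mem_bot] at this
    exact hfB this
  let toH : p.primesOver B → HeightOneSpectrum B := fun Q => ⟨Q.1, Q.2.1, hne Q.1 Q.2⟩
  have hinj : Function.Injective toH := by
    intro Q R h
    apply Subtype.ext
    exact congrArg HeightOneSpectrum.asIdeal h
  have hpr : p.IsPrime := hmax.isPrime
  have key := Ideal.sum_ramification_inertia_eq_finrank (R := A) (S := B) p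
  refine ⟨Finset.univ.image toH, ?_, ?_⟩
  · intro P
    rw [Finset.mem_image]
    constructor
    · rintro ⟨Q, -, rfl⟩
      exact hover' Q.1 Q.2
    · intro hP
      exact ⟨⟨P.asIdeal, P.isPrime, hover P hP⟩, Finset.mem_univ _, rfl⟩
  · rw [Finset.sum_image (fun x _ y _ h => hinj h)]
    rw [← key]
    push_cast
    apply Finset.sum_congr rfl
    intro Q _
    have hQp : Q.1.IsPrime := Q.2.1
    have hQo : Q.1.LiesOver p := Q.2.2
    have hQm : Q.1.IsMaximal := hQp.isMaximal (hne Q.1 Q.2)
    have e1 : Q.1.inertiaDeg A = 1 := by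
      rw [Ideal.inertiaDeg_eq_of_isMaximal p Q.1]
      let : Field (A ⧸ p) := Ideal.Quotient.field p
      have hsur : Function.Surjective (algebraMap (A ⧸ p) (B ⧸ Q.1)) := by
        intro y
        obtain ⟨b, rfl⟩ := Ideal.Quotient.mk_surjective y
        obtain ⟨a, ha⟩ := hk Q.1 hQm (hover' Q.1 Q.2) b
        refine ⟨Ideal.Quotient.mk p a, ?_⟩
        rw [Ideal.Quotient.algebraMap_mk_of_liesOver]
        rw [Ideal.Quotient.eq]
        rw [← neg_sub]
        exact Q.1.neg_mem ha
      have hbij : Function.Bijective (algebraMap (A ⧸ p) (B ⧸ Q.1)) := by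
        refine ⟨?_, hsur⟩
        exact FaithfulSMul.algebraMap_injective _ _
      have hle := (AlgEquiv.ofBijective (Algebra.ofId (A ⧸ p) (B ⧸ Q.1)) hbij).toLinearEquiv.finrank_eq
      rw [← hle]
      exact Module.finrank_self _
    rw [e1, Ideal.IsDedekindDomain.ramificationIdx_eq_multiplicity p Q.1 hmap0, hmap]
    rw [HeightOneSpectrum.valuation_of_algebraMap, HeightOneSpectrum.intValuation_eq_exp_neg_multiplicity _ hfB]
    simp [toH]

variable {k κ : Type} [Field k] [Field κ] [Algebra k κ] [IsAlgClosed k] [CharZero k]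

/-- the integral closure of `k[f]` in `κ` -/
abbrev BB (k : Type) {κ : Type} [Field k] [Field κ] [Algebra k κ] (f : κ) :
    Subalgebra (Algebra.adjoin k {f}) κ := integralClosure (Algebra.adjoin k {f}) κ

open scoped IntermediateField.algebraAdjoinAdjoin in
theorem a4_ded (htr : Algebra.trdeg k κ = 1) (hfg : (⊤ : IntermediateField k κ).FG) (f : κ)
    (hf : Transcendental k f) : IsDedekindDomain (BB k f) ∧ IsFractionRing (BB k f) κ := by
  have h1 := a3_fin htr hfg f hf
  have h2 := a3_pid f hf
  have h3 : IsDedekindDomain (Algebra.adjoin k {f}) := inferInstance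
  have h4 : CharZero k⟮f⟯ := charZero_of_injective_algebraMap (algebraMap k k⟮f⟯).injective
  have h5 : Algebra.IsSeparable k⟮f⟯ κ := inferInstance
  refine ⟨integralClosure.isDedekindDomain (Algebra.adjoin k {f}) k⟮f⟯ κ, ?_⟩
  exact integralClosure.isFractionRing_of_finite_extension k⟮f⟯ κ

open scoped IntermediateField.algebraAdjoinAdjoin in
theorem a4_sum (htr : Algebra.trdeg k κ = 1) (hfg : (⊤ : IntermediateField k κ).FG) (f : κ)
    (hf : Transcendental k f) [IsDedekindDomain (BB k f)] [IsFractionRing (BB k f) κ]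
    (f' : BB k f) (hf' : (f' : κ) = f) :
    ∃ S : Finset (HeightOneSpectrum (BB k f)), (∀ P, P ∈ S ↔ f' ∈ P.asIdeal) ∧
      ∑ P ∈ S, WithZero.log (P.valuation κ f)⁻¹ = (Module.finrank k⟮f⟯ κ : ℤ) := by
  have h1 := a3_fin htr hfg f hf
  have h2 := a3_pid f hf
  have h3 : IsDedekindDomain (Algebra.adjoin k {f}) := inferInstance
  have h4 : CharZero k⟮f⟯ := charZero_of_injective_algebraMap (algebraMap k k⟮f⟯).injective
  have h5 : Algebra.IsSeparable k⟮f⟯ κ := inferInstance
  have h6 : Module.Finite (Algebra.adjoin k {f}) (BB k f) :=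
    IsIntegralClosure.finite (Algebra.adjoin k {f}) k⟮f⟯ κ (BB k f)
  obtain ⟨hm, hq⟩ := a3_max f hf
  set a : Algebra.adjoin k {f} := ⟨f, Algebra.self_mem_adjoin_singleton k f⟩ with ha
  have ha' : algebraMap (Algebra.adjoin k {f}) (BB k f) a = f' := by
    apply Subtype.ext
    rw [hf']
    rfl
  have ha0 : a ≠ 0 := by
    intro h
    have : f = 0 := congrArg Subtype.val h
    rw [this] at hf
    exact hf (isAlgebraic_zero)
  have key := a4_gen (A := Algebra.adjoin k {f}) (B := BB k f) (κ := κ) a hm ha0 ?_
  · obtain ⟨S, hS, hsum⟩ := key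
    refine ⟨S, ?_, ?_⟩
    · intro P
      rw [hS P, ha']
    · have hf2 : algebraMap (BB k f) κ (algebraMap (Algebra.adjoin k {f}) (BB k f) a) = f := by
        rw [ha']
        exact hf'
      rw [hf2] at hsum
      rw [hsum]
      congr 1
      exact (IsFractionRing.finrank_eq (Algebra.adjoin k {f}) k⟮f⟯ (BB k f) κ).symm
  · intro P hP haP b
    have hkP : Algebra.IsIntegral k (BB k f ⧸ P) := by
      constructor
      intro y
      obtain ⟨c, rfl⟩ := Ideal.Quotient.mk_surjective y
      obtain ⟨g, hg, hgc⟩ := (Algebra.IsIntegral.isIntegral (R := Algebra.adjoin k {f}) c)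
      set ψ : Algebra.adjoin k {f} →+* BB k f ⧸ P :=
        (Ideal.Quotient.mk P).comp (algebraMap (Algebra.adjoin k {f}) (BB k f)) with hψ
      have hl : g.map ψ ∈ Polynomial.lifts (algebraMap k (BB k f ⧸ P)) := by
        rw [Polynomial.lifts_iff_coeff_lifts]
        intro n
        rw [Polynomial.coeff_map]
        obtain ⟨e, he⟩ := hq (g.coeff n)
        refine ⟨e, ?_⟩
        obtain ⟨t, ht⟩ := Ideal.mem_span_singleton'.mp he
        have h7 : ψ (g.coeff n - algebraMap k _ e) = 0 := by
          rw [← ht, map_mul, hψ, RingHom.comp_apply, RingHom.comp_apply]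
          rw [Ideal.Quotient.eq_zero_iff_mem.mpr haP, mul_zero]
        rw [map_sub, sub_eq_zero] at h7
        rw [h7]
        rfl
      obtain ⟨q, hq1, -, hq2⟩ := Polynomial.lifts_and_natDegree_eq_and_monic hl (hg.map ψ)
      refine ⟨q, hq2, ?_⟩
      rw [← Polynomial.eval_map, hq1, Polynomial.eval_map, hψ, ← Polynomial.hom_eval₂, hgc, map_zero]
    have hf1 := IsAlgClosed.algebraMap_bijective_of_isIntegral (k := k) (K := BB k f ⧸ P)
    obtain ⟨e, he⟩ := hf1.2 (Ideal.Quotient.mk P b)
    refine ⟨algebraMap k _ e, ?_⟩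
    rw [← Ideal.Quotient.eq]
    rw [← he]
    rfl

end Pool.Agent.H54.RV
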