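import Pool.Agent.H54.RV.Defs

/-!
# [H54 RV AUT] automorphisms: the action on the curves and on `N1`

`MAut X` is a group: `(g * h).σ = g.σ ∘ h.σ`, `(g * h).τ = h.τ` after `g.τ` (pull-back is contravariant).
`crv g C`: the curve with generic point `g.σ C.ζ`; `act g v = v ∘ crv g`.

* `mul_loc`, `inv_loc` etc: `τ_h (τ_g a) ∈ O x ↔ τ_g a ∈ O (σ_h x) ↔ a ∈ O (σ_g (σ_h x))`; for the inverse apply
  `g.loc (g.σ.symm x) (g.τ.symm a)`.
* `kapE`: `g.τ` restricts to an isomorphism `O (σ ζ) → O ζ` of local rings (`g.loc`), hence an isomorphism of the residue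
  fields over `k` with `kapE (rs (σ ζ) a) = rs ζ (τ a)` for all `a ∈ K` (both sides are `0` if `a ∉ O (σ ζ)`).
  (`IsLocalRing.ResidueField.mapEquiv`, `IsLocalRing.ResidueField.map`; or lift with `Ideal.Quotient`.)
* `crv`: the transcendence degree does not change under an isomorphism of algebras (`AlgEquiv.trdeg_eq` or similar).
* `cls_pull`: `inter (pull g D) C = inter D (crv g C)`.  The places `p` of `κ(ζ)` correspond to the places `p'` of
  `κ(σ ζ)` (`p'.R` = comap of `p.R` by `kapE`), `Cen ζ x p ↔ Cen (σ ζ) (σ x) p'`, and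
  `ord p (kapE a) = ord p' a` (the valuation of the maximal ideal of a discrete valuation ring does not change under
  an isomorphism of fields which carries the valuation rings into each other: e.g. by `Place.ord` = the exponent of a
  uniformizer, `A1`).  `rs ζ (τ (eq (σ x)) / τ (eq (σ ζ))) = kapE (rs (σ ζ) (eq (σ x) / eq (σ ζ)))`.
  Use `finsum_comp_equiv` or `finsum_eq_of_bijective`.
* `act`: `v ∘ crv g` is in `N1` for `v ∈ N1`: `Submodule.span_induction` with `cls_pull`.
-/

set_option autoImplicit false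

namespace Pool.Agent.H54.RV

variable {k K : Type} [Field k] [Field K] [Algebra k K] {X : Mod k K}

theorem MAut.ext' (g h : MAut X) (h1 : ∀ x, g.σ x = h.σ x) (h2 : ∀ a, g.τ a = h.τ a) : g = h := by
  cases g; cases h
  congr
  · exact Homeomorph.ext h1
  · exact AlgEquiv.ext h2

noncomputable instance : Group (MAut X) where
  mul g h :=
    { σ := h.σ.trans g.σ
      τ := g.τ.trans h.τ
      loc := fun x a => by
        simp only [AlgEquiv.trans_apply, Homeomorph.trans_apply]
        rw [h.loc, g.loc]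
      aff := fun U => by
        have h1 : (h.σ.trans g.σ) ⁻¹' U = h.σ ⁻¹' (g.σ ⁻¹' U) := rfl
        rw [h1, h.aff, g.aff] }
  one :=
    { σ := Homeomorph.refl _
      τ := AlgEquiv.refl
      loc := fun x a => Iff.rfl
      aff := fun U => Iff.rfl }
  inv g :=
    { σ := g.σ.symm
      τ := g.τ.symm
      loc := fun x a => by
        have h1 := g.loc (g.σ.symm x) (g.τ.symm a)
        rw [AlgEquiv.apply_symm_apply, Homeomorph.apply_symm_apply] at h1
        exact h1.symm
      aff := fun U => by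
        have h1 := g.aff (g.σ.symm ⁻¹' U)
        rw [← h1, ← Set.preimage_comp, Homeomorph.symm_comp_self, Set.preimage_id] }
  mul_assoc g h i := by
    apply MAut.ext'
    · intro x; rfl
    · intro a; rfl
  one_mul g := by
    apply MAut.ext'
    · intro x; rfl
    · intro a; rfl
  mul_one g := by
    apply MAut.ext'
    · intro x; rfl
    · intro a; rfl
  inv_mul_cancel g := by
    apply MAut.ext'
    · intro x; exact g.σ.symm_apply_apply x
    · intro a; exact g.τ.apply_symm_apply a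

theorem MAut.mul_σ (g h : MAut X) (x : X.P) : (g * h).σ x = g.σ (h.σ x) := rfl

theorem MAut.mul_τ (g h : MAut X) (a : K) : (g * h).τ a = h.τ (g.τ a) := rfl

theorem MAut.map_O (g : MAut X) (ζ : X.P) :
    (X.O (g.σ ζ)).map (g.τ : K →ₐ[k] K) = X.O ζ := by
  ext a
  rw [Subalgebra.mem_map]
  constructor
  · rintro ⟨b, hb, rfl⟩
    exact (g.loc ζ b).2 hb
  · intro ha
    refine ⟨g.τ.symm a, (g.loc ζ _).1 ?_, g.τ.apply_symm_apply a⟩
    rw [g.τ.apply_symm_apply]
    exact ha

/-- the isomorphism of the local rings -/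
noncomputable def MAut.ringE (g : MAut X) (ζ : X.P) : X.O (g.σ ζ) ≃ₐ[k] X.O ζ :=
  (g.τ.subalgebraMap (X.O (g.σ ζ))).trans (Subalgebra.equivOfEq _ _ (g.map_O ζ))

theorem MAut.ringE_apply (g : MAut X) (ζ : X.P) (a : X.O (g.σ ζ)) :
    (g.ringE ζ a : K) = g.τ a := rfl

/-- the isomorphism of the residue fields -/
noncomputable def MAut.kapE (g : MAut X) (ζ : X.P) : X.kap (g.σ ζ) ≃ₐ[k] X.kap ζ :=
  IsLocalRing.ResidueField.mapAlgEquiv (g.ringE ζ)

theorem MAut.kapE_rs (g : MAut X) (ζ : X.P) (a : K) :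
    g.kapE ζ (X.rs (g.σ ζ) a) = X.rs ζ (g.τ a) := by
  unfold Mod.rs
  by_cases h : a ∈ X.O (g.σ ζ)
  · rw [dif_pos h, dif_pos ((g.loc ζ a).2 h)]
    exact IsLocalRing.ResidueField.mapAlgEquiv_residue (g.ringE ζ) ⟨a, h⟩
  · rw [dif_neg h, dif_neg (fun h1 => h ((g.loc ζ a).1 h1)), map_zero]

/-- the action on the curves -/
noncomputable def MAut.crv (g : MAut X) (C : Curve X) : Curve X where
  ζ := g.σ C.ζ
  trdeg := by rw [(g.kapE C.ζ).trdeg_eq]; exact C.trdeg

/-- the pull-back of a Cartier divisor -/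
noncomputable def MAut.pull (g : MAut X) (D : Cart X) : Cart X where
  eq x := g.τ (D.eq (g.σ x))
  ne x := by
    rw [map_ne_zero]
    exact D.ne _
  loc x := by
    obtain ⟨U, hU, hx, h⟩ := D.loc (g.σ x)
    refine ⟨g.σ ⁻¹' U, hU.preimage g.σ.continuous, hx, fun y hy => ?_⟩
    have h1 := h _ hy
    rw [← map_div₀]
    refine ⟨(map_ne_zero _).2 h1.1, (g.loc _ _).2 h1.2.1, ?_⟩
    rw [← map_inv₀]
    exact (g.loc _ _).2 h1.2.2

end Pool.Agent.H54.RV
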