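import Pool.Agent.H54.RV.B1

/-!
# [H54 RV B2] quasi-compactness of affine sets and denominators

* `qc`: let `U` be affine, `c : X.P → K` with `c x ∈ sec U` and `Un (O x) (c x)` for `x ∈ U`.  The ideal `I` of `sec U` spanned by the `c x`, `x ∈ U`, is the unit ideal: otherwise it is contained in a maximal ideal, which is
  `{a : ¬ Un (O x) a}` for some `x ∈ U` (`IsVar.prime`), but `c x ∈ I`.  So `1 = ∑_{x ∈ T} r x * c x` with a finite `T ⊆ U`, and for `z ∈ U` some `c x`, `x ∈ T`, is a unit at `z`: otherwise all `r x * c x` are non-units of the local ring `O z`, and so is their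
  sum `1` (`un_add`).  (`Submodule.mem_span_finite_of_mem_span` / `Ideal.span` with `Set.image`.)
* `den`: let `a ∈ sec U`, `b ∈ K` with `b ∈ O y` for all `y ∈ U` at which `a` is a unit.  `J = {c ∈ sec U : c * b ∈ sec U}` is an ideal.  If no power of `a` is in `J` there is a prime ideal `I ⊇ J` without `a` (`Ideal.exists_le_prime_notMem_of_isIdempotentElem`, or
  `Ideal.exists_le_prime_disjoint` with `Submonoid.powers a`), so `x ∈ U` with `I = {¬ Un (O x)}`: `a` is a unit at `x`, so `b ∈ O x`, so `b s ∈ sec U` with `s ∈ sec U` a unit at `x` (`IsVar.frac`): `s ∈ J ⊆ I`, a contradiction.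
-/

set_option autoImplicit false

namespace Pool.Agent.H54.RV

variable {k K : Type} [Field k] [Field K] [Algebra k K] {X : Mod k K}

private theorem b2_un_sum {A : Subalgebra k K} [IsLocalRing A] {ι : Type} [DecidableEq ι]
    (s : Finset ι) (a : ι → K) (ha : ∀ i ∈ s, a i ∈ A) (h : Un A (∑ i ∈ s, a i)) :
    ∃ i ∈ s, Un A (a i) := by
  induction s using Finset.induction_on with
  | empty =>
    rw [Finset.sum_empty] at h
    exact absurd rfl h.1
  | insert j s hj ih =>
    rw [Finset.sum_insert hj] at h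
    have h1 : ∀ i ∈ s, a i ∈ A := fun i hi => ha i (Finset.mem_insert_of_mem hi)
    rcases un_add (ha j (Finset.mem_insert_self _ _)) (Subalgebra.sum_mem A h1) h with h2 | h2
    · exact ⟨j, Finset.mem_insert_self _ _, h2⟩
    · obtain ⟨i, hi, h3⟩ := ih h1 h2
      exact ⟨i, Finset.mem_insert_of_mem hi, h3⟩

theorem qc (hX : IsVar X) (U : Set X.P) (hU : X.aff U) (c : X.P → K)
    (hc : ∀ x ∈ U, c x ∈ X.sec U ∧ Un (X.O x) (c x)) :
    ∃ T : Finset X.P, (∀ x ∈ T, x ∈ U) ∧ ∀ z ∈ U, ∃ x ∈ T, Un (X.O z) (c x) := by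
  classical
  rcases U.eq_empty_or_nonempty with rfl | hne
  · exact ⟨∅, by simp, by simp⟩
  let cx : U → X.sec U := fun x => ⟨c x, (hc x x.2).1⟩
  have htop : Ideal.span (Set.range cx) = ⊤ := by
    by_contra hI
    obtain ⟨M, hM, hIM⟩ := Ideal.exists_le_maximal _ hI
    obtain ⟨x, hx, hxM⟩ := hX.prime U hU hne M hM.isPrime
    have h1 : cx ⟨x, hx⟩ ∈ M := hIM (Ideal.subset_span ⟨⟨x, hx⟩, rfl⟩)
    exact (hxM _).1 h1 (hc x hx).2
  have h1 : (1 : X.sec U) ∈ Submodule.span (X.sec U) (Set.range cx) := by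
    change (1 : X.sec U) ∈ Ideal.span (Set.range cx)
    rw [htop]
    trivial
  obtain ⟨n, f, g, hfg⟩ := Submodule.mem_span_set'.1 h1
  choose x hx using fun i => (g i).2
  refine ⟨Finset.univ.image fun i => (x i : X.P), ?_, ?_⟩
  · intro y hy
    obtain ⟨i, -, rfl⟩ := Finset.mem_image.1 hy
    exact (x i).2
  · intro z hz
    have h2 : ∑ i, (f i : K) * c (x i) = 1 := by
      have h3 := congrArg (fun s : X.sec U => (s : K)) hfg
      simp only [smul_eq_mul] at h3
      rw [AddSubmonoidClass.coe_finsetSum] at h3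
      rw [← show ((1 : X.sec U) : K) = 1 from rfl, ← h3]
      refine Finset.sum_congr rfl fun i _ => ?_
      rw [← hx i]
      rfl
    have hmem : ∀ s : X.sec U, (s : K) ∈ X.O z := fun s => (mem_sec U _).1 s.2 z hz
    have hcm : ∀ i, c (x i) ∈ X.O z := fun i => hmem (cx (x i))
    obtain ⟨i, -, hi⟩ := b2_un_sum (A := X.O z) Finset.univ (fun i => (f i : K) * c (x i))
      (fun i _ => Subalgebra.mul_mem _ (hmem (f i)) (hcm i)) (by
        rw [h2]
        exact un_one _)
    exact ⟨x i, Finset.mem_image_of_mem _ (Finset.mem_univ i),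
      ((un_mul_iff (hmem (f i)) (hcm i)).1 hi).2⟩

theorem den (hX : IsVar X) (U : Set X.P) (hU : X.aff U) (a b : K) (ha : ∀ y ∈ U, a ∈ X.O y)
    (hb : ∀ y ∈ U, Un (X.O y) a → b ∈ X.O y) :
    ∃ N : ℕ, ∀ j ≥ N, ∀ y ∈ U, a ^ j * b ∈ X.O y := by
  rcases U.eq_empty_or_nonempty with rfl | hne
  · exact ⟨0, by simp⟩
  let aA : X.sec U := ⟨a, (mem_sec U a).2 ha⟩
  let J : Ideal (X.sec U) :=
    { carrier := {c | (c : K) * b ∈ X.sec U}
      add_mem' := by
        intro c d hc hd
        change ((c : K) + d) * b ∈ X.sec U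
        rw [add_mul]
        exact Subalgebra.add_mem _ hc hd
      zero_mem' := by
        change (0 : K) * b ∈ X.sec U
        rw [zero_mul]
        exact Subalgebra.zero_mem _
      smul_mem' := by
        intro c d hd
        change ((c : K) * d) * b ∈ X.sec U
        rw [mul_assoc]
        exact Subalgebra.mul_mem _ c.2 hd }
  have hJ : ∀ c : X.sec U, c ∈ J ↔ (c : K) * b ∈ X.sec U := fun c => Iff.rfl
  have key : ∃ n : ℕ, aA ^ n ∈ J := by
    by_contra hcon
    push Not at hcon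
    have hdis : Disjoint (J : Set (X.sec U)) (Submonoid.powers aA : Set (X.sec U)) := by
      rw [Set.disjoint_left]
      rintro c hc ⟨n, rfl⟩
      exact hcon n hc
    obtain ⟨p, hp, hJp, hpd⟩ := Ideal.exists_le_prime_disjoint J (Submonoid.powers aA) hdis
    obtain ⟨x, hx, hxp⟩ := hX.prime U hU hne p hp
    have h1 : aA ∉ p := fun h => Set.disjoint_left.1 hpd h ⟨1, pow_one _⟩
    have h2 : Un (X.O x) a := by
      by_contra h3
      exact h1 ((hxp aA).2 h3)
    obtain ⟨s, hs, hsu, hbs⟩ := hX.frac U x hU hx b (hb x hx h2)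
    have h4 : (⟨s, hs⟩ : X.sec U) ∈ J := by
      rw [hJ]
      change s * b ∈ X.sec U
      rw [mul_comm]
      exact hbs
    exact (hxp _).1 (hJp h4) hsu
  obtain ⟨n, hn⟩ := key
  refine ⟨n, fun j hj y hy => ?_⟩
  have h5 : a ^ n * b ∈ X.O y := (mem_sec U _).1 ((hJ _).1 hn) y hy
  have h6 : a ^ j * b = a ^ (j - n) * (a ^ n * b) := by
    rw [← mul_assoc, ← pow_add, Nat.sub_add_cancel hj]
  rw [h6]
  exact Subalgebra.mul_mem _ (Subalgebra.pow_mem _ (ha y hy) _) h5

end Pool.Agent.H54.RV
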