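import Pool.Agent.H54.RV.B4
import Pool.Agent.H54.RV.B3
import Pool.Agent.H54.RV.A5

/-!
# [H54 RV B5] centres of places

`ctr hX ζ p` is the centre of `p` (`IsVar.cen`).
* `cen_of`: let `U` be affine, `ζ ∈ U` and `rs ζ a ∈ p.R` for all `a ∈ sec U`.  Then the centre of `p` is in `U`.  Proof: `I = {a ∈ sec U : ¬ (rs ζ a ≠ 0 ∧ (rs ζ a)⁻¹ ∈ p.R)}` is the preimage of the maximal ideal of the valuation ring `p.R` under the ring homomorphism
  `sec U → p.R`, so a prime ideal, so there is `x ∈ U` with `a ∈ I ↔ ¬ Un (O x) a` (`IsVar.prime`).  `Cen X ζ x p`: (1) `ζ ⤳ x`: if not there is an open `V` with `x ∈ V`, `ζ ∉ V`; `IsVar.bas` gives `a` with `Un (O x) a` and `Un (O ζ) a → ζ ∈ V`; `Un (O x) a` gives `a ∉ I`,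
  `rs ζ a ≠ 0`, `Un (O ζ) a` (`rs_ne`), a contradiction.  (2) `IsVar.spec`.  (3) `b ∈ O x`: `b s = a ∈ sec U` with `s ∈ sec U`, `Un (O x) s` (`IsVar.frac`): `rs ζ s` is a unit of `p.R` and `rs ζ b = rs ζ a / rs ζ s ∈ p.R`; if `rs ζ b ≠ 0` and its inverse is in `p.R`, then `rs ζ a` is a
  unit of `p.R`, so `a ∉ I`, `Un (O x) a`, `b⁻¹ = s a⁻¹ ∈ O x`.
* `cnu`: for a curve `C` and `U` affine with `ζ ∈ U` only finitely many places have centre outside `U`: `sec U` is generated by a finite set `s`; if `rs ζ g ∈ p.R` for all `g ∈ s` then `rs ζ a ∈ p.R` for all `a ∈ sec U` (`Algebra.adjoin_induction`, `p.mem`), and the centre is in `U`.  So the exceptional places are in the union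
  over `g ∈ s` with `rs ζ g ≠ 0` of `{p : ord p (rs ζ g) ≠ 0}` (`ord_nonneg`), finite by `fin_ord` (`C.trdeg`, `kap_fg`).
-/

set_option autoImplicit false

namespace Pool.Agent.H54.RV

variable {k K : Type} [Field k] [Field K] [Algebra k K] {X : Mod k K}

/-- the centre of a place -/
noncomputable def ctr (hX : IsVar X) (ζ : X.P) (p : Place k (X.kap ζ)) : X.P :=
  (hX.cen ζ p).choose

theorem ctr_cen (hX : IsVar X) (ζ : X.P) (p : Place k (X.kap ζ)) : Cen X ζ (ctr hX ζ p) p :=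
  (hX.cen ζ p).choose_spec.1

theorem ctr_eq (hX : IsVar X) (ζ : X.P) (p : Place k (X.kap ζ)) (x : X.P) (h : Cen X ζ x p) :
    x = ctr hX ζ p :=
  (hX.cen ζ p).choose_spec.2 x h

theorem cen_of (hX : IsVar X) (ζ : X.P) (p : Place k (X.kap ζ)) (U : Set X.P) (hU : X.aff U)
    (hζ : ζ ∈ U) (h : ∀ a ∈ X.sec U, X.rs ζ a ∈ p.R) : ctr hX ζ p ∈ U := by
  have hsec : ∀ a ∈ X.sec U, a ∈ X.O ζ := fun a ha => (mem_sec U a).1 ha ζ hζ
  let φ : X.sec U →+* p.R :=
    { toFun := fun a => ⟨X.rs ζ a.1, h a.1 a.2⟩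
      map_one' := Subtype.ext (rs_one ζ)
      map_mul' := fun a b => Subtype.ext (rs_mul ζ (hsec _ a.2) (hsec _ b.2))
      map_zero' := Subtype.ext (by
        have h1 := rs_ne ζ (X.O ζ).zero_mem
        have h2 : ¬ Un (X.O ζ) 0 := fun hh => hh.1 rfl
        by_contra h3
        exact h2 (h1.1 h3))
      map_add' := fun a b => Subtype.ext (rs_add ζ (hsec _ a.2) (hsec _ b.2)) }
  have hφ : ∀ a : X.sec U, a ∈ (IsLocalRing.maximalIdeal p.R).comap φ ↔
      ¬ (X.rs ζ a.1 ≠ 0 ∧ (X.rs ζ a.1)⁻¹ ∈ p.R) := by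
    intro a
    rw [Ideal.mem_comap, IsLocalRing.mem_maximalIdeal, mem_nonunits_iff, not_iff_not]
    constructor
    · intro hu
      obtain ⟨b, hb⟩ := hu.exists_right_inv
      have h1 : X.rs ζ a.1 * (b : X.kap ζ) = 1 := congrArg Subtype.val hb
      have h2 : X.rs ζ a.1 ≠ 0 := by
        intro h3
        rw [h3, zero_mul] at h1
        exact zero_ne_one h1
      refine ⟨h2, ?_⟩
      have h4 : (X.rs ζ a.1)⁻¹ = (b : X.kap ζ) := inv_eq_of_mul_eq_one_right h1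
      rw [h4]
      exact b.2
    · rintro ⟨h1, h2⟩
      refine IsUnit.of_mul_eq_one ⟨(X.rs ζ a.1)⁻¹, h2⟩ ?_
      exact Subtype.ext (mul_inv_cancel₀ h1)
  obtain ⟨x, hxU, hx⟩ := hX.prime U hU ⟨ζ, hζ⟩ ((IsLocalRing.maximalIdeal p.R).comap φ)
    (Ideal.IsPrime.comap φ)
  have hx' : ∀ a (ha : a ∈ X.sec U), Un (X.O x) a ↔ (X.rs ζ a ≠ 0 ∧ (X.rs ζ a)⁻¹ ∈ p.R) := by
    intro a ha
    have h1 := hx ⟨a, ha⟩
    rw [hφ, not_iff_not] at h1
    exact h1.symm
  have hsp : ζ ⤳ x := by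
    rw [specializes_iff_forall_open]
    intro V hV hxV
    obtain ⟨a, h1, h2, h3⟩ := hX.bas U V x hU hV hxU hxV
    have ha : a ∈ X.sec U := (mem_sec U a).2 h1
    exact h3 ζ hζ ((rs_ne ζ (hsec a ha)).1 ((hx' a ha).1 h2).1)
  have hle : X.O x ≤ X.O ζ := hX.spec ζ x hsp
  have hcen : Cen X ζ x p := by
    refine ⟨hsp, hle, fun b hb => ?_⟩
    obtain ⟨s, hs, hsu, hbs⟩ := hX.frac U x hU hxU b hb
    obtain ⟨hs0, hsi⟩ := (hx' s hs).1 hsu
    have hmul : X.rs ζ (b * s) = X.rs ζ b * X.rs ζ s := rs_mul ζ (hle hb) (hsec s hs)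
    have hb1 : X.rs ζ b = X.rs ζ (b * s) * (X.rs ζ s)⁻¹ := by
      rw [hmul, mul_assoc, mul_inv_cancel₀ hs0, mul_one]
    refine ⟨?_, fun hb0 hbi => ?_⟩
    · rw [hb1]
      exact p.R.mul_mem _ _ (h _ hbs) hsi
    · have h1 : Un (X.O x) (b * s) := by
        refine (hx' _ hbs).2 ⟨?_, ?_⟩
        · rw [hmul]
          exact mul_ne_zero hb0 hs0
        · rw [hmul, mul_inv]
          exact p.R.mul_mem _ _ hbi hsi
      have h2 : b⁻¹ = s * (b * s)⁻¹ := by
        have hb2 : b ≠ 0 := left_ne_zero_of_mul h1.1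
        have hs2 : s ≠ 0 := hsu.1
        field_simp
      rw [h2]
      exact (X.O x).mul_mem hsu.2.1 h1.2.2
  rw [← ctr_eq hX ζ p x hcen]
  exact hxU

theorem cnu [IsAlgClosed k] [CharZero k] (hX : IsVar X) (C : Curve X) (U : Set X.P)
    (hU : X.aff U) (hζ : C.ζ ∈ U) : {p : Place k (X.kap C.ζ) | ctr hX C.ζ p ∉ U}.Finite := by
  classical
  have hsec : ∀ a ∈ X.sec U, a ∈ X.O C.ζ := fun a ha => (mem_sec U a).1 ha C.ζ hζ
  obtain ⟨s, hs⟩ := hX.fg U hU ⟨C.ζ, hζ⟩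
  refine ((s.filter (fun g => X.rs C.ζ g ≠ 0)).finite_toSet.biUnion
    (t := fun g => {p : Place k (X.kap C.ζ) | p.ord (X.rs C.ζ g) ≠ 0}) ?_).subset ?_
  · intro g hg
    have hg0 : X.rs C.ζ g ≠ 0 := (Finset.mem_filter.1 hg).2
    exact fin_ord C.trdeg (kap_fg hX C.ζ) _ hg0
  · intro p hp
    by_contra hnot
    apply hp
    refine cen_of hX C.ζ p U hU hζ ?_
    have hgen : ∀ g ∈ s, X.rs C.ζ g ∈ p.R := by
      intro g hg
      by_cases hg0 : X.rs C.ζ g = 0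
      · rw [hg0]
        exact p.R.zero_mem
      · have h1 : p.ord (X.rs C.ζ g) = 0 := by
          by_contra h2
          apply hnot
          rw [Set.mem_iUnion₂]
          exact ⟨g, Finset.mem_coe.2 (Finset.mem_filter.2 ⟨hg, hg0⟩), h2⟩
        exact (ord_nonneg p _ hg0).1 h1.ge
    intro a ha
    rw [← hs] at ha
    have hsub : ∀ x ∈ Algebra.adjoin k (s : Set K), x ∈ X.O C.ζ := by
      intro x hx
      rw [hs] at hx
      exact hsec x hx
    induction ha using Algebra.adjoin_induction with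
    | mem x hx => exact hgen x hx
    | algebraMap r =>
      rw [rs_alg]
      exact p.mem r
    | add x y hx hy hx' hy' =>
      rw [rs_add C.ζ (hsub x hx) (hsub y hy)]
      exact p.R.add_mem _ _ hx' hy'
    | mul x y hx hy hx' hy' =>
      rw [rs_mul C.ζ (hsub x hx) (hsub y hy)]
      exact p.R.mul_mem _ _ hx' hy'

end Pool.Agent.H54.RV
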