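import Pool.Agent.H54.RV.B5

/-!
# [H54 RV B6] the intersection number is a finite sum

* `quo_un`: if `ζ ⤳ x` then `D.eq x / D.eq ζ` is a unit of `O ζ`: the neighbourhood of `x` in `D.loc x` contains `ζ` (`Specializes` and open sets), so `D.eq ζ / D.eq x` is a unit of `O ζ`.
* `quo_fin`: `ord p (rs ζ (eq (ctr p) / eq ζ)) = 0` for all but finitely many places: `triv` (`B3`) at the point `ζ` of a chart `U` gives `c ∈ sec U`; `U' = {y ∈ U : Un (O y) c}` is affine (`IsVar.basic`), contains `ζ`, and `eq y / eq ζ` is a unit of `O y` for `y ∈ U'`.  If the centre `x` of `p` is in `U'`, then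
  `a = eq x / eq ζ` and `a⁻¹` are in `O x`, so `rs ζ a` and `rs ζ a⁻¹ = (rs ζ a)⁻¹` are in `p.R` (`ctr_cen`), and the order is `0` (`ord_eq_zero`).  `cnu`.
* `inter_eq`: the index set of `inter` is in bijection with the places: `q ↦ q.1.2`, with `q.1.1 = ctr q.1.2` (`ctr_eq`).
-/

set_option autoImplicit false

namespace Pool.Agent.H54.RV

variable {k K : Type} [Field k] [Field K] [Algebra k K] {X : Mod k K}

theorem quo_un (D : Cart X) (ζ x : X.P) (h : ζ ⤳ x) : Un (X.O ζ) (D.eq x / D.eq ζ) := by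
  obtain ⟨U, hU, hx, h1⟩ := D.loc x
  have h2 := un_inv (h1 ζ (h.mem_open hU hx))
  rwa [inv_div] at h2

theorem quo_fin [IsAlgClosed k] [CharZero k] (hX : IsVar X) (D : Cart X) (C : Curve X) :
    {p : Place k (X.kap C.ζ) |
      p.ord (X.rs C.ζ (D.eq (ctr hX C.ζ p) / D.eq C.ζ)) ≠ 0}.Finite := by
  obtain ⟨U, hU, hζ⟩ := hX.chart C.ζ
  obtain ⟨c, hc, hcζ, h1⟩ := triv hX D U Set.univ C.ζ hU isOpen_univ hζ (Set.mem_univ _)
  have hU' := hX.basic U c hU hc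
  refine (cnu hX C _ hU' ⟨hζ, hcζ⟩).subset ?_
  intro p hp hx
  apply hp
  have h2 : Un (X.O (ctr hX C.ζ p)) (D.eq (ctr hX C.ζ p) / D.eq C.ζ) :=
    (h1 _ hx.1 hx.2).2
  have h3 := ctr_cen hX C.ζ p
  have h4 : Un (X.O C.ζ) (D.eq (ctr hX C.ζ p) / D.eq C.ζ) := un_mono h3.2.1 h2
  rw [ord_eq_zero p _ ((rs_ne C.ζ h4.2.1).2 h4), ← rs_inv C.ζ h4]
  exact ⟨(h3.2.2 _ h2.2.1).1, (h3.2.2 _ h2.2.2).1⟩

theorem inter_eq (hX : IsVar X) (D : Cart X) (C : Curve X) :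
    inter D C = ∑ᶠ p : Place k (X.kap C.ζ), p.ord (X.rs C.ζ (D.eq (ctr hX C.ζ p) / D.eq C.ζ)) := by
  unfold inter
  refine finsum_eq_of_bijective (fun q => q.1.2) ⟨?_, ?_⟩ ?_
  · rintro ⟨⟨x, p⟩, hxp⟩ ⟨⟨y, q⟩, hyq⟩ h
    simp only at h
    subst h
    have h1 := ctr_eq hX C.ζ p x hxp
    have h2 := ctr_eq hX C.ζ p y hyq
    have h3 : x = y := h1.trans h2.symm
    subst h3
    rfl
  · intro p
    exact ⟨⟨(ctr hX C.ζ p, p), ctr_cen hX C.ζ p⟩, rfl⟩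
  · rintro ⟨⟨x, p⟩, hxp⟩
    have h1 : x = ctr hX C.ζ p := ctr_eq hX C.ζ p x hxp
    simp only
    rw [← h1]

end Pool.Agent.H54.RV
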