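import Pool.Agent.H54.RV.B7

/-!
# [H54 RV B8] positivity

* `inter_eff`: `E` effective and `E.eq ζ` a unit of `O ζ` (the curve is not in the support of `E`).  With `x = ctr p`: `E.eq x ∈ O x`, `E.eq x = (E.eq x / E.eq ζ) * E.eq ζ` is a unit of `O ζ` (`quo_un`), so `rs ζ (E.eq x) ≠ 0` is in `p.R` and has order `≥ 0` (`ord_nonneg`);
  `ord p (rs ζ (E.eq x / E.eq ζ)) = ord p (rs ζ (E.eq x)) - ord p (rs ζ (E.eq ζ))` (`rs_div`, `ord_mul`, `ord_inv`), and `∑ p, ord p (rs ζ (E.eq ζ)) = 0` (`sum_ord`).  (`finsum_sub_distrib`, `finsum_nonneg`.)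
* `inter_sec`: `s` a section of `n D` which does not vanish at `ζ`: `E = prin s * D ^ n` is effective and `E.eq ζ` is a unit of `O ζ`; `inter E C = n * inter D C`.
* `ample_nonneg`: take `n`, `s` for `x = ζ`.
* `ample_eff`: an ample `D` (and a point `x`, `IsVar.ne`) gives `n ≥ 1` and an effective `E` with `cl E = n • cl D` (`E = prin s * D ^ n`).
-/

set_option autoImplicit false

namespace Pool.Agent.H54.RV

variable {k K : Type} [Field k] [Field K] [Algebra k K] [IsAlgClosed k] [CharZero k] {X : Mod k K}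

theorem inter_eff (hX : IsVar X) (E : Cart X) (hE : Effective E) (C : Curve X)
    (h : Un (X.O C.ζ) (E.eq C.ζ)) : 0 ≤ inter E C := by
  rw [inter_eq hX]
  have hζ0 : X.rs C.ζ (E.eq C.ζ) ≠ 0 := (rs_ne C.ζ h.2.1).2 h
  have key : ∀ p : Place k (X.kap C.ζ),
      p.ord (X.rs C.ζ (E.eq (ctr hX C.ζ p) / E.eq C.ζ)) =
        p.ord (X.rs C.ζ (E.eq (ctr hX C.ζ p))) - p.ord (X.rs C.ζ (E.eq C.ζ)) ∧
      0 ≤ p.ord (X.rs C.ζ (E.eq (ctr hX C.ζ p))) := by
    intro p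
    have hc := ctr_cen hX C.ζ p
    have hq := quo_un E C.ζ (ctr hX C.ζ p) hc.1
    have hu : Un (X.O C.ζ) (E.eq (ctr hX C.ζ p)) := by
      have h1 := un_mul hq h
      rwa [div_mul_cancel₀ _ (E.ne _)] at h1
    have hne : X.rs C.ζ (E.eq (ctr hX C.ζ p)) ≠ 0 := (rs_ne C.ζ hu.2.1).2 hu
    refine ⟨?_, (ord_nonneg p _ hne).2 (hc.2.2 _ (hE _)).1⟩
    rw [rs_div C.ζ hu.2.1 h, div_eq_mul_inv, ord_mul p _ _ hne (inv_ne_zero hζ0), ord_inv]
    ring
  have hg : (Function.support fun p : Place k (X.kap C.ζ) =>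
      p.ord (X.rs C.ζ (E.eq C.ζ))).Finite := fin_ord C.trdeg (kap_fg hX C.ζ) _ hζ0
  have hq : (Function.support fun p : Place k (X.kap C.ζ) =>
      p.ord (X.rs C.ζ (E.eq (ctr hX C.ζ p) / E.eq C.ζ))).Finite := quo_fin hX E C
  have hf : (Function.support fun p : Place k (X.kap C.ζ) =>
      p.ord (X.rs C.ζ (E.eq (ctr hX C.ζ p)))).Finite := by
    refine (hg.union hq).subset fun p hp => ?_
    by_contra hcon
    rw [Set.mem_union, not_or] at hcon
    simp only [Function.mem_support, not_not, ne_eq] at hcon hp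
    have h1 := (key p).1
    rw [hcon.1, hcon.2] at h1
    exact hp (by omega)
  have h1 : (fun p : Place k (X.kap C.ζ) =>
      p.ord (X.rs C.ζ (E.eq (ctr hX C.ζ p) / E.eq C.ζ))) = fun p =>
        p.ord (X.rs C.ζ (E.eq (ctr hX C.ζ p))) - p.ord (X.rs C.ζ (E.eq C.ζ)) :=
    funext fun p => (key p).1
  rw [h1, finsum_sub_distrib hf hg, sum_ord C.trdeg (kap_fg hX C.ζ) _ hζ0, sub_zero]
  exact finsum_nonneg fun p => (key p).2

theorem inter_sec (hX : IsVar X) (D : Cart X) (n : ℕ) (s : K) (hs : Sec D n s) (C : Curve X)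
    (h : C.ζ ∈ nz D n s) : 0 ≤ (n : ℤ) * inter D C := by
  have h1 : Un (X.O C.ζ) (s * D.eq C.ζ ^ n) := h
  have hs0 : s ≠ 0 := left_ne_zero_of_mul h1.1
  have hE : Effective (prin X s hs0 * D ^ n) := by
    intro x
    rw [mul_eq, pow_eq]
    exact hs x
  have h2 := inter_eff hX (prin X s hs0 * D ^ n) hE C (by
    rw [mul_eq, pow_eq]
    exact h1)
  rwa [inter_mul hX, inter_prin hX, zero_add, inter_pow hX] at h2

theorem ample_nonneg (hX : IsVar X) (D : Cart X) (hD : Ample D) (C : Curve X) :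
    0 ≤ inter D C := by
  obtain ⟨n, hn, s, hs, hx, -⟩ := hD C.ζ
  have h1 := inter_sec hX D n s hs C hx
  have hn' : (0 : ℤ) < n := by exact_mod_cast hn
  exact (mul_nonneg_iff_of_pos_left hn').1 h1

theorem ample_eff (hX : IsVar X) (D : Cart X) (hD : Ample D) :
    ∃ (n : ℕ) (E : Cart X), 1 ≤ n ∧ Effective E ∧ cl E = (n : ℝ) • cl D := by
  obtain ⟨x⟩ := hX.ne
  obtain ⟨n, hn, s, hs, hx, -⟩ := hD x
  have h1 : Un (X.O x) (s * D.eq x ^ n) := hx
  have hs0 : s ≠ 0 := left_ne_zero_of_mul h1.1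
  refine ⟨n, prin X s hs0 * D ^ n, hn, ?_, ?_⟩
  · intro y
    rw [mul_eq, pow_eq]
    exact hs y
  · rw [cl_mul hX, cl_prin hX, zero_add, cl_pow hX]

end Pool.Agent.H54.RV
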