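import Pool.Agent.H54.RV.B8

/-!
# [H54 RV C1] the cones

* `ampC_cl`, `ampC_add`, `ampC_smul`, `effC_zero`, `effC_add`, `effC_smul`, `effC_cl`: combinations (`Fin.append`, `Fin.sum_univ_add`, `Finset.smul_sum`; for `AmpC` with `Fin (m + 1)` the sum of `m + 1` and `m' + 1` terms has `(m + m' + 1) + 1` terms: `Fin.cast`, or first prove that `v ∈ AmpC` iff there is a nonempty finite type
  `ι` and `c : ι → ℝ`, `D : ι → Cart X` with `v = ∑ c i • cl (D i)`: `Fintype.equivFin`).
* `ampC_effC`: for ample `D`, `cl D = (1/n) • cl E` with `E` effective (`ample_eff`).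
* `nef_nonneg`: for `v ∈ AmpC` the value `v C = ∑ c i * inter (D i) C ≥ 0` (`ample_nonneg`); the evaluation at `C` is continuous on `N1` (subspace topology of the product topology), so it is `≥ 0` on the closure.
* `nef_pointed`: `v` and `-v` nef: `v C = 0` for all `C`, so `v = 0`.
-/

set_option autoImplicit false

namespace Pool.Agent.H54.RV

variable {k K : Type} [Field k] [Field K] [Algebra k K] [IsAlgClosed k] [CharZero k] {X : Mod k K}

private theorem amp_of {ι : Type} [Fintype ι] [Nonempty ι] (c : ι → ℝ) (D : ι → Cart X)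
    (hc : ∀ i, 0 < c i) (hD : ∀ i, Ample (D i)) : ∑ i, c i • cl (D i) ∈ AmpC X := by
  have hcard : Fintype.card ι = (Fintype.card ι - 1) + 1 := by
    have : 0 < Fintype.card ι := Fintype.card_pos
    omega
  obtain ⟨e⟩ : Nonempty (Fin ((Fintype.card ι - 1) + 1) ≃ ι) := by
    rw [← hcard]
    exact ⟨(Fintype.equivFin ι).symm⟩
  exact ⟨Fintype.card ι - 1, fun i => c (e i), fun i => D (e i), fun i => hc _, fun i => hD _,
    (Equiv.sum_comp e fun i => c i • cl (D i)).symm⟩

private theorem eff_of {ι : Type} [Fintype ι] (c : ι → ℝ) (D : ι → Cart X)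
    (hc : ∀ i, 0 ≤ c i) (hD : ∀ i, Effective (D i)) : ∑ i, c i • cl (D i) ∈ EffC X := by
  obtain ⟨e⟩ : Nonempty (Fin (Fintype.card ι) ≃ ι) := ⟨(Fintype.equivFin ι).symm⟩
  exact ⟨Fintype.card ι, fun i => c (e i), fun i => D (e i), fun i => hc _, fun i => hD _,
    (Equiv.sum_comp e fun i => c i • cl (D i)).symm⟩

theorem ampC_cl (D : Cart X) (hD : Ample D) : cl D ∈ AmpC X :=
  ⟨0, fun _ => 1, fun _ => D, fun _ => one_pos, fun _ => hD, by simp⟩

theorem ampC_add (v w : N1 X) (hv : v ∈ AmpC X) (hw : w ∈ AmpC X) : v + w ∈ AmpC X := by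
  obtain ⟨m, c, D, hc, hD, rfl⟩ := hv
  obtain ⟨m', c', D', hc', hD', rfl⟩ := hw
  have h := amp_of (Sum.elim c c') (Sum.elim D D') (by
    rintro (i | i)
    · exact hc i
    · exact hc' i) (by
    rintro (i | i)
    · exact hD i
    · exact hD' i)
  rw [Fintype.sum_sum_type] at h
  exact h

theorem ampC_smul (c : ℝ) (hc : 0 < c) (v : N1 X) (hv : v ∈ AmpC X) : c • v ∈ AmpC X := by
  obtain ⟨m, a, D, ha, hD, rfl⟩ := hv
  refine ⟨m, fun i => c * a i, D, fun i => mul_pos hc (ha i), hD, ?_⟩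
  rw [Finset.smul_sum]
  exact Finset.sum_congr rfl fun i _ => smul_smul _ _ _

theorem effC_zero : (0 : N1 X) ∈ EffC X :=
  ⟨0, fun _ => 0, fun i => i.elim0, fun i => i.elim0, fun i => i.elim0, by simp⟩

theorem effC_cl (D : Cart X) (hD : Effective D) : cl D ∈ EffC X :=
  ⟨1, fun _ => 1, fun _ => D, fun _ => zero_le_one, fun _ => hD, by simp⟩

theorem effC_add (v w : N1 X) (hv : v ∈ EffC X) (hw : w ∈ EffC X) : v + w ∈ EffC X := by
  obtain ⟨m, c, D, hc, hD, rfl⟩ := hv
  obtain ⟨m', c', D', hc', hD', rfl⟩ := hw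
  have h := eff_of (Sum.elim c c') (Sum.elim D D') (by
    rintro (i | i)
    · exact hc i
    · exact hc' i) (by
    rintro (i | i)
    · exact hD i
    · exact hD' i)
  rw [Fintype.sum_sum_type] at h
  exact h

theorem effC_smul (c : ℝ) (hc : 0 ≤ c) (v : N1 X) (hv : v ∈ EffC X) : c • v ∈ EffC X := by
  obtain ⟨m, a, D, ha, hD, rfl⟩ := hv
  refine ⟨m, fun i => c * a i, D, fun i => mul_nonneg hc (ha i), hD, ?_⟩
  rw [Finset.smul_sum]
  exact Finset.sum_congr rfl fun i _ => smul_smul _ _ _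

theorem ampC_effC (hX : IsVar X) : AmpC X ⊆ EffC X := by
  rintro _ ⟨m, a, D, ha, hD, rfl⟩
  choose n E hn hE hcl using fun i => ample_eff hX (D i) (hD i)
  have hn' : ∀ i, (0 : ℝ) < n i := fun i => by exact_mod_cast hn i
  refine ⟨m + 1, fun i => a i / n i, E, fun i => div_nonneg (ha i).le (hn' i).le, hE, ?_⟩
  refine Finset.sum_congr rfl fun i _ => ?_
  rw [hcl i, smul_smul, div_mul_cancel₀ _ (hn' i).ne']

theorem nef_nonneg (hX : IsVar X) (v : N1 X) (hv : v ∈ NefC X) (C : Curve X) :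
    0 ≤ v.fn C := by
  have hcl : IsClosed {w : N1 X | 0 ≤ w.fn C} := isClosed_le continuous_const (fn_cont C)
  have hsub : AmpC X ⊆ {w : N1 X | 0 ≤ w.fn C} := by
    rintro _ ⟨m, a, D, ha, hD, rfl⟩
    change 0 ≤ (∑ i, a i • cl (D i) : N1 X).fn C
    rw [fn_sum]
    refine Finset.sum_nonneg fun i _ => ?_
    rw [fn_smul, cl_fn]
    exact mul_nonneg (ha i).le (by exact_mod_cast ample_nonneg hX (D i) (hD i) C)
  exact closure_minimal hsub hcl hv

theorem nef_pointed (hX : IsVar X) (v : N1 X) (hv : v ∈ NefC X) (hv' : -v ∈ NefC X) : v = 0 := by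
  refine N1.ext' fun C => ?_
  have h1 := nef_nonneg hX v hv C
  have h2 := nef_nonneg hX (-v) hv' C
  rw [fn_neg] at h2
  rw [fn_zero]
  linarith

end Pool.Agent.H54.RV
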