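import Pool.Agent.H54.RV.C1
import Pool.Agent.H54.RV.B10

/-!
# [H54 RV C2] the ample cone is open

`N1` is spanned by the classes `cl B`; finite dimension: choose a basis `cl (B j)`, `j < n` (`Module.Basis.extend`-type lemma: a spanning set contains a basis; or `Submodule.fg_span_iff`/`exists_linearIndependent`).  Let `v = ∑ c i • cl (D i) ∈ AmpC`, `L = D 0`.  `ample_add` for `L` and `B j`, `(B j)⁻¹`: `m j`, `m' j ≥ 1` with `L^(m j) * B j`,
`L^(m' j) * (B j)⁻¹` ample (`cl (L^m * B) = m • cl L + cl B`).  For `y = ∑ y j • cl (B j)` with `∑ |y j| (m j + m' j) < c 0`: `v + y = (c 0 - ∑_j |y j| M j) • cl L + ∑_{i > 0} c i • cl (D i) + ∑_j |y j| • cl (A j)` with `A j = L^(m j) * B j`, `M j = m j` if `y j ≥ 0` and `A j = L^(m' j) * (B j)⁻¹`, `M j = m' j` if `y j < 0`: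
in `AmpC` (`ampC_add`, `ampC_smul`; terms with `y j = 0` are left out).  The set of these `y` is a neighbourhood of `0`: the coordinates of the basis are continuous (`LinearMap.continuous_of_finiteDimensional`; `N1 X` is a Hausdorff topological vector space).
-/

set_option autoImplicit false

namespace Pool.Agent.H54.RV

variable {k K : Type} [Field k] [Field K] [Algebra k K] [IsAlgClosed k] [CharZero k] {X : Mod k K}

private theorem c2_conv : Convex ℝ (AmpC X) := by
  intro v hv w hw a b ha hb hab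
  rcases ha.eq_or_lt with h | ha'
  · rw [← h, zero_add] at hab
    rw [← h, hab, zero_smul, one_smul, zero_add]
    exact hw
  rcases hb.eq_or_lt with h | hb'
  · rw [← h, add_zero] at hab
    rw [← h, hab, zero_smul, one_smul, add_zero]
    exact hv
  exact ampC_add _ _ (ampC_smul a ha' v hv) (ampC_smul b hb' w hw)

private theorem c2_one (hX : IsVar X) (v : N1 X) (hv : v ∈ AmpC X) (B : Cart X) :
    ∃ ε : ℝ, 0 < ε ∧ v + ε • cl B ∈ AmpC X := by
  obtain ⟨m, c, D, hc, hD, rfl⟩ := hv
  obtain ⟨q, hq, hA⟩ := ample_add hX (D 0) B (hD 0)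
  have hq' : (0 : ℝ) < q := by exact_mod_cast hq
  have h0 := hc 0
  refine ⟨c 0 / (2 * q), by positivity, ?_⟩
  set ε := c 0 / (2 * q) with hε
  have hε0 : 0 < ε := by positivity
  have hεq : ε * q = c 0 / 2 := by
    rw [hε]
    field_simp
  have h1 : (∑ i, c i • cl (D i)) + ε • cl B =
      (∑ i, (if i = 0 then c 0 / 2 else c i) • cl (D i)) + ε • cl (D 0 ^ q * B) := by
    rw [cl_mul hX, cl_pow hX, smul_add, smul_smul, hεq]
    rw [Fin.sum_univ_succ, Fin.sum_univ_succ (f := fun i => (if i = 0 then c 0 / 2 else c i) •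
      cl (D i))]
    have e : ∀ i : Fin m, (if i.succ = 0 then c 0 / 2 else c i.succ) = c i.succ := fun i =>
      if_neg (Fin.succ_ne_zero i)
    simp only [e, if_true]
    have e2 : c 0 • cl (D 0) = (c 0 / 2) • cl (D 0) + (c 0 / 2) • cl (D 0) := by
      rw [← add_smul, add_halves]
    rw [e2]
    abel
  rw [h1]
  refine ampC_add _ _ ⟨m, _, D, fun i => ?_, hD, rfl⟩ (ampC_smul ε hε0 _ (ampC_cl _ hA))
  split_ifs
  · linarith
  · exact hc i

private theorem c2_seg (v u : N1 X) (ε t : ℝ) (hε : 0 < ε) (hv : v ∈ AmpC X)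
    (h : v + ε • u ∈ AmpC X) (ht : 0 ≤ t) (htε : t ≤ ε) : v + t • u ∈ AmpC X := by
  have h1 := c2_conv hv h (a := 1 - t / ε) (b := t / ε)
    (by have := (div_le_one hε).2 htε; linarith) (by positivity) (by ring)
  have e : (1 - t / ε) • v + (t / ε) • (v + ε • u) = v + t • u := by
    rw [smul_add, smul_smul, div_mul_cancel₀ _ hε.ne', ← add_assoc, ← add_smul]
    congr 1
    rw [sub_add_cancel, one_smul]
  rwa [e] at h1

private theorem c2_dir (hX : IsVar X) (v : N1 X) (hv : v ∈ AmpC X) (u : N1 X) :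
    ∃ ε : ℝ, 0 < ε ∧ ∀ t : ℝ, |t| ≤ ε → v + t • u ∈ AmpC X := by
  have hu : u ∈ Submodule.span ℝ (Set.range (cl (X := X))) := by
    rw [span_cl]
    trivial
  induction hu using Submodule.span_induction with
  | mem u hu =>
    obtain ⟨B, rfl⟩ := hu
    obtain ⟨ε₁, h1, h1'⟩ := c2_one hX v hv B
    obtain ⟨ε₂, h2, h2'⟩ := c2_one hX v hv B⁻¹
    refine ⟨min ε₁ ε₂, lt_min h1 h2, fun t ht => ?_⟩
    rcases le_total 0 t with h | h
    · rw [abs_of_nonneg h] at ht
      exact c2_seg v _ ε₁ t h1 hv h1' h (ht.trans (min_le_left _ _))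
    · rw [abs_of_nonpos h] at ht
      have := c2_seg v _ ε₂ (-t) h2 hv h2' (by linarith) (ht.trans (min_le_right _ _))
      rwa [cl_inv hX, smul_neg, neg_smul, neg_neg] at this
  | zero => exact ⟨1, one_pos, fun t _ => by rw [smul_zero, add_zero]; exact hv⟩
  | add u w _ _ h1 h2 =>
    obtain ⟨ε₁, h1, h1'⟩ := h1
    obtain ⟨ε₂, h2, h2'⟩ := h2
    refine ⟨min ε₁ ε₂ / 2, by have := lt_min h1 h2; linarith, fun t ht => ?_⟩
    have ht2 : |2 * t| ≤ min ε₁ ε₂ := by
      rw [abs_mul, abs_of_pos (by norm_num : (0 : ℝ) < 2)]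
      linarith
    have h3 := c2_conv (h1' (2 * t) (ht2.trans (min_le_left _ _)))
      (h2' (2 * t) (ht2.trans (min_le_right _ _))) (a := 1 / 2) (b := 1 / 2)
      (by norm_num) (by norm_num) (by norm_num)
    have e : (1 / 2 : ℝ) • (v + (2 * t) • u) + (1 / 2 : ℝ) • (v + (2 * t) • w) =
        v + t • (u + w) := by
      module
    rwa [e] at h3
  | smul c u _ h1 =>
    obtain ⟨ε, h1, h1'⟩ := h1
    refine ⟨ε / (|c| + 1), by positivity, fun t ht => ?_⟩
    rw [smul_smul]
    refine h1' _ ?_
    rw [abs_mul]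
    rw [le_div_iff₀ (by positivity)] at ht
    nlinarith [abs_nonneg t, abs_nonneg c]

theorem ampC_open (hX : IsVar X) [FiniteDimensional ℝ (N1 X)] : IsOpen (AmpC X) := by
  rw [isOpen_iff_mem_nhds]
  intro v hv
  let b := Module.finBasis ℝ (N1 X)
  set n := Module.finrank ℝ (N1 X)
  choose ε hε h using fun j => c2_dir hX v hv (b j)
  have hcont : ∀ j, Continuous fun w : N1 X => b.coord j (w - v) := fun j =>
    ((b.coord j).continuous_of_finiteDimensional).comp (continuous_id.sub continuous_const)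
  have hW : (⋂ j, {w : N1 X | |b.coord j (w - v)| < ε j / (n + 1)}) ∈ nhds v := by
    rw [Filter.iInter_mem]
    intro j
    refine (isOpen_lt (continuous_abs.comp (hcont j)) continuous_const).mem_nhds ?_
    have : 0 < ε j / ((n : ℝ) + 1) := div_pos (hε j) (by positivity)
    simpa using this
  refine Filter.mem_of_superset hW fun w hw => ?_
  rw [Set.mem_iInter] at hw
  have hn : (0 : ℝ) < (n : ℝ) + 1 := by positivity
  have h1 := c2_conv (X := X).sum_mem (t := Finset.univ)
    (w := fun _ : Option (Fin n) => 1 / ((n : ℝ) + 1))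
    (z := fun o => o.elim v fun j => v + ((n + 1) * b.coord j (w - v)) • b j)
    (fun _ _ => by positivity) (by
      rw [Finset.sum_const, Finset.card_univ, Fintype.card_option, Fintype.card_fin, nsmul_eq_mul]
      push_cast
      field_simp) (by
      rintro (_ | j) _
      · exact hv
      · refine h j _ ?_
        have := hw j
        rw [Set.mem_ofPred_eq, lt_div_iff₀ hn] at this
        rw [abs_mul, abs_of_pos hn]
        linarith)
  have e : (∑ o : Option (Fin n), (1 / ((n : ℝ) + 1)) •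
      (o.elim v fun j => v + ((n + 1) * b.coord j (w - v)) • b j : N1 X)) = w := by
    rw [Fintype.sum_option]
    simp only [Option.elim_none, Option.elim_some]
    have e1 : ∀ j, (1 / ((n : ℝ) + 1)) • (v + ((n + 1) * b.coord j (w - v)) • b j) =
        (1 / ((n : ℝ) + 1)) • v + b.repr (w - v) j • b j := by
      intro j
      rw [smul_add, smul_smul]
      congr 2
      rw [Module.Basis.coord_apply]
      field_simp
    rw [Finset.sum_congr rfl fun j _ => e1 j, Finset.sum_add_distrib, b.sum_repr,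
      Finset.sum_const, Finset.card_univ, Fintype.card_fin, ← Nat.cast_smul_eq_nsmul ℝ, smul_smul,
      ← add_assoc, ← add_smul]
    have e2 : 1 / ((n : ℝ) + 1) + (n : ℝ) * (1 / ((n : ℝ) + 1)) = 1 := by field_simp; ring
    rw [e2, one_smul, add_sub_cancel]
  rwa [e] at h1

end Pool.Agent.H54.RV
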