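import Pool.Agent.H54.RV.B7

/-!
# [H54 RV C3] the lattice and curves which separate the points of `N1`

* `mem_Lat`: the classes `cl D` form a subgroup (`cl_mul`, `cl_inv`, `cl_one`); `AddSubgroup.closure_induction`.
* `lat_int`: the values of a lattice vector are integers (`mem_Lat`, `inter` is an integer).
* `exists_curves`: `N1 X` is a finite dimensional space of functions on the set of the curves: there are curves `C_i`, `i < n = finrank`, such that `ev : N1 X → ℝ^n`, `v ↦ (v (C_i))_i` is bijective.  Proof: the evaluations `e_C : N1 X →ₗ ℝ` span the dual space `Module.Dual ℝ (N1 X)` (their common kernel is `0`: `Subspace.dualCoannihilator` /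
  `Subspace.dualAnnihilator_dualCoannihilator_eq`; finite dimension), so they contain a basis (`exists_linearIndependent`, `Module.Basis.ofSpan` or similar), which has `n` elements (`Subspace.dual_finrank_eq`); `ev` is injective (a vector killed by a basis of the dual is `0`), hence bijective (`LinearMap.injective_iff_surjective_of_finrank_eq_finrank`).
  (Or by induction: while the common kernel of the chosen evaluations is not `0`, choose a curve at which some element of the kernel is not `0`; the dimension of the kernel drops by `1`.)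
-/

set_option autoImplicit false

namespace Pool.Agent.H54.RV

variable {k K : Type} [Field k] [Field K] [Algebra k K] {X : Mod k K}

theorem mem_Lat [IsAlgClosed k] [CharZero k] (hX : IsVar X) (v : N1 X) :
    v ∈ Lat X ↔ ∃ D : Cart X, cl D = v := by
  constructor
  · intro h
    refine AddSubgroup.closure_induction (p := fun v _ => ∃ D : Cart X, cl D = v) ?_ ?_ ?_ ?_ h
    · rintro _ ⟨D, rfl⟩
      exact ⟨D, rfl⟩
    · exact ⟨1, cl_one hX⟩
    · rintro _ _ _ _ ⟨D, rfl⟩ ⟨E, rfl⟩
      exact ⟨D * E, cl_mul hX D E⟩
    · rintro _ _ ⟨D, rfl⟩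
      exact ⟨D⁻¹, cl_inv hX D⟩
  · rintro ⟨D, rfl⟩
    exact AddSubgroup.subset_closure ⟨D, rfl⟩

theorem lat_int [IsAlgClosed k] [CharZero k] (hX : IsVar X) (v : N1 X) (hv : v ∈ Lat X)
    (C : Curve X) : ∃ m : ℤ, v.fn C = m := by
  obtain ⟨D, rfl⟩ := (mem_Lat hX v).1 hv
  exact ⟨inter D C, cl_fn D C⟩

/-- the evaluation at a curve -/
private noncomputable def evC (C : Curve X) : Module.Dual ℝ (N1 X) := evL C

theorem exists_curves [FiniteDimensional ℝ (N1 X)] :
    ∃ C : Fin (Module.finrank ℝ (N1 X)) → Curve X,
      Function.Bijective (fun (v : N1 X) (i : Fin (Module.finrank ℝ (N1 X))) =>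
        v.fn (C i)) := by
  classical
  obtain ⟨b, hb, hspan, hli⟩ := exists_linearIndependent ℝ (Set.range (evC (X := X)))
  have hfin : b.Finite := hli.setFinite
  haveI : Fintype b := hfin.fintype
  choose c hc using fun f : b => hb f.2
  have hinj : ∀ v : N1 X, (∀ f : b, v.fn (c f) = 0) → v = 0 := by
    intro v hv
    have h1 : ∀ f ∈ Submodule.span ℝ b, f v = 0 := by
      intro f hf
      induction hf using Submodule.span_induction with
      | mem f hf =>
        have h2 := hv ⟨f, hf⟩
        have h3 := hc ⟨f, hf⟩
        have h4 : f v = evC (c ⟨f, hf⟩) v := by rw [h3]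
        rw [h4]
        exact h2
      | zero => rfl
      | add f g _ _ hf hg => rw [LinearMap.add_apply, hf, hg, add_zero]
      | smul a f _ hf => rw [LinearMap.smul_apply, hf, smul_zero]
    refine N1.ext' fun C => ?_
    have h2 : evC C ∈ Submodule.span ℝ b := by
      rw [hspan]
      exact Submodule.subset_span ⟨C, rfl⟩
    exact h1 _ h2
  have hcard1 : Fintype.card b ≤ Module.finrank ℝ (N1 X) := by
    have := hli.fintype_card_le_finrank
    rwa [Subspace.dual_finrank_eq] at this
  let L : N1 X →ₗ[ℝ] (b → ℝ) := LinearMap.pi fun f => evC (c f)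
  have hL : Function.Injective L := by
    rw [← LinearMap.ker_eq_bot, LinearMap.ker_eq_bot']
    intro v hv
    exact hinj v fun f => congrFun hv f
  have hcard2 : Module.finrank ℝ (N1 X) ≤ Fintype.card b := by
    have := LinearMap.finrank_le_finrank_of_injective hL
    rwa [Module.finrank_fintype_fun_eq_card] at this
  have hcard : Fintype.card b = Module.finrank ℝ (N1 X) := le_antisymm hcard1 hcard2
  let e : b ≃ Fin (Module.finrank ℝ (N1 X)) := Fintype.equivFinOfCardEq hcard
  refine ⟨fun i => c (e.symm i), ?_⟩
  let M : N1 X →ₗ[ℝ] (Fin (Module.finrank ℝ (N1 X)) → ℝ) :=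
    LinearMap.pi fun i => evC (c (e.symm i))
  have hM : Function.Injective M := by
    rw [← LinearMap.ker_eq_bot, LinearMap.ker_eq_bot']
    intro v hv
    refine hinj v fun f => ?_
    have := congrFun hv (e f)
    have h2 : M v (e f) = v.fn (c (e.symm (e f))) := rfl
    rw [h2, e.symm_apply_apply] at this
    exact this
  have hrank : Module.finrank ℝ (N1 X) =
      Module.finrank ℝ (Fin (Module.finrank ℝ (N1 X)) → ℝ) := by
    rw [Module.finrank_fintype_fun_eq_card, Fintype.card_fin]
  have hsurj : Function.Surjective M :=
    (LinearMap.injective_iff_surjective_of_finrank_eq_finrank hrank).1 hM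
  exact ⟨hM, hsurj⟩

end Pool.Agent.H54.RV
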