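import Pool.Agent.H54.RV.C3
import Pool.Agent.H54.RV.Act

/-!
# [H54 RV C4] bases of the lattice

Let `n = finrank ℝ (N1 X)` and `ev : N1 X → ℝ^n` the evaluation at the curves of `exists_curves`, a linear isomorphism.
* `lat_basis`: `L = ev(Lat)` as a `ℤ`-submodule of `Fin n → ℝ` is contained in the lattice of the integral vectors (`lat_int`), so discrete (`span ℤ (range (Pi.basisFun ℝ (Fin n)))` has discrete topology: instance in `Mathlib/Algebra/Module/ZLattice/Basic.lean`; a subset of a discrete subspace is discrete),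
  and it spans `ℝ^n` (the classes `cl D` span `N1`): `IsZLattice ℝ L`.  `ZLattice.module_free`, `ZLattice.module_finite`, `ZLattice.rank`: `L` is free of rank `n` (`Module.finBasisOfFinrankEq`), and `Lat ≃ L` as additive groups.
* `pt_bij`: for a `ℤ`-basis `b` of `Lat X`: `ev ∘ b` is a `ℤ`-basis of `L`, hence an `ℝ`-basis of `ℝ^n` (`Module.Basis.ofZLatticeBasis`), so `b` is an `ℝ`-basis of `N1 X`, and `pt b` is `x ↦ ∑ x i • b i`.
* `ptL`: the linear equivalence; `ptH`: a homeomorphism (both spaces are finite dimensional Hausdorff topological vector spaces: `LinearEquiv.toContinuousLinearEquiv`).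
-/

set_option autoImplicit false

namespace Pool.Agent.H54.RV

variable {k K : Type} [Field k] [Field K] [Algebra k K] [IsAlgClosed k] [CharZero k] {X : Mod k K}

omit [IsAlgClosed k] [CharZero k] in
/-- evaluation at curves which separate the points -/
private theorem c4_ev [FiniteDimensional ℝ (N1 X)] :
    ∃ (C : Fin (Module.finrank ℝ (N1 X)) → Curve X)
      (ev : N1 X ≃ₗ[ℝ] (Fin (Module.finrank ℝ (N1 X)) → ℝ)),
      ∀ v i, ev v i = N1.fn v (C i) := by
  obtain ⟨C, hC⟩ := exists_curves (X := X)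
  let e : N1 X →ₗ[ℝ] (Fin (Module.finrank ℝ (N1 X)) → ℝ) :=
    { toFun := fun v i => v.fn (C i)
      map_add' := fun v w => rfl
      map_smul' := fun c v => rfl }
  exact ⟨C, LinearEquiv.ofBijective e hC, fun v i => rfl⟩

/-- the lattice in the coordinates -/
private noncomputable def c4_L {m : ℕ} (ev : N1 X ≃ₗ[ℝ] (Fin m → ℝ)) :
    Submodule ℤ (Fin m → ℝ) :=
  (AddSubgroup.toIntSubmodule (Lat X)).map (ev.toLinearMap.restrictScalars ℤ)

omit [IsAlgClosed k] [CharZero k] in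
private theorem c4_mem {m : ℕ} (ev : N1 X ≃ₗ[ℝ] (Fin m → ℝ)) (w : Fin m → ℝ) :
    w ∈ c4_L ev ↔ ∃ v ∈ Lat X, ev v = w := Iff.rfl

private theorem c4_le (hX : IsVar X) {m : ℕ} (C : Fin m → Curve X)
    (ev : N1 X ≃ₗ[ℝ] (Fin m → ℝ)) (h : ∀ v i, ev v i = N1.fn v (C i)) :
    c4_L ev ≤ Submodule.span ℤ (Set.range (Pi.basisFun ℝ (Fin m))) := by
  intro w hw
  obtain ⟨v, hv, rfl⟩ := (c4_mem ev w).1 hw
  rw [Module.Basis.mem_span_iff_repr_mem]
  intro i
  obtain ⟨z, hz⟩ := lat_int hX v hv (C i)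
  refine ⟨z, ?_⟩
  rw [Pi.basisFun_repr, h, hz]
  rfl

private theorem c4_disc (hX : IsVar X) {m : ℕ} (C : Fin m → Curve X)
    (ev : N1 X ≃ₗ[ℝ] (Fin m → ℝ)) (h : ∀ v i, ev v i = N1.fn v (C i)) :
    DiscreteTopology (c4_L ev) := by
  have h1 : DiscreteTopology (Submodule.span ℤ (Set.range (Pi.basisFun ℝ (Fin m)))) :=
    inferInstance
  have h2 : ((c4_L ev : Submodule ℤ (Fin m → ℝ)) : Set (Fin m → ℝ)) ⊆
    (Submodule.span ℤ (Set.range (Pi.basisFun ℝ (Fin m))) : Set (Fin m → ℝ)) := c4_le hX C ev h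
  exact DiscreteTopology.of_subset h1 h2

omit [IsAlgClosed k] [CharZero k] in
private theorem c4_lat {m : ℕ}
    (ev : N1 X ≃ₗ[ℝ] (Fin m → ℝ)) : Submodule.span ℝ (c4_L ev : Set (Fin m → ℝ)) = ⊤ := by
  have h1 : Submodule.span ℝ (Set.range (cl (X := X))) = ⊤ := span_cl
  have h4 : ev '' Set.range (cl (X := X)) ⊆ (c4_L ev : Set (Fin m → ℝ)) := by
    rintro _ ⟨_, ⟨D, rfl⟩, rfl⟩
    exact (c4_mem ev _).2 ⟨cl D, AddSubgroup.subset_closure ⟨D, rfl⟩, rfl⟩
  rw [← top_le_iff]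
  calc (⊤ : Submodule ℝ (Fin m → ℝ)) = Submodule.map ev.toLinearMap ⊤ := by
        rw [Submodule.map_top, LinearEquiv.range]
    _ = Submodule.map ev.toLinearMap (Submodule.span ℝ (Set.range (cl (X := X)))) := by rw [h1]
    _ = Submodule.span ℝ (ev '' Set.range (cl (X := X))) := by
        rw [← Submodule.span_image]
        rfl
    _ ≤ _ := Submodule.span_mono h4

private noncomputable def c4_equiv {m : ℕ} (ev : N1 X ≃ₗ[ℝ] (Fin m → ℝ)) :
    Lat X ≃ₗ[ℤ] c4_L ev :=
  ((AddSubgroup.toIntSubmodule (Lat X)).equivMapOfInjective (ev.toLinearMap.restrictScalars ℤ)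
    ev.injective)

omit [IsAlgClosed k] [CharZero k] in
private theorem c4_equiv_apply {m : ℕ} (ev : N1 X ≃ₗ[ℝ] (Fin m → ℝ)) (v : Lat X) :
    (c4_equiv ev v : Fin m → ℝ) = ev (v : N1 X) := rfl

theorem lat_basis (hX : IsVar X) [FiniteDimensional ℝ (N1 X)] :
    Nonempty (Module.Basis (Fin (Module.finrank ℝ (N1 X))) ℤ (Lat X)) := by
  obtain ⟨C, ev, h⟩ := c4_ev (X := X)
  have := c4_disc hX C ev h
  have : IsZLattice ℝ (c4_L ev) := ⟨c4_lat ev⟩
  have := ZLattice.module_free ℝ (c4_L ev)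
  have := ZLattice.module_finite ℝ (c4_L ev)
  have hr := ZLattice.rank ℝ (c4_L ev)
  rw [Module.finrank_fin_fun] at hr
  exact ⟨(Module.finBasisOfFinrankEq ℤ (c4_L ev) hr).map (c4_equiv ev).symm⟩

theorem pt_bij (hX : IsVar X) [FiniteDimensional ℝ (N1 X)] {n : ℕ}
    (b : Module.Basis (Fin n) ℤ (Lat X)) : Function.Bijective (pt b) := by
  obtain ⟨C, ev, h⟩ := c4_ev (X := X)
  have := c4_disc hX C ev h
  have : IsZLattice ℝ (c4_L ev) := ⟨c4_lat ev⟩
  set B := (b.map (c4_equiv ev)).ofZLatticeBasis ℝ (c4_L ev) with hB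
  have h1 : ∀ x, ev (pt b x) = B.equivFun.symm x := by
    intro x
    rw [Module.Basis.equivFun_symm_apply]
    unfold pt
    rw [map_sum]
    refine Finset.sum_congr rfl fun i _ => ?_
    rw [map_smul, hB, Module.Basis.ofZLatticeBasis_apply, Module.Basis.map_apply, c4_equiv_apply]
  have h2 : pt b = ev.symm ∘ B.equivFun.symm := by
    funext x
    rw [Function.comp_apply, ← h1, LinearEquiv.symm_apply_apply]
  rw [h2]
  exact ev.symm.bijective.comp B.equivFun.symm.bijective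

omit [IsAlgClosed k] [CharZero k] in
theorem pt_add {n : ℕ} (b : Module.Basis (Fin n) ℤ (Lat X)) (x y : Fin n → ℝ) :
    pt b (x + y) = pt b x + pt b y := by
  unfold pt
  rw [← Finset.sum_add_distrib]
  exact Finset.sum_congr rfl fun i _ => by rw [Pi.add_apply, add_smul]

omit [IsAlgClosed k] [CharZero k] in
theorem pt_smul {n : ℕ} (b : Module.Basis (Fin n) ℤ (Lat X)) (c : ℝ) (x : Fin n → ℝ) :
    pt b (c • x) = c • pt b x := by
  unfold pt
  rw [Finset.smul_sum]
  exact Finset.sum_congr rfl fun i _ => by rw [Pi.smul_apply, smul_eq_mul, mul_smul]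

theorem pt_homeo (hX : IsVar X) [FiniteDimensional ℝ (N1 X)] {n : ℕ}
    (b : Module.Basis (Fin n) ℤ (Lat X)) : IsHomeomorph (pt b) :=
  (LinearEquiv.ofBijective
    ({ toFun := pt b
       map_add' := pt_add b
       map_smul' := pt_smul b } : (Fin n → ℝ) →ₗ[ℝ] N1 X)
    (pt_bij hX b)).toContinuousLinearEquiv.toHomeomorph.isHomeomorph

/-- the points with integral coordinates are the integral classes -/
theorem pt_int (hX : IsVar X) {n : ℕ} (b : Module.Basis (Fin n) ℤ (Lat X)) (s : Fin n → ℤ) :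
    ∃ D : Cart X, cl D = pt b (fun i => (s i : ℝ)) := by
  refine (mem_Lat hX _).1 ?_
  unfold pt
  refine AddSubgroup.sum_mem _ fun i _ => ?_
  have e : (s i : ℝ) • (b i : N1 X) = s i • (b i : N1 X) :=
    Int.cast_smul_eq_zsmul ℝ (s i) (b i : N1 X)
  change (s i : ℝ) • (b i : N1 X) ∈ Lat X
  rw [e]
  exact AddSubgroup.zsmul_mem _ (b i).2 _

theorem int_pt (hX : IsVar X) {n : ℕ} (b : Module.Basis (Fin n) ℤ (Lat X)) (D : Cart X) :
    ∃ s : Fin n → ℤ, cl D = pt b (fun i => (s i : ℝ)) := by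
  have hD : cl D ∈ Lat X := AddSubgroup.subset_closure ⟨D, rfl⟩
  refine ⟨b.equivFun ⟨cl D, hD⟩, ?_⟩
  have h := congrArg (fun v : Lat X => (v : N1 X)) (b.sum_equivFun ⟨cl D, hD⟩)
  simp only at h
  refine h.symm.trans ?_
  unfold pt
  rw [AddSubgroup.val_finsetSum]
  refine Finset.sum_congr rfl fun i _ => ?_
  exact (Int.cast_smul_eq_zsmul ℝ _ _).symm

end Pool.Agent.H54.RV
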