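import Pool.Agent.H54.RV.C4
import Pool.Agent.H54.RV.C2
import Pool.Agent.H57.KM.Basic

/-!
# [H54 RV C5] the cones in the coordinates of a basis of the lattice

`pt b` is a linear homeomorphism (`pt_add`, `pt_smul`, `pt_homeo`), so preimages of closures are closures of preimages.
* `isAmp_ampR`: nonempty (an ample `D` exists, `pt_bij` surjective), open (`ampC_open`), closed under sums and positive multiples (`ampC_add`, `ampC_smul`), pointed closure (`nef_pointed`).
* `cl_ampR`: `x ∈ closure (ampR b) ↔ pt b x ∈ NefC X`.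
* `rat_pt`: `pt b x ∈ RatC X ↔ ∃ q, x = qR q`: `m • pt b x = cl D = pt b s` (`int_pt`) iff `x = s / m`; conversely a common denominator (`pt_int`; e.g. the product of the denominators).
* `nef_effR`: the hypothesis in the coordinates: the preimage of the convex hull under a linear bijection is the convex hull of the preimage (`LinearMap.image_convexHull` or similar).
-/

set_option autoImplicit false

namespace Pool.Agent.H54.RV

open Pool.Agent.H57.KM

variable {k K : Type} [Field k] [Field K] [Algebra k K] [IsAlgClosed k] [CharZero k] {X : Mod k K}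

theorem cl_ampR (hX : IsVar X) [FiniteDimensional ℝ (N1 X)] {n : ℕ}
    (b : Module.Basis (Fin n) ℤ (Lat X)) (x : V n) : x ∈ closure (ampR b) ↔ pt b x ∈ NefC X := by
  have hh := pt_homeo hX b
  have h1 := hh.isOpenMap.preimage_closure_eq_closure_preimage hh.continuous (AmpC X)
  have h2 : ampR b = pt b ⁻¹' AmpC X := rfl
  rw [h2, ← h1]
  rfl

theorem isAmp_ampR (hX : IsVar X) [FiniteDimensional ℝ (N1 X)] (hA : ∃ D : Cart X, Ample D)
    {n : ℕ} (b : Module.Basis (Fin n) ℤ (Lat X)) : IsAmp (ampR b) := by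
  have hh := pt_homeo hX b
  refine ⟨?_, ?_, ?_, ?_, ?_⟩
  · obtain ⟨D, hD⟩ := hA
    obtain ⟨x, hx⟩ := (pt_bij hX b).2 (cl D)
    refine ⟨x, ?_⟩
    show pt b x ∈ AmpC X
    rw [hx]
    exact ampC_cl D hD
  · exact (ampC_open hX).preimage hh.continuous
  · intro x hx y hy
    show pt b (x + y) ∈ AmpC X
    rw [pt_add]
    exact ampC_add _ _ hx hy
  · intro c hc x hx
    show pt b (c • x) ∈ AmpC X
    rw [pt_smul]
    exact ampC_smul c hc _ hx
  · intro x hx hx'
    rw [cl_ampR hX b] at hx hx'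
    have h4 : pt b (0 : Fin n → ℝ) = 0 := by
      have h2 := pt_add b 0 (0 : Fin n → ℝ)
      rw [add_zero] at h2
      exact left_eq_add.1 h2
    have h1 : pt b (-x) = - pt b x := by
      have h2 := pt_add b x (-x)
      rw [add_neg_cancel, h4] at h2
      exact (neg_eq_of_add_eq_zero_right h2.symm).symm
    rw [h1] at hx'
    have h3 := nef_pointed hX _ hx hx'
    exact (pt_bij hX b).1 (h3.trans h4.symm)

theorem rat_pt (hX : IsVar X) [FiniteDimensional ℝ (N1 X)] {n : ℕ}
    (b : Module.Basis (Fin n) ℤ (Lat X)) (x : V n) :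
    pt b x ∈ RatC X ↔ ∃ q : Fin n → ℚ, x = qR q := by
  constructor
  · rintro ⟨m, D, hm, h⟩
    obtain ⟨s, hs⟩ := int_pt hX b D
    rw [hs, ← pt_smul] at h
    have h1 := (pt_bij hX b).1 h
    refine ⟨fun i => (s i : ℚ) / m, funext fun i => ?_⟩
    have h2 : (m : ℝ) * x i = (s i : ℝ) := congrFun h1 i
    have hm0 : (m : ℝ) ≠ 0 := by
      have : 0 < m := hm
      positivity
    show x i = (((s i : ℚ) / m : ℚ) : ℝ)
    push_cast
    rw [eq_div_iff hm0, mul_comm]
    exact h2
  · rintro ⟨q, rfl⟩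
    obtain ⟨d, hd⟩ : ∃ d : ℕ, d = ∏ i, (q i).den := ⟨_, rfl⟩
    have hd0 : 0 < d := by
      rw [hd]
      exact Finset.prod_pos (fun i _ => (q i).den_pos)
    have h1 : ∀ i, ∃ z : ℤ, (z : ℚ) = (d : ℚ) * q i := by
      intro i
      obtain ⟨e, he⟩ : (q i).den ∣ d := by
        rw [hd]
        exact Finset.dvd_prod_of_mem _ (Finset.mem_univ i)
      refine ⟨(e : ℤ) * (q i).num, ?_⟩
      have h2 : q i * (q i).den = (q i).num := Rat.mul_den_eq_num (q i)
      rw [he]
      push_cast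
      rw [← h2]
      ring
    choose z hz using h1
    obtain ⟨D, hD⟩ := pt_int hX b z
    refine ⟨d, D, hd0, ?_⟩
    rw [hD, ← pt_smul]
    congr 1
    funext i
    show (d : ℝ) * ((q i : ℚ) : ℝ) = (z i : ℝ)
    have h3 : ((z i : ℚ) : ℝ) = (((d : ℚ) * q i : ℚ) : ℝ) := by rw [hz i]
    push_cast at h3
    exact h3.symm

theorem nef_effR (hX : IsVar X) [FiniteDimensional ℝ (N1 X)]
    (hN : NefC X ∩ EffC X ⊆ convexHull ℝ (NefC X ∩ RatC X)) {n : ℕ}
    (b : Module.Basis (Fin n) ℤ (Lat X)) :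
    closure (ampR b) ∩ effR b ⊆
      convexHull ℝ {x | x ∈ closure (ampR b) ∧ ∃ q : Fin n → ℚ, x = qR q} := by
  rintro x ⟨hx1, hx2⟩
  rw [cl_ampR hX b] at hx1
  have h1 : pt b x ∈ convexHull ℝ (NefC X ∩ RatC X) := hN ⟨hx1, hx2⟩
  let L : (Fin n → ℝ) →ₗ[ℝ] N1 X :=
    { toFun := pt b
      map_add' := pt_add b
      map_smul' := pt_smul b }
  let e : (Fin n → ℝ) ≃ₗ[ℝ] N1 X := LinearEquiv.ofBijective L (pt_bij hX b)
  have he : ∀ v, pt b (e.symm v) = v := fun v => e.apply_symm_apply v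
  have hx : x = e.symm.toLinearMap (pt b x) := (e.symm_apply_apply x).symm
  have h2 : e.symm.toLinearMap (pt b x) ∈ e.symm.toLinearMap '' convexHull ℝ (NefC X ∩ RatC X) :=
    ⟨_, h1, rfl⟩
  rw [LinearMap.image_convexHull] at h2
  rw [hx]
  refine convexHull_mono ?_ h2
  rintro _ ⟨v, ⟨hv1, hv2⟩, rfl⟩
  refine ⟨(cl_ampR hX b _).2 ?_, (rat_pt hX b _).1 ?_⟩
  · show pt b (e.symm v) ∈ NefC X
    rw [he]
    exact hv1
  · show pt b (e.symm v) ∈ RatC X
    rw [he]
    exact hv2

end Pool.Agent.H54.RV
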