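import Pool.Agent.H54.RV.C4
import Pool.Agent.H54.RV.Cond

/-!
# [H54 RV C6] the action preserves the cones and the lattice

* `ample_pull`: for `x` take `n`, `s` from `Ample D` at `σ x`; the section `τ s` of `n (pull g D)`: `τ s * (pull g D).eq y ^ n = τ (s * D.eq (σ y) ^ n)` (`MAut.loc`), and `nz (pull g D) n (τ s) = σ⁻¹(nz D n s)` (`Un (O y) (τ a) ↔ Un (O (σ y)) a`), affine by `MAut.aff`.
* `act_amp`, `act_eff`: `g.act` is linear and `g.act (cl D) = cl (g.pull D)` (`MAut.act_cl`).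
* `act_nef`: `g.act` is continuous (the action is `v ↦ v ∘ crv g`, continuous for the product topology; or finite dimension): `NefC` is the closure.
* `act_gl`: `g.act` maps `Lat` to `Lat` (`MAut.act_cl`, `mem_Lat`) bijectively (the inverse is `g⁻¹.act`, `MAut.act_inv`), so there is `A ∈ GL_n(ℤ)` with `g.act (b j) = ∑ i, A i j • b i` (`LinearMap.toMatrix b b`, or take the coordinates `b.repr` of `g.act (b j)` and of `g⁻¹.act (b j)`), and `g.act (pt b x) = pt b (act A x)` for all real `x` by linearity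
  (`act A x = A.mulVec x`).
* `act_gl_one`: if `A = 1` in `act_gl` then `g.act = id` (`pt_bij`), and conversely (`act_inj` in `H57/KM/Basic`, `pt_bij`).
-/

set_option autoImplicit false

namespace Pool.Agent.H54.RV

open Pool.Agent.H57.KM

variable {k K : Type} [Field k] [Field K] [Algebra k K] {X : Mod k K}

private theorem c6_un (g : MAut X) (y : X.P) (a : K) :
    Un (X.O y) (g.τ a) ↔ Un (X.O (g.σ y)) a := by
  unfold Un
  rw [← map_inv₀, g.loc, g.loc, map_ne_zero]

private theorem c6_eq (g : MAut X) (D : Cart X) (n : ℕ) (s : K) (y : X.P) :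
    g.τ s * (g.pull D).eq y ^ n = g.τ (s * D.eq (g.σ y) ^ n) := by
  rw [map_mul, map_pow]
  rfl

theorem ample_pull (g : MAut X) (D : Cart X) (hD : Ample D) : Ample (g.pull D) := by
  intro x
  obtain ⟨n, hn, s, hs, hx, haff⟩ := hD (g.σ x)
  have hnz : nz (g.pull D) n (g.τ s) = g.σ ⁻¹' (nz D n s) := by
    ext y
    change Un (X.O y) (g.τ s * (g.pull D).eq y ^ n) ↔ Un (X.O (g.σ y)) (s * D.eq (g.σ y) ^ n)
    rw [c6_eq, c6_un]
  refine ⟨n, hn, g.τ s, fun y => ?_, ?_, ?_⟩
  · rw [c6_eq, g.loc]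
    exact hs _
  · rw [hnz]
    exact hx
  · rw [hnz, g.aff]
    exact haff

theorem effective_pull (g : MAut X) (D : Cart X) (hD : Effective D) : Effective (g.pull D) :=
  fun x => (g.loc x _).2 (hD (g.σ x))

private theorem c6_sum (g : MAut X) {m : ℕ} (c : Fin m → ℝ) (D : Fin m → Cart X) :
    g.act (∑ i, c i • cl (D i)) = ∑ i, c i • cl (g.pull (D i)) := by
  rw [map_sum]
  refine Finset.sum_congr rfl fun i _ => ?_
  rw [map_smul, MAut.act_cl]

theorem act_amp (g : MAut X) (v : N1 X) (hv : v ∈ AmpC X) : g.act v ∈ AmpC X := by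
  obtain ⟨m, c, D, hc, hD, rfl⟩ := hv
  exact ⟨m, c, fun i => g.pull (D i), hc, fun i => ample_pull g _ (hD i), c6_sum g c D⟩

theorem act_eff (g : MAut X) (v : N1 X) (hv : v ∈ EffC X) : g.act v ∈ EffC X := by
  obtain ⟨m, c, D, hc, hD, rfl⟩ := hv
  exact ⟨m, c, fun i => g.pull (D i), hc, fun i => effective_pull g _ (hD i), c6_sum g c D⟩

private theorem c6_cont (g : MAut X) : Continuous g.act := by
  refine continuous_induced_rng.2 ?_
  exact continuous_pi fun ζ => f_cont (g.σ ζ)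

theorem act_nef (g : MAut X) (v : N1 X) (hv : v ∈ NefC X) : g.act v ∈ NefC X :=
  map_mem_closure (c6_cont g) hv fun w hw => act_amp g w hw

private theorem c6_lat [IsAlgClosed k] [CharZero k] (hX : IsVar X) (g : MAut X) (v : N1 X)
    (hv : v ∈ Lat X) : g.act v ∈ Lat X := by
  obtain ⟨D, rfl⟩ := (mem_Lat hX v).1 hv
  rw [MAut.act_cl]
  exact (mem_Lat hX _).2 ⟨_, rfl⟩

private noncomputable def c6_phi [IsAlgClosed k] [CharZero k] (hX : IsVar X) (g : MAut X) :
    Lat X →ₗ[ℤ] Lat X :=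
  AddMonoidHom.toIntLinearMap
    { toFun := fun v => ⟨g.act v, c6_lat hX g v v.2⟩
      map_zero' := Subtype.ext (map_zero _)
      map_add' := fun v w => Subtype.ext (map_add _ _ _) }

private theorem c6_phi_apply [IsAlgClosed k] [CharZero k] (hX : IsVar X) (g : MAut X)
    (v : Lat X) : ((c6_phi hX g v : Lat X) : N1 X) = g.act (v : N1 X) := rfl

private theorem c6_phi_inv [IsAlgClosed k] [CharZero k] (hX : IsVar X) (g : MAut X) :
    (c6_phi hX g⁻¹) ∘ₗ (c6_phi hX g) = LinearMap.id := by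
  apply LinearMap.ext
  intro v
  apply Subtype.ext
  change g⁻¹.act (g.act (v : N1 X)) = v
  exact MAut.act_inv g _

private theorem c6_phi_inv' [IsAlgClosed k] [CharZero k] (hX : IsVar X) (g : MAut X) :
    (c6_phi hX g) ∘ₗ (c6_phi hX g⁻¹) = LinearMap.id := by
  have h := c6_phi_inv hX g⁻¹
  rwa [inv_inv] at h

theorem act_gl [IsAlgClosed k] [CharZero k] (hX : IsVar X) {n : ℕ}
    (b : Module.Basis (Fin n) ℤ (Lat X)) (g : MAut X) :
    ∃ A : GL (Fin n) ℤ, ∀ x : V n, g.act (pt b x) = pt b (act A x) := by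
  classical
  let A : GL (Fin n) ℤ :=
    { val := LinearMap.toMatrix b b (c6_phi hX g)
      inv := LinearMap.toMatrix b b (c6_phi hX g⁻¹)
      val_inv := by
        rw [← LinearMap.toMatrix_comp b b b, c6_phi_inv', LinearMap.toMatrix_id]
      inv_val := by
        rw [← LinearMap.toMatrix_comp b b b, c6_phi_inv, LinearMap.toMatrix_id] }
  have hA : ∀ i j, (A : Matrix (Fin n) (Fin n) ℤ) i j = b.repr (c6_phi hX g (b j)) i :=
    fun i j => LinearMap.toMatrix_apply b b _ i j
  have hb : ∀ j, g.act (b j : N1 X) =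
      ∑ i, (((A : Matrix (Fin n) (Fin n) ℤ) i j : ℤ) : ℝ) • (b i : N1 X) := by
    intro j
    have h1 := b.sum_repr (c6_phi hX g (b j))
    have h2 := congrArg (fun v : Lat X => (v : N1 X)) h1
    rw [AddSubmonoidClass.coe_finsetSum] at h2
    rw [← c6_phi_apply hX g (b j), ← h2]
    refine Finset.sum_congr rfl fun i _ => ?_
    rw [hA]
    exact (Int.cast_smul_eq_zsmul ℝ _ (b i : N1 X)).symm
  refine ⟨A, fun x => ?_⟩
  unfold pt
  rw [map_sum]
  have h3 : ∀ i, act A x i = ∑ j, (((A : Matrix (Fin n) (Fin n) ℤ) i j : ℤ) : ℝ) * x j := by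
    intro i
    rfl
  simp only [h3, map_smul, hb, Finset.smul_sum, Finset.sum_smul, smul_smul]
  rw [Finset.sum_comm]
  refine Finset.sum_congr rfl fun i _ => Finset.sum_congr rfl fun j _ => ?_
  rw [mul_comm]

theorem act_gl_one [IsAlgClosed k] [CharZero k] (hX : IsVar X) [FiniteDimensional ℝ (N1 X)]
    {n : ℕ} (b : Module.Basis (Fin n) ℤ (Lat X)) (g : MAut X) (A : GL (Fin n) ℤ)
    (h : ∀ x : V n, g.act (pt b x) = pt b (act A x)) : g.act = LinearMap.id ↔ A = 1 := by
  have hb := pt_bij hX b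
  constructor
  · intro hg
    apply act_inj
    intro x
    rw [act_one]
    apply hb.1
    rw [← h, hg]
    rfl
  · intro hA
    apply LinearMap.ext
    intro v
    obtain ⟨x, rfl⟩ := hb.2 v
    rw [h, hA, act_one]
    rfl

end Pool.Agent.H54.RV
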