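import Pool.Agent.H54.RV.C5
import Pool.Agent.H54.RV.C6

/-!
# [H54 RV C7] Q1 in the coordinates

`nefD` is the datum of `X`, `Γ` and the basis `b` of the lattice.
* `q1_iff`: `Q = pt b '' P`.  `RatPoly P ↔ RatPolyC (pt b '' P)`: the generators `s : Fin n → ℤ` of `P` correspond to classes `cl D = pt b s` (`pt_int`, `int_pt`; a finite set `S` of integral vectors and a family `Fin m → Cart X`: `Finset.equivFin`, for the converse use the image `Finset.univ.image s` and sum the coefficients over the fibres, or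
  prove both inclusions of the cones).  `closure (ampR b) ∩ effR b` is the preimage of `NefC ∩ EffC` (`cl_ampR`), `pt b '' (act A '' P) = g.act '' (pt b '' P)` for `A` and `g` as in `grpR`; every `g ∈ Γ` has an `A` (`act_gl`) and every `A ∈ grpR` has a `g`.  `interior (pt b '' P) = pt b '' interior P` (`pt_homeo`), `g.act ≠ id ↔ A ≠ 1` (`act_gl_one`).
  For the direction from `Q` to `P` take `P = pt b ⁻¹' Q`.
-/

set_option autoImplicit false

namespace Pool.Agent.H54.RV

open Pool.Agent.H57.KM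

variable {k K : Type} [Field k] [Field K] [Algebra k K] [IsAlgClosed k] [CharZero k] {X : Mod k K}

/-- the datum of `X` in the coordinates of a basis of the lattice -/
noncomputable def nefD (hX : IsVar X) [FiniteDimensional ℝ (N1 X)]
    (hA : ∃ D : Cart X, Ample D) (hN : NefC X ∩ EffC X ⊆ convexHull ℝ (NefC X ∩ RatC X))
    (Γ : Subgroup (MAut X)) {n : ℕ} (b : Module.Basis (Fin n) ℤ (Lat X)) : NefData n where
  amp := ampR b
  eff := effR b
  G := grpR Γ b
  isAmp := isAmp_ampR hX hA b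
  eff_zero := by
    change pt b 0 ∈ EffC X
    have h : pt b (0 : Fin n → ℝ) = 0 := by
      unfold pt
      exact Finset.sum_eq_zero fun i _ => by rw [Pi.zero_apply, zero_smul]
    rw [h]
    exact effC_zero
  eff_add x hx y hy := by
    change pt b (x + y) ∈ EffC X
    rw [pt_add]
    exact effC_add _ _ hx hy
  eff_smul c hc x hx := by
    change pt b (c • x) ∈ EffC X
    rw [pt_smul]
    exact effC_smul c hc.le _ hx
  amp_eff x hx := ampC_effC hX hx
  nef_eff := nef_effR hX hN b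
  act_amp := by
    rintro A ⟨g, hg, h⟩ x hx
    change pt b (act A x) ∈ AmpC X
    rw [← h]
    exact act_amp g _ hx
  act_eff := by
    rintro A ⟨g, hg, h⟩ x hx
    change pt b (act A x) ∈ EffC X
    rw [← h]
    exact act_eff g _ hx

omit [IsAlgClosed k] [CharZero k] in
private theorem c7_sum {n m : ℕ} (b : Module.Basis (Fin n) ℤ (Lat X)) (c : Fin m → ℝ)
    (x : Fin m → V n) : pt b (∑ i, c i • x i) = ∑ i, c i • pt b (x i) := by
  classical
  have h0 : pt b (0 : V n) = 0 := by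
    unfold pt
    exact Finset.sum_eq_zero fun i _ => by rw [Pi.zero_apply, zero_smul]
  have h : ∀ T : Finset (Fin m), pt b (∑ i ∈ T, c i • x i) = ∑ i ∈ T, c i • pt b (x i) := by
    intro T
    induction T using Finset.induction_on with
    | empty => rw [Finset.sum_empty, Finset.sum_empty, h0]
    | insert a s ha ih =>
      rw [Finset.sum_insert ha, Finset.sum_insert ha, pt_add, pt_smul, ih]
  exact h _

private theorem c7_sumS {n : ℕ} (S : Finset (Fin n → ℤ)) (c : (Fin n → ℤ) → ℝ) {m : ℕ}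
    (e : Fin m ≃ S) : ∑ s ∈ S, c s • toR s = ∑ i, c (e i) • toR (e i : Fin n → ℤ) := by
  rw [← Finset.sum_coe_sort S (fun s => c s • toR s)]
  exact (Equiv.sum_comp e (fun s : S => c s • toR (s : Fin n → ℤ))).symm

private theorem c7_rat (hX : IsVar X) {n : ℕ} (b : Module.Basis (Fin n) ℤ (Lat X))
    (P : Set (V n)) (h : RatPoly P) : RatPolyC (pt b '' P) := by
  classical
  obtain ⟨S, rfl⟩ := h
  let e : Fin S.card ≃ S := S.equivFin.symm
  choose D hD using fun i : Fin S.card => pt_int hX b (e i : Fin n → ℤ)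
  refine ⟨S.card, D, ?_⟩
  ext v
  constructor
  · rintro ⟨x, ⟨c, hc, rfl⟩, rfl⟩
    refine ⟨fun i => c (e i), fun i => hc _, ?_⟩
    rw [c7_sumS S c e, c7_sum]
    exact Finset.sum_congr rfl fun i _ => by rw [hD]; rfl
  · rintro ⟨c, hc, rfl⟩
    refine ⟨∑ i, c i • toR (e i : Fin n → ℤ),
      ⟨fun s => if h : s ∈ S then c (e.symm ⟨s, h⟩) else 0, ?_, ?_⟩, ?_⟩
    · intro s
      dsimp only
      split_ifs with h
      · exact hc _
      · exact le_rfl
    · rw [c7_sumS S _ e]
      refine Finset.sum_congr rfl fun i _ => ?_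
      rw [dif_pos (e i).2]
      simp
    · rw [c7_sum]
      exact Finset.sum_congr rfl fun i _ => by rw [hD]; rfl

private theorem c7_ratC (hX : IsVar X) [FiniteDimensional ℝ (N1 X)] {n : ℕ}
    (b : Module.Basis (Fin n) ℤ (Lat X))
    (Q : Set (N1 X)) (h : RatPolyC Q) : RatPoly (pt b ⁻¹' Q) := by
  classical
  obtain ⟨m, D, rfl⟩ := h
  choose s hs using fun i : Fin m => int_pt hX b (D i)
  have hs' : ∀ i, cl (D i) = pt b (toR (s i)) := hs
  have hx : ∀ (c : Fin m → ℝ) (x : V n), pt b x = ∑ i, c i • cl (D i) ↔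
      x = ∑ i, c i • toR (s i) := by
    intro c x
    have h1 : ∑ i, c i • cl (D i) = pt b (∑ i, c i • toR (s i)) := by
      rw [c7_sum]
      exact Finset.sum_congr rfl fun i _ => by rw [hs']
    rw [h1]
    exact (pt_bij hX b).1.eq_iff
  refine ⟨Finset.univ.image s, ?_⟩
  ext x
  constructor
  · rintro ⟨c, hc, hcx⟩
    rw [hx] at hcx
    refine ⟨fun t => ∑ i ∈ Finset.univ.filter (fun i => s i = t), c i,
      fun t => Finset.sum_nonneg fun i _ => hc i, ?_⟩
    rw [hcx, ← Finset.sum_fiberwise_of_maps_to (s := Finset.univ) (t := Finset.univ.image s)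
      (g := s) (fun i hi => Finset.mem_image_of_mem s hi)]
    refine Finset.sum_congr rfl fun t _ => ?_
    rw [Finset.sum_smul]
    refine Finset.sum_congr rfl fun i hi => ?_
    rw [(Finset.mem_filter.1 hi).2]
  · rintro ⟨c, hc, hcx⟩
    set N : (Fin n → ℤ) → ℕ := fun t => (Finset.univ.filter fun i => s i = t).card with hN
    refine ⟨fun i => c (s i) / N (s i), fun i => div_nonneg (hc _) (Nat.cast_nonneg _), ?_⟩
    rw [hx, hcx]
    have h1 := Finset.sum_comp (s := (Finset.univ : Finset (Fin m)))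
      (fun t => (c t / (N t : ℝ)) • (toR t : V n)) s
    rw [h1]
    refine Finset.sum_congr rfl fun t ht => ?_
    obtain ⟨i, -, hi⟩ := Finset.mem_image.1 ht
    have hpos : (0 : ℝ) < N t := by
      have : 0 < N t := Finset.card_pos.2 ⟨i, Finset.mem_filter.2 ⟨Finset.mem_univ i, hi⟩⟩
      exact_mod_cast this
    rw [← Nat.cast_smul_eq_nsmul ℝ, smul_smul]
    congr 1
    have h2 : ((Finset.univ.filter fun i => s i = t).card : ℝ) = (N t : ℝ) := rfl
    rw [h2]
    field_simp

theorem q1_iff (hX : IsVar X) [FiniteDimensional ℝ (N1 X)]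
    (hA : ∃ D : Cart X, Ample D) (hN : NefC X ∩ EffC X ⊆ convexHull ℝ (NefC X ∩ RatC X))
    (Γ : Subgroup (MAut X)) {n : ℕ} (b : Module.Basis (Fin n) ℤ (Lat X)) :
    (nefD hX hA hN Γ b).Q1 ↔ Q1M X Γ := by
  classical
  have hinj := (pt_bij hX b).1
  have hsurj := (pt_bij hX b).2
  let H : V n ≃ₜ N1 X := (pt_homeo hX b).homeomorph
  have hH : ∀ x, H x = pt b x := fun x => rfl
  have hcone : ∀ x : V n, x ∈ closure (ampR b) ∩ effR b ↔ pt b x ∈ NefC X ∩ EffC X := by
    intro x
    rw [Set.mem_inter_iff, Set.mem_inter_iff, cl_ampR hX b]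
    rfl
  constructor
  · rintro ⟨P, hP, hcov, hdis⟩
    have hcov' : ∀ x : V n, x ∈ closure (ampR b) ∩ effR b ↔
        ∃ A ∈ grpR Γ b, ∃ y ∈ P, act A y = x := by
      intro x
      have h1 : x ∈ closure (ampR b) ∩ effR b ↔ x ∈ ⋃ g ∈ grpR Γ b, act g '' P := by
        rw [← show closure (ampR b) ∩ effR b = ⋃ g ∈ grpR Γ b, act g '' P from hcov]
      rw [h1]
      simp only [Set.mem_iUnion, Set.mem_image, exists_prop]
    refine ⟨pt b '' P, c7_rat hX b P hP, ?_, ?_⟩
    · ext v
      simp only [Set.mem_iUnion, Set.mem_image, exists_prop]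
      constructor
      · intro hv
        obtain ⟨x, rfl⟩ := hsurj v
        obtain ⟨A, ⟨g, hg, hgA⟩, y, hy, rfl⟩ := (hcov' x).1 ((hcone x).2 hv)
        exact ⟨g, hg, pt b y, ⟨y, hy, rfl⟩, hgA y⟩
      · rintro ⟨g, hg, _, ⟨y, hy, rfl⟩, rfl⟩
        obtain ⟨A, hA'⟩ := act_gl hX b g
        rw [hA' y, ← hcone]
        exact (hcov' _).2 ⟨A, ⟨g, hg, hA'⟩, y, hy, rfl⟩
    · intro g hg hne
      obtain ⟨A, hA'⟩ := act_gl hX b g
      have hA1 : A ≠ 1 := fun h => hne ((act_gl_one hX b g A hA').2 h)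
      have hd := hdis A ⟨g, hg, hA'⟩ hA1
      have hint : interior (pt b '' P) = pt b '' interior P := (H.image_interior P).symm
      rw [hint, Set.disjoint_left]
      rintro _ ⟨x, hx, rfl⟩ ⟨_, ⟨y, hy, rfl⟩, hxy⟩
      rw [hA' y] at hxy
      have h2 := hinj hxy
      exact Set.disjoint_left.1 hd hx ⟨y, hy, h2⟩
  · rintro ⟨Q, hQ, hcov, hdis⟩
    have hcov' : ∀ v : N1 X, v ∈ NefC X ∩ EffC X ↔ ∃ g ∈ Γ, ∃ w ∈ Q, g.act w = v := by
      intro v
      rw [hcov]
      simp only [Set.mem_iUnion, Set.mem_image, exists_prop]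
    refine ⟨pt b ⁻¹' Q, c7_ratC hX b Q hQ, ?_, ?_⟩
    · ext x
      have h1 : x ∈ closure (nefD hX hA hN Γ b).amp ∩ (nefD hX hA hN Γ b).eff ↔
          pt b x ∈ NefC X ∩ EffC X := hcone x
      rw [h1, hcov']
      simp only [Set.mem_iUnion, Set.mem_image, exists_prop]
      constructor
      · rintro ⟨g, hg, w, hw, hwx⟩
        obtain ⟨y, rfl⟩ := hsurj w
        obtain ⟨A, hA'⟩ := act_gl hX b g
        rw [hA' y] at hwx
        exact ⟨A, ⟨g, hg, hA'⟩, y, hw, hinj hwx⟩
      · rintro ⟨A, ⟨g, hg, hgA⟩, y, hy, rfl⟩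
        exact ⟨g, hg, pt b y, hy, hgA y⟩
    · rintro A ⟨g, hg, hgA⟩ hne
      have hg1 : g.act ≠ LinearMap.id := fun h => hne ((act_gl_one hX b g A hgA).1 h)
      have hd := hdis g hg hg1
      have hint : interior (pt b ⁻¹' Q) = pt b ⁻¹' interior Q := (H.preimage_interior Q).symm
      rw [hint, Set.disjoint_left]
      rintro _ hx ⟨y, hy, rfl⟩
      exact Set.disjoint_left.1 hd hx ⟨pt b y, hy, hgA y⟩

theorem int_iff (hX : IsVar X) [FiniteDimensional ℝ (N1 X)] {n : ℕ}
    (b : Module.Basis (Fin n) ℤ (Lat X)) :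
    (∀ s : Fin n → ℤ, toR s ∈ closure (ampR b) → toR s ∈ effR b) ↔
      ∀ D : Cart X, cl D ∈ NefC X → cl D ∈ EffC X := by
  constructor
  · intro h D hD
    obtain ⟨s, hs⟩ := int_pt hX b D
    rw [hs] at hD ⊢
    exact h s ((cl_ampR hX b _).2 hD)
  · intro h s hs
    obtain ⟨D, hD⟩ := pt_int hX b s
    have h1 : pt b (toR s) ∈ NefC X := (cl_ampR hX b _).1 hs
    have h2 : cl D ∈ NefC X := by
      rw [hD]
      exact h1
    have h3 := h D h2
    rw [hD] at h3
    exact h3

end Pool.Agent.H54.RV
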