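import Pool.Agent.H54.RV.C7
import Pool.Agent.H20.FV.Defs

/-!
# [H54 RV C8] the finiteness of the number of orbits, without coordinates
-/

set_option autoImplicit false

namespace Pool.Agent.H54.RV

open Pool.Agent.H57.KM Pool.Agent.H20.FV

variable {k K : Type} [Field k] [Field K] [Algebra k K] {X : Mod k K}

theorem fin_iff [IsAlgClosed k] [CharZero k] (hX : IsVar X) [FiniteDimensional ℝ (N1 X)]
    (Γ : Subgroup (MAut X)) {n : ℕ} (b : Module.Basis (Fin n) ℤ (Lat X)) :
    FinIndC X Γ ↔ FinOrb (grpR Γ b) (Ind (ampR b)) := by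
  have hinj := (pt_bij hX b).1
  have hz : pt b (0 : Fin n → ℝ) = 0 := by
    unfold pt
    exact Finset.sum_eq_zero fun i _ => by rw [Pi.zero_apply, zero_smul]
  have hR : ∀ s t : Fin n → ℤ, toR s = toR t → s = t := by
    intro s t h
    funext i
    have h2 := congrFun h i
    unfold toR at h2
    exact_mod_cast h2
  have h0 : ∀ s : Fin n → ℤ, pt b (toR s) = 0 → s = 0 := by
    intro s hs
    refine hR s 0 ?_
    rw [hinj (hs.trans hz.symm)]
    funext i
    simp [toR]
  have hadd : ∀ s t : Fin n → ℤ, pt b (toR (s + t)) = pt b (toR s) + pt b (toR t) := by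
    intro s t
    rw [← pt_add]
    congr 1
    funext i
    simp [toR]
  have hiff : ∀ (v : Fin n → ℤ) (D : Cart X), cl D = pt b (toR v) →
      (v ∈ Ind (ampR b) ↔ cl D ∈ AmpC X ∧
        ∀ A N : Cart X, cl A ∈ AmpC X → cl N ∈ NefC X → cl D = cl A + cl N → cl N = 0) := by
    intro v D hD
    constructor
    · rintro ⟨h1, h2⟩
      refine ⟨hD ▸ h1, fun A N hA hN hs => ?_⟩
      obtain ⟨a, ha⟩ := int_pt hX b A
      obtain ⟨x, hx⟩ := int_pt hX b N
      have h3 : x = 0 := by
        refine h2 a x ?_ ?_ ?_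
        · change pt b (toR a) ∈ AmpC X
          have : cl A = pt b (toR a) := ha
          rw [← this]
          exact hA
        · rw [cl_ampR hX b]
          have : cl N = pt b (toR x) := hx
          rw [← this]
          exact hN
        · have h4 : pt b (toR v) = pt b (toR (a + x)) := by
            rw [← hD, hs, hadd]
            exact congrArg₂ _ ha hx
          exact hR _ _ (hinj h4)
      rw [hx, h3]
      have h7 : (fun i : Fin n => (((0 : Fin n → ℤ) i : ℤ) : ℝ)) = 0 := by
        funext i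
        simp
      rw [h7, hz]
    · rintro ⟨h1, h2⟩
      have h1' : toR v ∈ ampR b := by
        change pt b (toR v) ∈ AmpC X
        rw [← hD]
        exact h1
      refine ⟨h1', fun a x ha hx hs => ?_⟩
      obtain ⟨A, hA⟩ := pt_int hX b a
      obtain ⟨N, hN⟩ := pt_int hX b x
      apply h0
      have h3 : cl N = pt b (toR x) := hN
      rw [← h3]
      refine h2 A N ?_ ?_ ?_
      · have h4 : cl A = pt b (toR a) := hA
        rw [h4]
        exact ha
      · rw [h3, ← cl_ampR hX b]
        exact hx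
      · rw [hD, hs, hadd]
        exact congrArg₂ _ hA.symm hN.symm
  constructor
  · rintro ⟨F, hF, h⟩
    refine ⟨{s | pt b (toR s) ∈ F}, ?_, ?_⟩
    · exact hF.preimage (fun s _ t _ hst => hR _ _ (hinj hst))
    · intro v hv
      obtain ⟨D, hD⟩ := pt_int hX b v
      obtain ⟨h1, h2⟩ := (hiff v D hD).1 hv
      obtain ⟨g, hg, w, hw, hgw⟩ := h D h1 h2
      -- `w` is an integral class
      have h3 : w = cl (g⁻¹.pull D) := by
        rw [← MAut.act_cl, hgw, MAut.act_inv]
      obtain ⟨s, hs⟩ := int_pt hX b (g⁻¹.pull D)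
      obtain ⟨A, hA⟩ := act_gl hX b g
      refine ⟨A, ⟨g, hg, hA⟩, s, ?_, ?_⟩
      · change pt b (toR s) ∈ F
        have h4 : pt b (toR s) = w := by rw [h3]; exact hs.symm
        rw [h4]
        exact hw
      · apply hinj
        rw [← hA]
        have h4 : pt b (toR s) = w := by rw [h3]; exact hs.symm
        rw [h4, ← hgw]
        exact hD.symm
  · rintro ⟨F, hF, h⟩
    refine ⟨(fun s => pt b (toR s)) '' F, hF.image _, fun D h1 h2 => ?_⟩
    obtain ⟨v, hv⟩ := int_pt hX b D
    obtain ⟨A, ⟨g, hg, hA⟩, s, hs, hvs⟩ := h v ((hiff v D hv).2 ⟨h1, h2⟩)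
    refine ⟨g, hg, pt b (toR s), ⟨s, hs, rfl⟩, ?_⟩
    rw [hA, ← hvs]
    exact hv

end Pool.Agent.H54.RV
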