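import Pool.Agent.H54.RV.C8

/-!
# [H54 RV C9] the fundamental domain on the hull of the rational nef classes, without coordinates

`dom_gen`: for a subset `S` of `N1 X`: fundamental domains for `S` and for its preimage in the coordinates (as
`q1_iff` in `C7`).
-/

set_option autoImplicit false

namespace Pool.Agent.H54.RV

open Pool.Agent.H57.KM Pool.Agent.H20.FV

variable {k K : Type} [Field k] [Field K] [Algebra k K] [IsAlgClosed k] [CharZero k] {X : Mod k K}

private theorem c9_sum {n m : ℕ} (b : Module.Basis (Fin n) ℤ (Lat X)) (c : Fin m → ℝ)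
    (x : Fin m → V n) : pt b (∑ i, c i • x i) = ∑ i, c i • pt b (x i) := by
  classical
  have h0 : pt b (0 : V n) = 0 := by
    unfold pt
    exact Finset.sum_eq_zero fun i _ => by rw [Pi.zero_apply, zero_smul]
  have h : ∀ T : Finset (Fin m), pt b (∑ i ∈ T, c i • x i) = ∑ i ∈ T, c i • pt b (x i) := by
    intro T
    induction T using Finset.induction_on with
    | empty => rw [Finset.sum_empty, Finset.sum_empty, h0]
    | insert a s ha ih =>
      rw [Finset.sum_insert ha, Finset.sum_insert ha, pt_add, pt_smul, ih]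
  exact h _

private theorem c9_sumS {n : ℕ} (S : Finset (Fin n → ℤ)) (c : (Fin n → ℤ) → ℝ) {m : ℕ}
    (e : Fin m ≃ S) : ∑ s ∈ S, c s • toR s = ∑ i, c (e i) • toR (e i : Fin n → ℤ) := by
  rw [← Finset.sum_coe_sort S (fun s => c s • toR s)]
  exact (Equiv.sum_comp e (fun s : S => c s • toR (s : Fin n → ℤ))).symm

private theorem c9_rat (hX : IsVar X) {n : ℕ} (b : Module.Basis (Fin n) ℤ (Lat X))
    (P : Set (V n)) (h : RatPoly P) : RatPolyC (pt b '' P) := by
  classical
  obtain ⟨S, rfl⟩ := h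
  let e : Fin S.card ≃ S := S.equivFin.symm
  choose D hD using fun i : Fin S.card => pt_int hX b (e i : Fin n → ℤ)
  refine ⟨S.card, D, ?_⟩
  ext v
  constructor
  · rintro ⟨x, ⟨c, hc, rfl⟩, rfl⟩
    refine ⟨fun i => c (e i), fun i => hc _, ?_⟩
    rw [c9_sumS S c e, c9_sum]
    exact Finset.sum_congr rfl fun i _ => by rw [hD]; rfl
  · rintro ⟨c, hc, rfl⟩
    refine ⟨∑ i, c i • toR (e i : Fin n → ℤ),
      ⟨fun s => if h : s ∈ S then c (e.symm ⟨s, h⟩) else 0, ?_, ?_⟩, ?_⟩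
    · intro s
      dsimp only
      split_ifs with h
      · exact hc _
      · exact le_rfl
    · rw [c9_sumS S _ e]
      refine Finset.sum_congr rfl fun i _ => ?_
      rw [dif_pos (e i).2]
      simp
    · rw [c9_sum]
      exact Finset.sum_congr rfl fun i _ => by rw [hD]; rfl

private theorem c9_ratC (hX : IsVar X) [FiniteDimensional ℝ (N1 X)] {n : ℕ}
    (b : Module.Basis (Fin n) ℤ (Lat X))
    (Q : Set (N1 X)) (h : RatPolyC Q) : RatPoly (pt b ⁻¹' Q) := by
  classical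
  obtain ⟨m, D, rfl⟩ := h
  choose s hs using fun i : Fin m => int_pt hX b (D i)
  have hs' : ∀ i, cl (D i) = pt b (toR (s i)) := hs
  have hx : ∀ (c : Fin m → ℝ) (x : V n), pt b x = ∑ i, c i • cl (D i) ↔
      x = ∑ i, c i • toR (s i) := by
    intro c x
    have h1 : ∑ i, c i • cl (D i) = pt b (∑ i, c i • toR (s i)) := by
      rw [c9_sum]
      exact Finset.sum_congr rfl fun i _ => by rw [hs']
    rw [h1]
    exact (pt_bij hX b).1.eq_iff
  refine ⟨Finset.univ.image s, ?_⟩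
  ext x
  constructor
  · rintro ⟨c, hc, hcx⟩
    rw [hx] at hcx
    refine ⟨fun t => ∑ i ∈ Finset.univ.filter (fun i => s i = t), c i,
      fun t => Finset.sum_nonneg fun i _ => hc i, ?_⟩
    rw [hcx, ← Finset.sum_fiberwise_of_maps_to (s := Finset.univ) (t := Finset.univ.image s)
      (g := s) (fun i hi => Finset.mem_image_of_mem s hi)]
    refine Finset.sum_congr rfl fun t _ => ?_
    rw [Finset.sum_smul]
    refine Finset.sum_congr rfl fun i hi => ?_
    rw [(Finset.mem_filter.1 hi).2]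
  · rintro ⟨c, hc, hcx⟩
    set N : (Fin n → ℤ) → ℕ := fun t => (Finset.univ.filter fun i => s i = t).card with hN
    refine ⟨fun i => c (s i) / N (s i), fun i => div_nonneg (hc _) (Nat.cast_nonneg _), ?_⟩
    rw [hx, hcx]
    have h1 := Finset.sum_comp (s := (Finset.univ : Finset (Fin m)))
      (fun t => (c t / (N t : ℝ)) • (toR t : V n)) s
    rw [h1]
    refine Finset.sum_congr rfl fun t ht => ?_
    obtain ⟨i, -, hi⟩ := Finset.mem_image.1 ht
    have hpos : (0 : ℝ) < N t := by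
      have : 0 < N t := Finset.card_pos.2 ⟨i, Finset.mem_filter.2 ⟨Finset.mem_univ i, hi⟩⟩
      exact_mod_cast this
    rw [← Nat.cast_smul_eq_nsmul ℝ, smul_smul]
    congr 1
    have h2 : ((Finset.univ.filter fun i => s i = t).card : ℝ) = (N t : ℝ) := rfl
    rw [h2]
    field_simp

/-- the two notions of a fundamental domain agree -/
theorem dom_gen (hX : IsVar X) [FiniteDimensional ℝ (N1 X)] (Γ : Subgroup (MAut X)) {n : ℕ}
    (b : Module.Basis (Fin n) ℤ (Lat X)) (S : Set (N1 X)) (T : Set (V n))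
    (hcone : ∀ x : V n, x ∈ T ↔ pt b x ∈ S) :
    (∃ P : Set (V n), RatPoly P ∧ T = ⋃ g ∈ grpR Γ b, act g '' P ∧
      ∀ g ∈ grpR Γ b, g ≠ 1 → Disjoint (interior P) (act g '' interior P)) ↔
    ∃ Q : Set (N1 X), RatPolyC Q ∧ S = ⋃ g ∈ Γ, g.act '' Q ∧
      ∀ g ∈ Γ, g.act ≠ LinearMap.id → Disjoint (interior Q) (g.act '' interior Q) := by
  classical
  have hinj := (pt_bij hX b).1
  have hsurj := (pt_bij hX b).2
  let H : V n ≃ₜ N1 X := (pt_homeo hX b).homeomorph
  have hH : ∀ x, H x = pt b x := fun x => rfl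
  constructor
  · rintro ⟨P, hP, hcov, hdis⟩
    have hcov' : ∀ x : V n, x ∈ T ↔ ∃ A ∈ grpR Γ b, ∃ y ∈ P, act A y = x := by
      intro x
      rw [hcov]
      simp only [Set.mem_iUnion, Set.mem_image, exists_prop]
    refine ⟨pt b '' P, c9_rat hX b P hP, ?_, ?_⟩
    · ext v
      simp only [Set.mem_iUnion, Set.mem_image, exists_prop]
      constructor
      · intro hv
        obtain ⟨x, rfl⟩ := hsurj v
        obtain ⟨A, ⟨g, hg, hgA⟩, y, hy, rfl⟩ := (hcov' x).1 ((hcone x).2 hv)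
        exact ⟨g, hg, pt b y, ⟨y, hy, rfl⟩, hgA y⟩
      · rintro ⟨g, hg, _, ⟨y, hy, rfl⟩, rfl⟩
        obtain ⟨A, hA'⟩ := act_gl hX b g
        rw [hA' y, ← hcone]
        exact (hcov' _).2 ⟨A, ⟨g, hg, hA'⟩, y, hy, rfl⟩
    · intro g hg hne
      obtain ⟨A, hA'⟩ := act_gl hX b g
      have hA1 : A ≠ 1 := fun h => hne ((act_gl_one hX b g A hA').2 h)
      have hd := hdis A ⟨g, hg, hA'⟩ hA1
      have hint : interior (pt b '' P) = pt b '' interior P := (H.image_interior P).symm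
      rw [hint, Set.disjoint_left]
      rintro _ ⟨x, hx, rfl⟩ ⟨_, ⟨y, hy, rfl⟩, hxy⟩
      rw [hA' y] at hxy
      have h2 := hinj hxy
      exact Set.disjoint_left.1 hd hx ⟨y, hy, h2⟩
  · rintro ⟨Q, hQ, hcov, hdis⟩
    have hcov' : ∀ v : N1 X, v ∈ S ↔ ∃ g ∈ Γ, ∃ w ∈ Q, g.act w = v := by
      intro v
      rw [hcov]
      simp only [Set.mem_iUnion, Set.mem_image, exists_prop]
    refine ⟨pt b ⁻¹' Q, c9_ratC hX b Q hQ, ?_, ?_⟩
    · ext x
      rw [hcone, hcov']
      simp only [Set.mem_iUnion, Set.mem_image, exists_prop]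
      constructor
      · rintro ⟨g, hg, w, hw, hwx⟩
        obtain ⟨y, rfl⟩ := hsurj w
        obtain ⟨A, hA'⟩ := act_gl hX b g
        rw [hA' y] at hwx
        exact ⟨A, ⟨g, hg, hA'⟩, y, hw, hinj hwx⟩
      · rintro ⟨A, ⟨g, hg, hgA⟩, y, hy, rfl⟩
        exact ⟨g, hg, pt b y, hy, hgA y⟩
    · rintro A ⟨g, hg, hgA⟩ hne
      have hg1 : g.act ≠ LinearMap.id := fun h => hne ((act_gl_one hX b g A hgA).1 h)
      have hd := hdis g hg hg1
      have hint : interior (pt b ⁻¹' Q) = pt b ⁻¹' interior Q := (H.preimage_interior Q).symm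
      rw [hint, Set.disjoint_left]
      rintro _ hx ⟨y, hy, rfl⟩
      exact Set.disjoint_left.1 hd hx ⟨pt b y, hy, hgA y⟩

theorem dom_iff (hX : IsVar X) [FiniteDimensional ℝ (N1 X)] (Γ : Subgroup (MAut X)) {n : ℕ}
    (b : Module.Basis (Fin n) ℤ (Lat X)) :
    HasDomain (ampR b) (grpR Γ b) ↔ DomC X Γ := by
  refine dom_gen hX Γ b _ _ fun x => ?_
  have hbij := pt_bij hX b
  let L : V n →ₗ[ℝ] N1 X :=
    { toFun := pt b
      map_add' := pt_add b
      map_smul' := fun c x => pt_smul b c x }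
  have hLx : ∀ y, L y = pt b y := fun _ => rfl
  have h1 : L '' {x | x ∈ closure (ampR b) ∧ ∃ q : Fin n → ℚ, x = qR q} = NefC X ∩ RatC X := by
    ext v
    constructor
    · rintro ⟨y, ⟨hy1, hy2⟩, rfl⟩
      exact ⟨(cl_ampR hX b y).1 hy1, (rat_pt hX b y).2 hy2⟩
    · rintro ⟨hv1, hv2⟩
      obtain ⟨y, rfl⟩ := hbij.2 v
      exact ⟨y, ⟨(cl_ampR hX b y).2 hv1, (rat_pt hX b y).1 hv2⟩, rfl⟩
  rw [← h1, ← L.image_convexHull]
  constructor
  · intro hx
    exact ⟨x, hx, rfl⟩
  · rintro ⟨y, hy, hyx⟩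
    have : y = x := hbij.1 hyx
    rw [← this]
    exact hy

end Pool.Agent.H54.RV
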