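import Pool.Agent.H54.RV.Aut
import Pool.Agent.H54.RV.A1

/-!
# [H54 RV CRV] projection formula for automorphisms

`cls_pull`.  Let `e = g.kapE C.ζ : κ(σ ζ) ≃ κ(ζ)`.  The map `(x', p') ↦ (x, p)` with `x = σ⁻¹ x'`, `p = place_map e p'` (`A1`) is a
bijection of the index sets: `Cen ζ x p ↔ Cen (σ ζ) (σ x) p'`: `ζ ⤳ x ↔ σ ζ ⤳ σ x` (`σ` is a homeomorphism:
`Inseparable`/`Specializes` API, `Specializes.map`), `O x ≤ O ζ ↔ O (σ x) ≤ O (σ ζ)` (`g.loc`, `g.map_O`), and for `a ∈ O (σ x)`, `b = g.τ a ∈ O x`: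
`rs ζ b = e (rs (σ ζ) a)` (`kapE_rs`), which is in `p.R` iff `rs (σ ζ) a ∈ p'.R`; the same for the inverses; `b⁻¹ = g.τ a⁻¹`.  The terms are equal:
`rs ζ (τ (eq (σ x)) / τ (eq (σ ζ))) = e (rs (σ ζ) (eq (σ x) / eq (σ ζ)))` and `place_map_ord`.  Use `finsum_eq_of_bijective` or `Equiv` + `finsum_comp_equiv`.
-/

set_option autoImplicit false

namespace Pool.Agent.H54.RV

variable {k K : Type} [Field k] [Field K] [Algebra k K] {X : Mod k K}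

private theorem crv_term (g : MAut X) (ζ x : X.P) (p' : Place k (X.kap (g.σ ζ))) (a : K) :
    (X.rs (g.σ ζ) a ∈ p'.R ∧ (X.rs (g.σ ζ) a ≠ 0 → (X.rs (g.σ ζ) a)⁻¹ ∈ p'.R →
      a⁻¹ ∈ X.O (g.σ x))) ↔
    (X.rs ζ (g.τ a) ∈ (place_map (g.kapE ζ) p').R ∧ (X.rs ζ (g.τ a) ≠ 0 →
      (X.rs ζ (g.τ a))⁻¹ ∈ (place_map (g.kapE ζ) p').R → (g.τ a)⁻¹ ∈ X.O x)) := by
  rw [← g.kapE_rs ζ a, ← map_inv₀ (g.kapE ζ), place_map_mem, place_map_mem, ← map_inv₀ g.τ,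
    g.loc x a⁻¹, map_ne_zero]

private theorem crv_cen (g : MAut X) (ζ x : X.P) (p' : Place k (X.kap (g.σ ζ))) :
    Cen X (g.σ ζ) (g.σ x) p' ↔ Cen X ζ x (place_map (g.kapE ζ) p') := by
  unfold Cen
  have h1 : g.σ ζ ⤳ g.σ x ↔ ζ ⤳ x := g.σ.isInducing.specializes_iff
  have h2 : X.O (g.σ x) ≤ X.O (g.σ ζ) ↔ X.O x ≤ X.O ζ := by
    constructor
    · intro h b hb
      have h3 : g.τ.symm b ∈ X.O (g.σ x) := (g.loc x _).1 (by rwa [AlgEquiv.apply_symm_apply])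
      have h4 := (g.loc ζ _).2 (h h3)
      rwa [AlgEquiv.apply_symm_apply] at h4
    · intro h a ha
      exact (g.loc ζ a).1 (h ((g.loc x a).2 ha))
  rw [h1, h2]
  refine and_congr_right fun _ => and_congr_right fun _ => ?_
  constructor
  · intro h b hb
    have h3 : g.τ.symm b ∈ X.O (g.σ x) := (g.loc x _).1 (by rwa [AlgEquiv.apply_symm_apply])
    have h4 := (crv_term g ζ x p' (g.τ.symm b)).1 (h _ h3)
    rwa [AlgEquiv.apply_symm_apply] at h4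
  · intro h a ha
    exact (crv_term g ζ x p' a).2 (h _ ((g.loc x a).2 ha))

theorem cls_pull (g : MAut X) (D : Cart X) (C : Curve X) :
    inter (g.pull D) C = inter D (g.crv C) := by
  let F : X.P × Place k (X.kap (g.σ C.ζ)) ≃ X.P × Place k (X.kap C.ζ) :=
    Equiv.prodCongr g.σ.symm.toEquiv (place_map (g.kapE C.ζ))
  have hF : ∀ q : X.P × Place k (X.kap (g.σ C.ζ)), Cen X (g.σ C.ζ) q.1 q.2 ↔
      Cen X C.ζ (F q).1 (F q).2 := by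
    rintro ⟨x', p'⟩
    have h1 := crv_cen g C.ζ (g.σ.symm x') p'
    rw [Homeomorph.apply_symm_apply] at h1
    exact h1
  let Φ : {q : X.P × Place k (X.kap (g.σ C.ζ)) // Cen X (g.σ C.ζ) q.1 q.2} ≃
      {q : X.P × Place k (X.kap C.ζ) // Cen X C.ζ q.1 q.2} := F.subtypeEquiv hF
  unfold inter
  rw [← finsum_comp_equiv Φ]
  refine finsum_congr ?_
  rintro ⟨⟨x', p'⟩, hq⟩
  show (place_map (g.kapE C.ζ) p').ord (X.rs C.ζ (g.τ (D.eq (g.σ (g.σ.symm x'))) /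
    g.τ (D.eq (g.σ C.ζ)))) = p'.ord (X.rs (g.σ C.ζ) (D.eq x' / D.eq (g.σ C.ζ)))
  rw [Homeomorph.apply_symm_apply, ← map_div₀, ← g.kapE_rs, place_map_ord]

end Pool.Agent.H54.RV
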