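import Mathlib

/-!
# Real varieties (MP_e49dc9_ag): definitions

A variety is described by its local rings, which are subrings of the function field (Zariski, Chevalley).
`Mod k K`: a topological space `P` with a local `k`-subalgebra `O x` of the field `K` at every point `x`, and the
predicate `aff` (affine open subsets).  `IsVar X` collects the properties of `X` which are used; they are proved for
the local rings of an integral scheme, proper over `ℂ`, in the files `S*`.

* `Cart X`: Cartier divisors, given by local equations `eq x ∈ K`, `x ∈ P`, such that `eq y / eq x` is a unit of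
  `O y` for all `y` in a neighbourhood of `x`.
* `Curve X`: a curve is the closure of a point `ζ` whose residue field `κ(ζ)` has transcendence degree `1` over `k`.
* `Place k κ`: discrete valuation rings of `κ` which contain `k`; `Place.ord` is the order.
* `Cen X ζ x p`: the point `x` of the closure of `ζ` is the centre of the place `p` of `κ(ζ)`: the image of `O x` in
  `κ(ζ)` is dominated by `p`.
* `inter D C`: the intersection number `D . C = ∑ ord_p (eq x / eq ζ)`, the sum over the places `p` of `κ(ζ)` with
  centre `x` (the degree of the pull-back of `D` to the normalization of `C`).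
* `N1 X`: the real vector space spanned by the classes `cls D` of the Cartier divisors (functions on the set of the
  points, `D . C` at the generic point of the curve `C`, `0` at the other points), with the topology of pointwise
  convergence; `Ample` (Stacks 01PS), `Effective`, `AmpC`, `NefC`, `EffC`: the cones.
* `MAut X`: automorphisms; `MAut.crv`, `MAut.act`: the action on the curves and on `N1 X`.
-/

set_option autoImplicit false

open scoped Topology

namespace Pool.Agent.H54.RV

section places

variable (k κ : Type) [Field k] [Field κ] [Algebra k κ]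

/-- a place of `κ` over `k`: a discrete valuation ring of `κ` which contains `k` -/
structure Place where
  /-- the valuation ring -/
  R : ValuationSubring κ
  mem : ∀ c : k, algebraMap k κ c ∈ R
  dvr : IsDiscreteValuationRing R

variable {k κ}

/-- the order of an element at a place (`0` for the element `0`) -/
noncomputable def Place.ord (p : Place k κ) (a : κ) : ℤ :=
  haveI := p.dvr
  WithZero.log ((IsDiscreteValuationRing.maximalIdeal p.R).valuation κ a)⁻¹

end places

/-- a space of local rings in the field `K` -/
structure Mod (k K : Type) [Field k] [Field K] [Algebra k K] where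
  /-- the points -/
  P : Type
  /-- the topology -/
  [top : TopologicalSpace P]
  /-- the local rings -/
  O : P → Subalgebra k K
  loc : ∀ x, IsLocalRing (O x)
  /-- the affine open sets -/
  aff : Set P → Prop

attribute [instance] Mod.top Mod.loc

section defs

variable {k K : Type} [Field k] [Field K] [Algebra k K]

/-- the units of a subalgebra of a field -/
def Un (A : Subalgebra k K) (a : K) : Prop := a ≠ 0 ∧ a ∈ A ∧ a⁻¹ ∈ A

variable (X : Mod k K)

/-- the residue field at `x` -/
def Mod.kap (x : X.P) : Type := IsLocalRing.ResidueField (X.O x)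

noncomputable instance (x : X.P) : Field (X.kap x) :=
  (inferInstance : Field (IsLocalRing.ResidueField (X.O x)))

noncomputable instance (x : X.P) : Algebra k (X.kap x) :=
  (inferInstance : Algebra k (IsLocalRing.ResidueField (X.O x)))

open Classical in
/-- the residue class at `x` of an element of the local ring (`0` for the other elements of `K`) -/
noncomputable def Mod.rs (x : X.P) (a : K) : X.kap x :=
  if h : a ∈ X.O x then IsLocalRing.residue (X.O x) ⟨a, h⟩ else 0

/-- Cartier divisors, by local equations at all points -/
structure Cart where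
  /-- the local equation at `x` -/
  eq : X.P → K
  ne : ∀ x, eq x ≠ 0
  loc : ∀ x, ∃ U : Set X.P, IsOpen U ∧ x ∈ U ∧ ∀ y ∈ U, Un (X.O y) (eq y / eq x)

/-- a curve, as the closure of its generic point `ζ` -/
structure Curve where
  /-- the generic point -/
  ζ : X.P
  trdeg : Algebra.trdeg k (X.kap ζ) = 1

/-- `x` is in the closure of `ζ` and is the centre of the place `p` of the residue field of `ζ`: the image of the
local ring at `x` is dominated by the valuation ring -/
def Cen (ζ x : X.P) (p : Place k (X.kap ζ)) : Prop :=
  ζ ⤳ x ∧ X.O x ≤ X.O ζ ∧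
    ∀ a ∈ X.O x, X.rs ζ a ∈ p.R ∧ (X.rs ζ a ≠ 0 → (X.rs ζ a)⁻¹ ∈ p.R → a⁻¹ ∈ X.O x)

variable {X}

/-- the intersection number of a Cartier divisor and a curve -/
noncomputable def inter (D : Cart X) (C : Curve X) : ℤ :=
  ∑ᶠ q : {q : X.P × Place k (X.kap C.ζ) // Cen X C.ζ q.1 q.2},
    q.1.2.ord (X.rs C.ζ (D.eq q.1.1 / D.eq C.ζ))

open Classical in
/-- the numerical class of a Cartier divisor, as a function on the set of the points: its value at the generic point
of a curve `C` is `D . C`, and its value at the other points is `0` -/
noncomputable def cls (D : Cart X) (ζ : X.P) : ℝ :=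
  if h : Algebra.trdeg k (X.kap ζ) = 1 then (inter D ⟨ζ, h⟩ : ℝ) else 0

variable (X) in
/-- the span of the numerical classes in the space of the real functions on the set of the points -/
noncomputable def N1s : Submodule ℝ (X.P → ℝ) := Submodule.span ℝ (Set.range cls)

variable (X) in
/-- the real vector space spanned by the Cartier divisors modulo numerical equivalence -/
def N1 : Type := N1s X

noncomputable instance : AddCommGroup (N1 X) := (inferInstance : AddCommGroup (N1s X))

noncomputable instance : Module ℝ (N1 X) := (inferInstance : Module ℝ (N1s X))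

/-- the topology of pointwise convergence -/
noncomputable instance : TopologicalSpace (N1 X) := (inferInstance : TopologicalSpace (N1s X))

/-- the function on the set of the points given by an element of `N1` -/
def N1.f (v : N1 X) : X.P → ℝ := Subtype.val v

/-- the class in `N1` -/
noncomputable def cl (D : Cart X) : N1 X :=
  (⟨cls D, Submodule.subset_span ⟨D, rfl⟩⟩ : N1s X)

/-- `s` is a section of the sheaf of the multiple `n D` -/
def Sec (D : Cart X) (n : ℕ) (s : K) : Prop := ∀ x, s * D.eq x ^ n ∈ X.O x

/-- the set where the section `s` of `n D` does not vanish -/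
def nz (D : Cart X) (n : ℕ) (s : K) : Set X.P := {x | Un (X.O x) (s * D.eq x ^ n)}

/-- ample Cartier divisors: for every point `x` some multiple has a section, not vanishing at `x`, such that the
set where it does not vanish is affine -/
def Ample (D : Cart X) : Prop :=
  ∀ x, ∃ n : ℕ, 1 ≤ n ∧ ∃ s : K, Sec D n s ∧ x ∈ nz D n s ∧ X.aff (nz D n s)

/-- effective Cartier divisors -/
def Effective (D : Cart X) : Prop := ∀ x, D.eq x ∈ X.O x

variable (X)

/-- the cone of the combinations of ample classes with positive coefficients -/
def AmpC : Set (N1 X) :=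
  {v | ∃ (m : ℕ) (c : Fin (m + 1) → ℝ) (D : Fin (m + 1) → Cart X),
    (∀ i, 0 < c i) ∧ (∀ i, Ample (D i)) ∧ v = ∑ i, c i • cl (D i)}

/-- the nef cone -/
def NefC : Set (N1 X) := closure (AmpC X)

/-- the cone of the effective classes -/
def EffC : Set (N1 X) :=
  {v | ∃ (m : ℕ) (c : Fin m → ℝ) (D : Fin m → Cart X),
    (∀ i, 0 ≤ c i) ∧ (∀ i, Effective (D i)) ∧ v = ∑ i, c i • cl (D i)}

variable {X} in
/-- rational polyhedral cones -/
def RatPolyC (Q : Set (N1 X)) : Prop :=
  ∃ (m : ℕ) (D : Fin m → Cart X), Q = {v | ∃ c : Fin m → ℝ, (∀ i, 0 ≤ c i) ∧ v = ∑ i, c i • cl (D i)}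

/-- rational classes -/
def RatC : Set (N1 X) := {v | ∃ (m : ℕ) (D : Cart X), 1 ≤ m ∧ (m : ℝ) • v = cl D}

/-- the lattice of the integral classes -/
noncomputable def Lat : AddSubgroup (N1 X) := AddSubgroup.closure (Set.range cl)

/-- automorphisms: a homeomorphism `σ` and an automorphism `τ` of the field (the pull-back of functions) -/
structure MAut where
  /-- the map on the points -/
  σ : X.P ≃ₜ X.P
  /-- the pull-back of functions -/
  τ : K ≃ₐ[k] K
  loc : ∀ x a, τ a ∈ X.O x ↔ a ∈ X.O (σ x)
  aff : ∀ U : Set X.P, X.aff (σ ⁻¹' U) ↔ X.aff U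

/-- the functions on the affine open set `U` -/
def Mod.sec (U : Set X.P) : Subalgebra k K := ⨅ x ∈ U, X.O x

/-- the properties of `X` which are used: they hold for the local rings of an integral scheme proper over `k` -/
structure IsVar : Prop where
  comp : CompactSpace X.P
  ne : Nonempty X.P
  spec : ∀ x y, x ⤳ y → X.O y ≤ X.O x
  op : ∀ U, X.aff U → IsOpen U
  chart : ∀ x, ∃ U, X.aff U ∧ x ∈ U
  basic : ∀ U a, X.aff U → (∀ x ∈ U, a ∈ X.O x) → X.aff {x | x ∈ U ∧ Un (X.O x) a}
  bas : ∀ U V x, X.aff U → IsOpen V → x ∈ U → x ∈ V →
    ∃ a, (∀ y ∈ U, a ∈ X.O y) ∧ Un (X.O x) a ∧ ∀ y ∈ U, Un (X.O y) a → y ∈ V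
  fg : ∀ U, X.aff U → U.Nonempty → (X.sec U).FG
  frac : ∀ U x, X.aff U → x ∈ U → ∀ b ∈ X.O x, ∃ s ∈ X.sec U, Un (X.O x) s ∧ b * s ∈ X.sec U
  prime : ∀ U, X.aff U → U.Nonempty → ∀ I : Ideal (X.sec U), I.IsPrime →
    ∃ x ∈ U, ∀ a : X.sec U, a ∈ I ↔ ¬ Un (X.O x) a
  cen : ∀ ζ (p : Place k (X.kap ζ)), ∃! x, Cen X ζ x p

end defs

end Pool.Agent.H54.RV
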