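import Pool.Agent.H54.RV.Sch
import Pool.Agent.H54.RV.Crd
import Pool.Agent.H57.KM.Defs

/-!
# Real varieties: the definitions of the statement

`G` is a set of maps of `N1 X` to itself (the pull-backs by the automorphisms).

* `Fund G S`: `G` has a rational polyhedral fundamental domain on the cone `S`.
* `FinIndS G`: the ample integral classes which are not the sum of an ample and a nonzero nef integral class form
  finitely many `G`-orbits.
* `grpS G b`: the group of the matrices of the elements of `G` in the basis `b` of the lattice.
* `AutS f`: the pull-backs by the automorphisms of `Y` over `ℂ`; `autR f b`: the group of their matrices.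
* `Q1Y f`: Q1 for `Y`; `DomY f`: a rational polyhedral fundamental domain on the hull of the rational nef classes.
-/

set_option autoImplicit false

namespace Pool.Agent.H54.RV

open AlgebraicGeometry CategoryTheory Pool.Agent.H57.KM

section gen

variable {k K : Type} [Field k] [Field K] [Algebra k K] {X : Mod k K}

/-- `G` has a rational polyhedral fundamental domain on `S`: the translates of `Q` cover `S`, and the interiors of
`Q` and `g Q` are disjoint unless `g` is the identity -/
def Fund (G : Set (N1 X → N1 X)) (S : Set (N1 X)) : Prop :=
  ∃ Q : Set (N1 X), RatPolyC Q ∧ S = ⋃ g ∈ G, g '' Q ∧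
    ∀ g ∈ G, g ≠ id → Disjoint (interior Q) (g '' interior Q)

/-- the ample integral classes which are not the sum of an ample and a nonzero nef integral class form finitely
many orbits -/
def FinIndS (G : Set (N1 X → N1 X)) : Prop :=
  ∃ F : Set (N1 X), F.Finite ∧ ∀ D : Cart X, cl D ∈ AmpC X →
    (∀ A N : Cart X, cl A ∈ AmpC X → cl N ∈ NefC X → cl D = cl A + cl N → cl N = 0) →
    ∃ g ∈ G, ∃ w ∈ F, cl D = g w

/-- the group of the matrices of the elements of `G` in the basis `b` of the lattice -/
def grpS (G : Set (N1 X → N1 X)) {n : ℕ} (b : LatB X n) : Subgroup (GL (Fin n) ℤ) :=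
  Subgroup.closure {A | ∃ g ∈ G, ∀ x : V n, g (pt b x) = pt b (act A x)}

end gen

variable {Y : Scheme.{0}} [IsIntegral Y] (f : Y ⟶ Spec (.of ℂ))

/-- the pull-backs by the automorphisms of `Y` over `ℂ` -/
def AutS : Set (N1 (mdl f) → N1 (mdl f)) :=
  {g | ∃ φ : Y ≅ Y, φ.hom ≫ f = f ∧ ∀ v x, (g v).f x = v.f (Scheme.homeoOfIso φ x)}

/-- Q1 for `Y`: a rational polyhedral fundamental domain for the automorphisms on the effective nef cone -/
def Q1Y : Prop := Fund (AutS f) (NefE (mdl f))

/-- a rational polyhedral fundamental domain for the automorphisms on the hull of the rational nef classes -/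
def DomY : Prop := Fund (AutS f) (NefP (mdl f))

/-- the group of the automorphisms in the coordinates -/
noncomputable def autR {n : ℕ} (b : LatB (mdl f) n) : Subgroup (GL (Fin n) ℤ) := grpS (AutS f) b

end Pool.Agent.H54.RV
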