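import Pool.Agent.H54.RV.Sch
import Pool.Agent.H54.RV.B1

/-!
# [H54 RV S1] the local rings of a scheme: specialization, sections and units

* `toK_inj`: `toK f x` is injective (`IsFractionRing.injective (Y.presheaf.stalk x) Y.functionField`).
* `mem_O`: by definition.
* `toK_spec`: for `x ⤳ y` the map `stalk y → stalk x` (`Y.presheaf.stalkSpecializes h`) is compatible with the maps to the function field (`stalkSpecializes_comp`; `algebraMap (stalk x) K = (stalkSpecializes _).hom` by definition, see `stalkFunctionFieldAlgebra` in `AlgebraicGeometry/FunctionField.lean`).  `O_mono`: so `O y ≤ O x`.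
* `toK_germ`: `Scheme.algebraMap_germ_eq_germToFunctionField`.
* `un_germ`: for `s ∈ Γ(Y, V)`, `x ∈ V`: the image of `s` in `K` is a unit of `O x` iff `x ∈ Y.basicOpen s` (`Scheme.mem_basicOpen`: the germ is a unit; `un_iff` in `B1` and `toK_inj`: `stalk x ≃ O x`).
-/

set_option autoImplicit false

namespace Pool.Agent.H54.RV

open AlgebraicGeometry CategoryTheory

variable {Y : Scheme.{0}} [IsIntegral Y] (f : Y ⟶ Spec (.of ℂ))

theorem toK_inj (x : Y) : Function.Injective (toK f x) :=
  IsFractionRing.injective (Y.presheaf.stalk x) Y.functionField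

theorem mem_O (x : Y) (a : FF f) : a ∈ locA f x ↔ ∃ s, toK f x s = a := Iff.rfl

theorem toK_spec {x y : Y} (h : x ⤳ y) (s : Y.presheaf.stalk y) :
    toK f x ((Y.presheaf.stalkSpecializes h).hom s) = toK f y s := by
  have h1 := Y.presheaf.stalkSpecializes_comp
    ((genericPoint_spec Y).specializes (Set.mem_univ x)) h
  exact congrArg (fun g => g.hom s) h1

theorem O_mono {x y : Y} (h : x ⤳ y) : locA f y ≤ locA f x := by
  rintro a ⟨s, rfl⟩
  exact ⟨(Y.presheaf.stalkSpecializes h).hom s, toK_spec f h s⟩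

/-- the image of a section in the function field -/
noncomputable def gK (V : Y.Opens) [Nonempty V] : Γ(Y, V) →+* FF f := (Y.germToFunctionField V).hom

theorem toK_germ (V : Y.Opens) [Nonempty V] (x : Y) (hx : x ∈ V) (s : Γ(Y, V)) :
    toK f x ((Y.presheaf.germ V x hx).hom s) = gK f V s := by
  have h1 := Y.presheaf.germ_stalkSpecializes (U := V) (y := x) hx
    ((genericPoint_spec Y).specializes (Set.mem_univ x))
  exact congrArg (fun g => g.hom s) h1

theorem gK_inj (V : Y.Opens) [Nonempty V] : Function.Injective (gK f V) :=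
  Scheme.germToFunctionField_injective Y V

theorem un_germ (V : Y.Opens) [Nonempty V] (x : Y) (hx : x ∈ V) (s : Γ(Y, V)) :
    Un (locA f x) (gK f V s) ↔ x ∈ Y.basicOpen s := by
  rw [Scheme.mem_basicOpen _ _ _ hx, ← toK_germ f V x hx s]
  constructor
  · rintro ⟨h1, _, h3⟩
    obtain ⟨t, ht⟩ := (mem_O f x _).1 h3
    refine IsUnit.of_mul_eq_one t (toK_inj f x ?_)
    rw [map_mul, ht, map_one, mul_inv_cancel₀ h1]
  · intro h
    obtain ⟨t, ht⟩ := h.exists_right_inv
    have h1 : toK f x ((Y.presheaf.germ V x hx).hom s) * toK f x t = 1 := by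
      rw [← map_mul, ht, map_one]
    refine ⟨left_ne_zero_of_mul_eq_one h1, ⟨_, rfl⟩, ?_⟩
    rw [inv_eq_of_mul_eq_one_right h1]
    exact ⟨t, rfl⟩

end Pool.Agent.H54.RV
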