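import Pool.Agent.H54.RV.S2

/-!
# [H54 RV S3] the properties of `IsVar` which concern the affine open sets

`(mdl f).aff U` means that `U` is the carrier of an affine open `V : Y.Opens`; `(mdl f).O x = locA f x`, `(mdl f).P = Y` by definition (`change`, `show`).
* `mdl_comp`: `f` is quasi-compact, `Spec ℂ` is compact, so `Y` is (`QuasiCompact` API: `compactSpace_of_quasiCompact` or `quasiCompact_over_affine_iff`).
* `mdl_chart`: `Y.isBasis_affineOpens`.  `mdl_op`: `V.isOpen`.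
* `mdl_basic`: `U = V` affine.  If `V` is empty the set is empty (`isAffineOpen_bot`); otherwise `a = gK s` (`sec_aff`), and `{x ∈ V : Un (O x) a} = Y.basicOpen s` (`un_germ`, `Y.basicOpen_le`), affine by `IsAffineOpen.basicOpen`.
* `mdl_bas`: `IsAffineOpen.exists_basicOpen_le` (for `x ∈ V ∩ W`), `un_germ`, `toK_germ`.
* `mdl_frac`, `mdl_prime`: `frac_aff`, `prime_aff` with the ring isomorphism `Γ(Y, V) ≃ sec V` (`sec_aff`, `gK_inj`, `mem_sec`): for a prime ideal `I` of `(mdl f).sec U` take its preimage in `Γ(Y, V)`.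
* `mdl_fg`: `f` is locally of finite type, so `Γ(Y, V)` is a finitely generated `ℂ`-algebra (`LocallyOfFiniteType` API: `HasRingHomProperty.appLE` for `f`, the affine open `⊤` of `Spec ℂ` and `V`: the ring homomorphism `Γ(Spec ℂ, ⊤) → Γ(Y, V)` is of finite type; `Γ(Spec ℂ, ⊤) ≅ ℂ` by `Scheme.ΓSpecIso`), and `sec V` is the image of
  `Γ(Y, V)` under `gK`, compatible with the maps from `ℂ` (`toK_cS`, `cS`): finitely generated (`Subalgebra.FG` of the range, `Algebra.FiniteType`).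
-/

set_option autoImplicit false

namespace Pool.Agent.H54.RV

open AlgebraicGeometry CategoryTheory

variable {Y : Scheme.{0}} [IsIntegral Y] (f : Y ⟶ Spec (.of ℂ))

theorem mdl_comp [IsProper f] : CompactSpace (mdl f).P := by
  change CompactSpace Y
  exact QuasiCompact.compactSpace_of_compactSpace f

theorem mdl_op (U : Set (mdl f).P) (hU : (mdl f).aff U) : IsOpen U := by
  obtain ⟨V, _, rfl⟩ := hU
  exact V.isOpen

theorem mdl_chart (x : (mdl f).P) : ∃ U, (mdl f).aff U ∧ x ∈ U := by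
  obtain ⟨_, ⟨V, hV, rfl⟩, hx, _⟩ :=
    Y.isBasis_affineOpens.exists_subset_of_mem_open (Set.mem_univ (x : Y)) isOpen_univ
  exact ⟨V, ⟨V, hV, rfl⟩, hx⟩

theorem mdl_basic (U : Set (mdl f).P) (a : FF f) (hU : (mdl f).aff U)
    (ha : ∀ x ∈ U, a ∈ (mdl f).O x) : (mdl f).aff {x | x ∈ U ∧ Un ((mdl f).O x) a} := by
  obtain ⟨V, hV, rfl⟩ := hU
  by_cases hne : Nonempty V
  · obtain ⟨s, rfl⟩ := (sec_aff f V hV a).1 ha
    refine ⟨Y.basicOpen s, hV.basicOpen s, ?_⟩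
    ext x
    constructor
    · intro hx
      have hxV : x ∈ V := Y.basicOpen_le s hx
      exact ⟨hxV, (un_germ f V x hxV s).2 hx⟩
    · rintro ⟨hxV, hx⟩
      exact (un_germ f V x hxV s).1 hx
  · refine ⟨⊥, isAffineOpen_bot Y, ?_⟩
    ext x
    constructor
    · intro hx
      exact hx.elim
    · rintro ⟨hxV, _⟩
      exact (hne ⟨⟨x, hxV⟩⟩).elim

theorem mdl_bas (U V : Set (mdl f).P) (x : (mdl f).P) (hU : (mdl f).aff U) (hV : IsOpen V)
    (hxU : x ∈ U) (hxV : x ∈ V) :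
    ∃ a, (∀ y ∈ U, a ∈ (mdl f).O y) ∧ Un ((mdl f).O x) a ∧
      ∀ y ∈ U, Un ((mdl f).O y) a → y ∈ V := by
  obtain ⟨W, hW, rfl⟩ := hU
  have : Nonempty W := ⟨⟨x, hxU⟩⟩
  let V' : Y.Opens := ⟨V, hV⟩
  obtain ⟨s, h1, h2⟩ := hW.exists_basicOpen_le (V := V') ⟨x, hxV⟩ hxU
  refine ⟨gK f W s, (sec_aff f W hW _).2 ⟨s, rfl⟩, (un_germ f W x hxU s).2 h2, ?_⟩
  intro y hy hu
  exact h1 ((un_germ f W y hy s).1 hu)

theorem mdl_frac (U : Set (mdl f).P) (x : (mdl f).P) (hU : (mdl f).aff U) (hx : x ∈ U) (b : FF f)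
    (hb : b ∈ (mdl f).O x) :
    ∃ s ∈ (mdl f).sec U, Un ((mdl f).O x) s ∧ b * s ∈ (mdl f).sec U := by
  obtain ⟨W, hW, rfl⟩ := hU
  have : Nonempty W := ⟨⟨x, hx⟩⟩
  obtain ⟨s, t, h1, h2⟩ := frac_aff f W hW x hx b hb
  have hs : ∀ u : Γ(Y, W), gK f W u ∈ (mdl f).sec (W : Set Y) := fun u => by
    have := (sec_aff f W hW (gK f W u)).2 ⟨u, rfl⟩
    unfold Mod.sec
    rw [Algebra.mem_iInf]
    intro y
    rw [Algebra.mem_iInf]
    intro hy
    exact this y hy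
  refine ⟨gK f W s, hs s, (un_germ f W x hx s).2 h1, ?_⟩
  rw [h2]
  exact hs t

theorem mdl_prime (U : Set (mdl f).P) (hU : (mdl f).aff U) (hne : U.Nonempty)
    (I : Ideal ((mdl f).sec U)) (hI : I.IsPrime) :
    ∃ x ∈ U, ∀ a : (mdl f).sec U, a ∈ I ↔ ¬ Un ((mdl f).O x) a := by
  obtain ⟨W, hW, rfl⟩ := hU
  obtain ⟨x0, hx0⟩ := hne
  have : Nonempty W := ⟨⟨x0, hx0⟩⟩
  have hs : ∀ u : FF f, u ∈ (mdl f).sec (W : Set Y) ↔ ∃ s : Γ(Y, W), gK f W s = u := fun u => by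
    rw [← sec_aff f W hW u]
    unfold Mod.sec
    rw [Algebra.mem_iInf]
    refine forall_congr' fun y => ?_
    rw [Algebra.mem_iInf]
    rfl
  let g : Γ(Y, W) →+* (mdl f).sec (W : Set Y) :=
    (gK f W).codRestrict ((mdl f).sec (W : Set Y)) (fun s => (hs _).2 ⟨s, rfl⟩)
  obtain ⟨x, hx, h⟩ := prime_aff W hW (I.comap g) (hI.comap g)
  refine ⟨x, hx, ?_⟩
  rintro ⟨a, ha⟩
  obtain ⟨s, rfl⟩ := (hs a).1 ha
  have h1 := h s
  rw [Ideal.mem_comap, ← un_germ f W x hx s] at h1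
  exact h1

end Pool.Agent.H54.RV
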