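import Pool.Agent.H54.RV.S1

/-!
# [H54 RV S5] from a point `ζ` and a place of its residue field to morphisms

`κ = (mdl f).kap ζ`, the residue field of the local subring `locA f ζ` of the function field.
* `rK ζ : stalk ζ →+* κ`: `s ↦ rs ζ (toK s)`, i.e. `residue ∘ rangeRestrict` (a ring homomorphism by definition).  `rK_apply`, `rK_local`.
* `iK ζ : Spec κ ⟶ Y` = `Spec.map rK ≫ Y.fromSpecStalk ζ`.  `iK_pt`: its image is `ζ` (the closed point of `Spec κ` goes to the closed point of `Spec (stalk ζ)` because `rK` is local: `comap_closedPoint`, `Scheme.fromSpecStalk_closedPoint`).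
* `iK_f`: `iK ≫ f = Spec.map (algebraMap ℂ κ)`: both sides are morphisms to `Spec ℂ`; `Y.fromSpecStalk ζ ≫ f = Spec.map (cS f ζ)` (`fromSpecStalk_f`: `Scheme.fromSpecStalk_appTop` and `Spec`-`Γ` adjunction: a morphism `g` to `Spec ℂ` from an affine scheme is determined by `g.appTop`, `Spec.homEquiv`, `Scheme.toSpecΓ_naturality`;
  compare `Scheme.Spec_map_stalkMap_fromSpecStalk`), and `rK (cS c) = algebraMap ℂ κ c` (`toK_cS`, `rs_alg`).
-/

set_option autoImplicit false

namespace Pool.Agent.H54.RV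

open AlgebraicGeometry CategoryTheory

variable {Y : Scheme.{0}} [IsIntegral Y] (f : Y ⟶ Spec (.of ℂ))

/-- the residue map on the stalk -/
noncomputable def rK (ζ : Y) : Y.presheaf.stalk ζ →+* (mdl f).kap ζ :=
  (IsLocalRing.residue ((mdl f).O ζ)).comp (toK f ζ).rangeRestrict

theorem rK_apply (ζ : Y) (s : Y.presheaf.stalk ζ) : rK f ζ s = (mdl f).rs ζ (toK f ζ s) := by
  have h : toK f ζ s ∈ (mdl f).O ζ := ⟨s, rfl⟩
  unfold Mod.rs
  rw [dif_pos h]
  rfl

theorem rK_local (ζ : Y) : IsLocalHom (rK f ζ) := by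
  constructor
  intro s hs
  have h1 : IsUnit ((⟨toK f ζ s, s, rfl⟩ : locA f ζ)) := by
    rw [← IsLocalRing.residue_ne_zero_iff_isUnit]
    exact hs.ne_zero
  obtain ⟨u, hu⟩ := h1.exists_right_inv
  obtain ⟨t, ht⟩ := u.2
  refine IsUnit.of_mul_eq_one t (toK_inj f ζ ?_)
  rw [map_mul, map_one, ht]
  exact congrArg Subtype.val hu

/-- the morphism from the spectrum of the residue field -/
noncomputable def iK (ζ : Y) : Spec (.of ((mdl f).kap ζ)) ⟶ Y :=
  Spec.map (CommRingCat.ofHom (rK f ζ)) ≫ Y.fromSpecStalk ζ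

theorem iK_pt (ζ : Y) (z : Spec (.of ((mdl f).kap ζ))) : iK f ζ z = ζ := by
  have h1 : z = IsLocalRing.closedPoint ((mdl f).kap ζ) := Subsingleton.elim _ _
  have := rK_local f ζ
  have h2 : Spec.map (CommRingCat.ofHom (rK f ζ)) z =
      IsLocalRing.closedPoint (Y.presheaf.stalk ζ) := by
    rw [h1]
    exact IsLocalRing.comap_closedPoint (rK f ζ)
  rw [iK, Scheme.Hom.comp_apply, h2, Scheme.fromSpecStalk_closedPoint]

omit [IsIntegral Y] in
theorem fromSpecStalk_f (ζ : Y) :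
    Y.fromSpecStalk ζ ≫ f = Spec.map (CommRingCat.ofHom (cS f ζ)) := by
  have h1 : f = Y.toSpecΓ ≫ Spec.map f.appTop ≫ Spec.map (Scheme.ΓSpecIso (.of ℂ)).inv := by
    rw [← Scheme.toSpecΓ_naturality_assoc, toSpecΓ_SpecMap_ΓSpecIso_inv, Category.comp_id]
  conv_lhs => rw [h1]
  rw [← Category.assoc, Scheme.fromSpecStalk_toSpecΓ, ← Spec.map_comp, ← Spec.map_comp]
  congr 1

theorem iK_f (ζ : Y) :
    iK f ζ ≫ f = Spec.map (CommRingCat.ofHom (algebraMap ℂ ((mdl f).kap ζ))) := by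
  rw [iK, Category.assoc, fromSpecStalk_f, ← Spec.map_comp, ← CommRingCat.ofHom_comp]
  congr 2
  ext c
  rw [RingHom.comp_apply, rK_apply, toK_cS]
  exact rs_alg (X := mdl f) ζ c

end Pool.Agent.H54.RV
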